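import Mathlib

set_option autoImplicit false

/-!
The operator algebra: generators `x i`, all `x i * x j + x j * x i` central.
-/

namespace Pool.Agent.H163R3

universe u

section

variable (F : Type u) [Field F]

/-- the relations: the symmetric products of generators commute with the generators -/
inductive Rel : FreeAlgebra F ℕ → FreeAlgebra F ℕ → Prop
  | comm (a b c : ℕ) : Rel
      ((FreeAlgebra.ι F a * FreeAlgebra.ι F b + FreeAlgebra.ι F b * FreeAlgebra.ι F a)
        * FreeAlgebra.ι F c)
      (FreeAlgebra.ι F c *
        (FreeAlgebra.ι F a * FreeAlgebra.ι F b + FreeAlgebra.ι F b * FreeAlgebra.ι F a))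

/-- the operator algebra -/
def Op : Type u := RingQuot (Rel F)

noncomputable instance : Ring (Op F) := inferInstanceAs (Ring (RingQuot (Rel F)))
noncomputable instance : Algebra F (Op F) := inferInstanceAs (Algebra F (RingQuot (Rel F)))

/-- the projection -/
noncomputable def mk : FreeAlgebra F ℕ →ₐ[F] Op F := RingQuot.mkAlgHom F (Rel F)

theorem mk_surj : Function.Surjective (mk F) := RingQuot.mkAlgHom_surjective F (Rel F)

/-- the generators -/
noncomputable def x (i : ℕ) : Op F := mk F (FreeAlgebra.ι F i)

/-- the central elements -/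
noncomputable def z (i j : ℕ) : Op F := x F i * x F j + x F j * x F i

end

variable {F : Type u} [Field F]

theorem z_symm (a b : ℕ) : z F a b = z F b a := by
  unfold z; rw [add_comm]

theorem z_x (a b c : ℕ) : z F a b * x F c = x F c * z F a b := by
  have h : mk F _ = mk F _ := RingQuot.mkAlgHom_rel F (Rel.comm (F := F) a b c)
  simp only [map_mul, map_add] at h
  exact h

/-- words -/
noncomputable def wd (F : Type u) [Field F] (l : List ℕ) : Op F := (l.map (x F)).prod

@[simp] theorem wd_nil : wd F [] = 1 := by simp [wd]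
@[simp] theorem wd_cons (a : ℕ) (l : List ℕ) : wd F (a :: l) = x F a * wd F l := by simp [wd]
theorem wd_append (l m : List ℕ) : wd F (l ++ m) = wd F l * wd F m := by simp [wd]

theorem span_wd : Submodule.span F (Set.range (wd F)) = ⊤ := by
  rw [eq_top_iff]
  intro u _
  obtain ⟨p, rfl⟩ := mk_surj F u
  induction p using FreeAlgebra.induction with
  | grade0 r =>
    rw [AlgHom.commutes, Algebra.algebraMap_eq_smul_one]
    exact Submodule.smul_mem _ _ (Submodule.subset_span ⟨[], by simp⟩)
  | grade1 i => exact Submodule.subset_span ⟨[i], by simp [x]⟩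
  | add p q hp hq => rw [map_add]; exact Submodule.add_mem _ (hp trivial) (hq trivial)
  | mul p q hp hq =>
    rw [map_mul]
    have h := Submodule.mul_mem_mul (hp trivial) (hq trivial)
    rw [Submodule.span_mul_span] at h
    refine Submodule.span_mono ?_ h
    rintro _ ⟨_, ⟨l, rfl⟩, _, ⟨m, rfl⟩, rfl⟩
    exact ⟨l ++ m, by simp [wd_append]⟩

/-- induction on elements by words -/
theorem word_induction {P : Op F → Prop} (hw : ∀ l, P (wd F l))
    (ha : ∀ u v, P u → P v → P (u + v)) (hs : ∀ (c : F) u, P u → P (c • u)) : ∀ u, P u := by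
  intro u
  have hu : u ∈ Submodule.span F (Set.range (wd F)) := by rw [span_wd]; trivial
  induction hu using Submodule.span_induction with
  | mem y hy => obtain ⟨l, rfl⟩ := hy; exact hw l
  | zero => have := hs 0 _ (hw []); simpa using this
  | add a b _ _ h1 h2 => exact ha _ _ h1 h2
  | smul c a _ h => exact hs c a h

/-- left induction -/
theorem left_induction {P : Op F → Prop} (h1 : P 1) (hx : ∀ i u, P u → P (x F i * u))
    (ha : ∀ u v, P u → P v → P (u + v)) (hs : ∀ (c : F) u, P u → P (c • u)) : ∀ u, P u := by
  apply word_induction _ ha hs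
  intro l
  induction l with
  | nil => simpa using h1
  | cons a l ih => rw [wd_cons]; exact hx a _ ih

theorem z_central (a b : ℕ) (u : Op F) : z F a b * u = u * z F a b := by
  revert u
  apply left_induction
  · simp
  · intro i u h
    rw [← mul_assoc, z_x, mul_assoc, h, mul_assoc]
  · intro u v h1 h2; rw [mul_add, add_mul, h1, h2]
  · intro c u h; rw [mul_smul_comm, smul_mul_assoc, h]

theorem alg_lift_ok {B : Type u} [Ring B] [Algebra F B] (f : ℕ → B)
    (hf : ∀ a b c, (f a * f b + f b * f a) * f c = f c * (f a * f b + f b * f a))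
    ⦃p q : FreeAlgebra F ℕ⦄ (h : Rel F p q) :
    FreeAlgebra.lift F f p = FreeAlgebra.lift F f q := by
  cases h with
  | comm a b c => simpa using hf a b c

/-- universal property -/
noncomputable def opLift {B : Type u} [Ring B] [Algebra F B] (f : ℕ → B)
    (hf : ∀ a b c, (f a * f b + f b * f a) * f c = f c * (f a * f b + f b * f a)) :
    Op F →ₐ[F] B :=
  RingQuot.liftAlgHom F ⟨FreeAlgebra.lift F f, alg_lift_ok f hf⟩

@[simp] theorem opLift_x {B : Type u} [Ring B] [Algebra F B] (f : ℕ → B)
    (hf : ∀ a b c, (f a * f b + f b * f a) * f c = f c * (f a * f b + f b * f a)) (i : ℕ) :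
    opLift f hf (x F i) = f i := by
  have h := RingQuot.liftAlgHom_mkAlgHom_apply F (FreeAlgebra.lift F f) (alg_lift_ok f hf)
    (FreeAlgebra.ι F i)
  simp only [FreeAlgebra.lift_ι_apply] at h
  exact h

theorem sub_ok (σ : ℕ → ℕ) (a b c : ℕ) :
    ((fun i => x F (σ i)) a * (fun i => x F (σ i)) b
      + (fun i => x F (σ i)) b * (fun i => x F (σ i)) a) * (fun i => x F (σ i)) c
    = (fun i => x F (σ i)) c * ((fun i => x F (σ i)) a * (fun i => x F (σ i)) b
      + (fun i => x F (σ i)) b * (fun i => x F (σ i)) a) := z_x (σ a) (σ b) (σ c)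

/-- substitution of letters -/
noncomputable def sub (F : Type u) [Field F] (σ : ℕ → ℕ) : Op F →ₐ[F] Op F :=
  opLift (fun i => x F (σ i)) (sub_ok σ)

@[simp] theorem sub_x (σ : ℕ → ℕ) (i : ℕ) : sub F σ (x F i) = x F (σ i) := by
  unfold sub
  rw [opLift_x]

/-- Kronecker delta -/
noncomputable def dl (F : Type u) [Field F] (a b : ℕ) : F := if a = b then 1 else 0

/-- triangular matrices -/
noncomputable def tri (p q : Op F) : Matrix (Fin 2) (Fin 2) (Op F) := !![p, q; 0, p]

theorem tri_mul (p q p' q' : Op F) : tri p q * tri p' q' = tri (p * p') (p * q' + q * p') := by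
  unfold tri
  rw [Matrix.mul_fin_two]
  simp

theorem tri_add (p q p' q' : Op F) : tri p q + tri p' q' = tri (p + p') (q + q') := by
  unfold tri
  ext i j
  fin_cases i <;> fin_cases j <;> simp

theorem mat_rel (a b : ℕ) (c d e : ℕ) :
    (tri (x F c) (dl F b c • x F a) * tri (x F d) (dl F b d • x F a)
      + tri (x F d) (dl F b d • x F a) * tri (x F c) (dl F b c • x F a))
        * tri (x F e) (dl F b e • x F a)
      = tri (x F e) (dl F b e • x F a) * (tri (x F c) (dl F b c • x F a)
        * tri (x F d) (dl F b d • x F a)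
      + tri (x F d) (dl F b d • x F a) * tri (x F c) (dl F b c • x F a)) := by
  have h1 : x F c * x F d + x F d * x F c = z F c d := rfl
  have h2 : x F c * dl F b d • x F a + dl F b c • x F a * x F d
      + (x F d * dl F b c • x F a + dl F b d • x F a * x F c)
      = dl F b d • z F c a + dl F b c • z F d a := by
    simp only [mul_smul_comm, smul_mul_assoc, z, smul_add]; abel
  simp only [tri_mul, tri_add, h1, h2]
  congr 1
  · exact z_central _ _ _
  · simp only [add_mul, mul_add, mul_smul_comm, smul_mul_assoc]
    rw [z_central c d, z_central c a (x F e), z_central d a (x F e)]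
    abel

/-- the algebra map to matrices -/
noncomputable def th (F : Type u) [Field F] (a b : ℕ) : Op F →ₐ[F] Matrix (Fin 2) (Fin 2) (Op F) :=
  opLift (fun c => tri (x F c) (dl F b c • x F a)) (mat_rel a b)

theorem th_x (a b c : ℕ) : th F a b (x F c) = tri (x F c) (dl F b c • x F a) := by
  unfold th
  rw [opLift_x]

theorem th_tri (a b : ℕ) (u : Op F) : ∃ v, th F a b u = tri u v := by
  revert u
  apply left_induction
  · refine ⟨0, ?_⟩
    rw [map_one]
    unfold tri
    ext i j
    fin_cases i <;> fin_cases j <;> simp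
  · rintro i u ⟨v, h⟩
    exact ⟨_, by rw [map_mul, th_x, h, tri_mul]⟩
  · rintro u v ⟨u', h⟩ ⟨v', h'⟩
    exact ⟨_, by rw [map_add, h, h', tri_add]⟩
  · rintro c u ⟨u', h⟩
    refine ⟨c • u', ?_⟩
    rw [map_smul, h]
    unfold tri
    ext i j
    fin_cases i <;> fin_cases j <;> simp

/-- the derivation `x b ↦ x a`, other generators to `0` -/
noncomputable def E (F : Type u) [Field F] (a b : ℕ) : Op F →ₗ[F] Op F where
  toFun u := th F a b u 0 1
  map_add' u v := by simp
  map_smul' c u := by simp

theorem th_eq (a b : ℕ) (u : Op F) : th F a b u = tri u (E F a b u) := by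
  obtain ⟨v, h⟩ := th_tri a b u
  have : E F a b u = v := by
    show th F a b u 0 1 = v
    rw [h]; simp [tri]
  rw [this, h]

theorem E_x (a b c : ℕ) : E F a b (x F c) = dl F b c • x F a := by
  show th F a b (x F c) 0 1 = _
  rw [th_x]; simp [tri]

theorem E_mul (a b : ℕ) (u v : Op F) : E F a b (u * v) = u * E F a b v + E F a b u * v := by
  show th F a b (u * v) 0 1 = _
  rw [map_mul, th_eq, th_eq, tri_mul]; simp [tri]

@[simp] theorem E_one (a b : ℕ) : E F a b 1 = 0 := by
  show th F a b 1 0 1 = _
  rw [map_one]; simp

theorem E_x_self (a b : ℕ) : E F a b (x F b) = x F a := by simp [E_x, dl]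
theorem E_x_ne {a b c : ℕ} (h : b ≠ c) : E F a b (x F c) = 0 := by simp [E_x, h, dl]

theorem E_comm (a b c d : ℕ) (u : Op F) :
    E F a b (E F c d u) - E F c d (E F a b u)
      = dl F b c • E F a d u - dl F d a • E F c b u := by
  revert u
  apply left_induction
  · simp
  · intro i u h
    have h2 : E F a b (E F c d u) = E F c d (E F a b u) +
      (dl F b c • E F a d u - dl F d a • E F c b u) := by
      rw [← h]; abel
    simp only [E_mul, map_add, h2, E_x, map_smul, mul_add, mul_sub, mul_smul_comm,
      smul_mul_assoc]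
    module
  · intro u v h1 h2
    simp only [map_add]
    calc _ = (E F a b (E F c d u) - E F c d (E F a b u))
              + (E F a b (E F c d v) - E F c d (E F a b v)) := by abel
      _ = _ := by rw [h1, h2]; module
  · intro k u h
    simp only [map_smul]
    calc _ = k • (E F a b (E F c d u) - E F c d (E F a b u)) := by module
      _ = _ := by rw [h]; module

theorem E_comm' (a b c d : ℕ) (u : Op F) :
    E F a b (E F c d u) = E F c d (E F a b u)
      + (dl F b c • E F a d u - dl F d a • E F c b u) := by
  rw [← E_comm]; abel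

theorem E_z (a b c d : ℕ) : E F a b (z F c d) = dl F b c • z F a d + dl F b d • z F c a := by
  simp only [z, map_add, E_mul, E_x, mul_smul_comm, smul_mul_assoc]
  module

/-- weight spaces -/
noncomputable def W (F : Type u) [Field F] (κ : ℕ → ℤ) : Submodule F (Op F) :=
  Submodule.span F {u | ∃ l : List ℕ, (∀ i, (l.count i : ℤ) = κ i) ∧ wd F l = u}

theorem wd_mem (l : List ℕ) : wd F l ∈ W F (fun i => (l.count i : ℤ)) :=
  Submodule.subset_span ⟨l, fun _ => rfl, rfl⟩

theorem W_mul {κ κ' : ℕ → ℤ} {u v : Op F} (hu : u ∈ W F κ) (hv : v ∈ W F κ') :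
    u * v ∈ W F (κ + κ') := by
  have h := Submodule.mul_mem_mul hu hv
  unfold W at h
  rw [Submodule.span_mul_span] at h
  refine Submodule.span_mono ?_ h
  rintro _ ⟨_, ⟨l, hl, rfl⟩, _, ⟨m, hm, rfl⟩, rfl⟩
  refine ⟨l ++ m, fun i => ?_, by simp [wd_append]⟩
  simp [List.count_append, hl, hm]

theorem x_mem (a : ℕ) : x F a ∈ W F (Pi.single a 1) := by
  have h := wd_mem (F := F) [a]
  have e : (fun i => (([a] : List ℕ).count i : ℤ)) = Pi.single a 1 := by
    funext i
    by_cases hi : i = a
    · subst hi; simp
    · rw [List.count_cons_of_ne (Ne.symm hi)]; simp [hi]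
  rw [e] at h; simpa using h

theorem one_mem : (1 : Op F) ∈ W F 0 := by
  have h := wd_mem (F := F) []
  have e : (fun i => (([] : List ℕ).count i : ℤ)) = 0 := by funext i; simp
  rw [e] at h; simpa using h

theorem W_neg {κ : ℕ → ℤ} {i : ℕ} (h : κ i < 0) {u : Op F} (hu : u ∈ W F κ) : u = 0 := by
  unfold W at hu
  have : {u | ∃ l : List ℕ, (∀ i, (l.count i : ℤ) = κ i) ∧ wd F l = u} = ∅ := by
    ext v
    simp only [Set.mem_ofPred_eq, Set.mem_empty_iff_false, iff_false]
    rintro ⟨l, hl, _⟩
    have := hl i
    have h2 : (0 : ℤ) ≤ (l.count i : ℤ) := by positivity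
    omega
  rw [this] at hu
  simpa using hu

theorem E_W (a b : ℕ) {κ : ℕ → ℤ} {u : Op F} (hu : u ∈ W F κ) :
    E F a b u ∈ W F (κ + Pi.single a 1 - Pi.single b 1) := by
  have key : ∀ l : List ℕ, E F a b (wd F l) ∈
      W F ((fun i => (l.count i : ℤ)) + Pi.single a 1 - Pi.single b 1) := by
    intro l
    induction l with
    | nil => simp
    | cons c l ih =>
      rw [wd_cons, E_mul, E_x]
      apply Submodule.add_mem
      · have h := W_mul (x_mem (F := F) c) ih
        convert h using 2
        funext i
        by_cases hi : i = c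
        · subst hi
          simp only [Pi.add_apply, Pi.sub_apply, List.count_cons_self, Pi.single_eq_same]
          push_cast; ring
        · simp only [Pi.add_apply, Pi.sub_apply, Pi.single_eq_of_ne hi,
            List.count_cons_of_ne (Ne.symm hi)]
          ring
      · by_cases hbc : b = c
        · subst hbc
          have h := W_mul (x_mem (F := F) a) (wd_mem (F := F) l)
          simp only [dl, if_true, one_smul]
          convert h using 2
          funext i
          by_cases hi : i = b
          · subst hi
            simp only [Pi.add_apply, Pi.sub_apply, List.count_cons_self, Pi.single_eq_same]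
            push_cast; ring
          · simp only [Pi.add_apply, Pi.sub_apply, Pi.single_eq_of_ne hi,
              List.count_cons_of_ne (Ne.symm hi)]
            ring
        · simp [dl, hbc]
  unfold W at hu
  induction hu using Submodule.span_induction with
  | mem y hy =>
    obtain ⟨l, hl, rfl⟩ := hy
    have := key l
    have e : (fun i => (l.count i : ℤ)) = κ := funext hl
    rwa [e] at this
  | zero => simp
  | add p q _ _ h1 h2 => rw [map_add]; exact Submodule.add_mem _ h1 h2
  | smul c p _ h => rw [map_smul]; exact Submodule.smul_mem _ _ h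

theorem E_diag (a : ℕ) {κ : ℕ → ℤ} {u : Op F} (hu : u ∈ W F κ) :
    E F a a u = ((κ a : ℤ) : F) • u := by
  have key : ∀ l : List ℕ, E F a a (wd F l) = (((l.count a : ℕ) : ℤ) : F) • wd F l := by
    intro l
    induction l with
    | nil => simp
    | cons c l ih =>
      rw [wd_cons, E_mul, E_x, ih]
      by_cases hbc : a = c
      · subst hbc
        simp only [dl, if_true, one_smul, List.count_cons_self]
        push_cast
        rw [mul_smul_comm, add_smul, one_smul]
      · rw [List.count_cons_of_ne (Ne.symm hbc)]
        simp [dl, hbc]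
  unfold W at hu
  induction hu using Submodule.span_induction with
  | mem y hy => obtain ⟨l, hl, rfl⟩ := hy; rw [key, hl]
  | zero => simp
  | add p q _ _ h1 h2 => rw [map_add, h1, h2, smul_add]
  | smul c p _ h => rw [map_smul, h, smul_comm]

end Pool.Agent.H163R3
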