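import Pool.Agent.H163R3.Alg

set_option autoImplicit false

namespace Pool.Agent.H163R3

universe u

variable {F : Type u} [Field F]

/-- stable under all the derivations -/
def Stab (K : Submodule F (Op F)) : Prop := ∀ a b u, u ∈ K → E F a b u ∈ K

theorem stab_bot : Stab (⊥ : Submodule F (Op F)) := by
  intro a b u hu
  rw [Submodule.mem_bot] at hu ⊢
  rw [hu, map_zero]

theorem E_pow_W (a b : ℕ) {κ : ℕ → ℤ} {v : Op F} (hv : v ∈ W F κ) (k : ℕ) :
    ((E F b a) ^ k) v ∈ W F (κ + (k : ℤ) • (Pi.single b 1 - Pi.single a 1)) := by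
  induction k with
  | zero => simpa using hv
  | succ k ih =>
    rw [pow_succ', Module.End.mul_apply]
    have h := E_W b a ih
    convert h using 2
    push_cast
    rw [add_smul, one_smul]
    abel

theorem sl2_step {K : Submodule F (Op F)} (hK : Stab K) {a b : ℕ} (hab : a ≠ b)
    {κ : ℕ → ℤ} {v : Op F} (hv : v ∈ W F κ) (he : E F a b v ∈ K) (k : ℕ) :
    E F a b (((E F b a) ^ (k + 1)) v)
      - ((((k : ℤ) + 1) * (κ a - κ b - k) : ℤ) : F) • ((E F b a) ^ k) v ∈ K := by
  have hcom : ∀ w : Op F, E F a b (E F b a w) = E F b a (E F a b w)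
      + (E F a a w - E F b b w) := by
    intro w
    rw [E_comm']
    simp [dl]
  have hval : ∀ k : ℕ, E F a a (((E F b a) ^ k) v) - E F b b (((E F b a) ^ k) v)
      = ((κ a - κ b - 2 * k : ℤ) : F) • ((E F b a) ^ k) v := by
    intro k
    have h := E_pow_W a b hv k
    rw [E_diag a h, E_diag b h, ← sub_smul, ← Int.cast_sub]
    congr 2
    simp only [Pi.add_apply, Pi.smul_apply, Pi.sub_apply, Pi.single_eq_same,
      Pi.single_eq_of_ne hab, Pi.single_eq_of_ne (Ne.symm hab)]
    simp only [smul_eq_mul]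
    ring
  induction k with
  | zero =>
    have h0 := hval 0
    simp only [zero_add, pow_one, pow_zero, Module.End.one_apply] at h0 ⊢
    rw [hcom, h0]
    have : E F b a (E F a b v) + (((κ a - κ b - 2 * ((0 : ℕ) : ℤ) : ℤ) : F)) • v
        - (((((0 : ℕ) : ℤ) + 1) * (κ a - κ b - ((0 : ℕ) : ℤ)) : ℤ) : F) • v
        = E F b a (E F a b v) := by
      have e : ((((0 : ℕ) : ℤ) + 1) * (κ a - κ b - ((0 : ℕ) : ℤ)) : ℤ)
        = (κ a - κ b - 2 * ((0 : ℕ) : ℤ) : ℤ) := by push_cast; ring
      rw [e]; abel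
    rw [this]
    exact hK _ _ _ he
  | succ k ih =>
    rw [pow_succ' (E F b a) (k + 1), Module.End.mul_apply, hcom, hval]
    have h1 := hK b a _ ih
    rw [map_sub, map_smul, ← Module.End.mul_apply (E F b a) ((E F b a) ^ k), ← pow_succ'] at h1
    have e : ((((k + 1 : ℕ) : ℤ) + 1) * (κ a - κ b - ((k + 1 : ℕ) : ℤ)) : ℤ)
        = (((k : ℤ) + 1) * (κ a - κ b - k)) + (κ a - κ b - 2 * ((k + 1 : ℕ) : ℤ)) := by
      push_cast; ring
    rw [e, Int.cast_add, add_smul]
    convert h1 using 1
    abel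

theorem sl2 [CharZero F] {K : Submodule F (Op F)} (hK : Stab K) {a b : ℕ} (hab : a ≠ b)
    {κ : ℕ → ℤ} {v : Op F} (hv : v ∈ W F κ) (he : E F a b v ∈ K) (hk : κ a < κ b) :
    v ∈ K := by
  have hdown : ∀ k : ℕ, ((E F b a) ^ (k + 1)) v ∈ K → ((E F b a) ^ k) v ∈ K := by
    intro k hk1
    have h1 := sl2_step hK hab hv he k
    have h2 := hK a b _ hk1
    have h3 := Submodule.sub_mem _ h2 h1
    rw [sub_sub_cancel] at h3
    have hne : ((((k : ℤ) + 1) * (κ a - κ b - k) : ℤ) : F) ≠ 0 := by
      rw [Int.cast_ne_zero]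
      apply mul_ne_zero
      · positivity
      · have : (0 : ℤ) ≤ k := by positivity
        omega
    have h4 := Submodule.smul_mem K ((((((k : ℤ) + 1) * (κ a - κ b - k) : ℤ) : F))⁻¹) h3
    rwa [smul_smul, inv_mul_cancel₀ hne, one_smul] at h4
  have htop : ((E F b a) ^ ((κ a).toNat + 1)) v ∈ K := by
    have h := E_pow_W a b hv ((κ a).toNat + 1)
    have : ((E F b a) ^ ((κ a).toNat + 1)) v = 0 := by
      apply W_neg (i := a) _ h
      simp only [Pi.add_apply, Pi.smul_apply, Pi.sub_apply, Pi.single_eq_same,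
        Pi.single_eq_of_ne hab, smul_eq_mul]
      push_cast
      omega
    rw [this]; exact K.zero_mem
  have hall : ∀ k : ℕ, ((E F b a) ^ k) v ∈ K → v ∈ K := by
    intro k
    induction k with
    | zero => intro h; simpa using h
    | succ k ih => intro h; exact ih (hdown k h)
  exact hall _ htop

/-- the quadratic Casimir operator on the letters in `T` -/
noncomputable def Cas (F : Type u) [Field F] (T : Finset ℕ) : Op F →ₗ[F] Op F :=
  ∑ a ∈ T, ∑ b ∈ T, (E F a b) ∘ₗ (E F b a)

theorem Cas_apply (T : Finset ℕ) (u : Op F) :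
    Cas F T u = ∑ a ∈ T, ∑ b ∈ T, E F a b (E F b a u) := by
  simp [Cas, LinearMap.sum_apply]

theorem Cas_comm (T : Finset ℕ) {c d : ℕ} (hc : c ∈ T) (hd : d ∈ T) (u : Op F) :
    Cas F T (E F c d u) = E F c d (Cas F T u) := by
  rw [Cas_apply, Cas_apply, map_sum]
  simp only [map_sum]
  have h : ∀ a b, E F a b (E F b a (E F c d u)) = E F c d (E F a b (E F b a u))
      + (dl F b c • E F a d (E F b a u) - dl F d b • E F a b (E F c a u))
      + (dl F a c • E F a b (E F b d u) - dl F d a • E F c b (E F b a u)) := by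
    intro a b
    rw [E_comm' b a c d u, map_add, map_sub, map_smul, map_smul, E_comm' a b c d]
    module
  simp only [h, Finset.sum_add_distrib, Finset.sum_sub_distrib]
  have h1 : ∑ a ∈ T, ∑ b ∈ T, dl F b c • E F a d (E F b a u)
      = ∑ a ∈ T, E F a d (E F c a u) := by
    refine Finset.sum_congr rfl fun a _ => ?_
    rw [Finset.sum_eq_single c]
    · simp [dl]
    · intro b _ hb; simp [dl, hb]
    · intro h; exact absurd hc h
  have h2 : ∑ a ∈ T, ∑ b ∈ T, dl F d b • E F a b (E F c a u)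
      = ∑ a ∈ T, E F a d (E F c a u) := by
    refine Finset.sum_congr rfl fun a _ => ?_
    rw [Finset.sum_eq_single d]
    · simp [dl]
    · intro b _ hb; simp [dl, Ne.symm hb]
    · intro h; exact absurd hd h
  have h3 : ∑ a ∈ T, ∑ b ∈ T, dl F a c • E F a b (E F b d u)
      = ∑ b ∈ T, E F c b (E F b d u) := by
    rw [Finset.sum_comm]
    refine Finset.sum_congr rfl fun b _ => ?_
    rw [Finset.sum_eq_single c]
    · simp [dl]
    · intro b _ hb; simp [dl, hb]
    · intro h; exact absurd hc h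
  have h4 : ∑ a ∈ T, ∑ b ∈ T, dl F d a • E F c b (E F b a u)
      = ∑ b ∈ T, E F c b (E F b d u) := by
    rw [Finset.sum_comm]
    refine Finset.sum_congr rfl fun b _ => ?_
    rw [Finset.sum_eq_single d]
    · simp [dl]
    · intro b _ hb; simp [dl, Ne.symm hb]
    · intro h; exact absurd hd h
  rw [h1, h2, h3, h4]
  abel

/-- linear coefficients -/
def wt (T : Finset ℕ) (a : ℕ) : ℤ :=
  ∑ b ∈ T, ((if a < b then (1 : ℤ) else 0) - (if b < a then (1 : ℤ) else 0))

/-- the eigenvalue -/
def cc (T : Finset ℕ) (κ : ℕ → ℤ) : ℤ := ∑ a ∈ T, (κ a ^ 2 + κ a * wt T a)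

theorem cc_alt (T : Finset ℕ) (κ : ℕ → ℤ) :
    cc T κ = ∑ a ∈ T, ∑ b ∈ T, ((if a = b then κ a ^ 2 else 0)
      + (if a < b then κ a - κ b else 0)) := by
  have h1 : ∑ a ∈ T, ∑ b ∈ T, (if a = b then κ a ^ 2 else 0) = ∑ a ∈ T, κ a ^ 2 := by
    refine Finset.sum_congr rfl fun a ha => ?_
    rw [Finset.sum_ite_eq, if_pos ha]
  have h2 : ∑ a ∈ T, ∑ b ∈ T, (if a < b then κ a - κ b else 0)
      = ∑ a ∈ T, κ a * wt T a := by
    have e : ∀ a b, (if a < b then κ a - κ b else 0) = (if a < b then κ a else 0)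
        - (if a < b then κ b else 0) := by
      intro a b; split_ifs <;> simp
    simp only [e, Finset.sum_sub_distrib]
    rw [Finset.sum_comm (f := fun a b => if a < b then κ b else 0), ← Finset.sum_sub_distrib]
    refine Finset.sum_congr rfl fun a _ => ?_
    rw [wt, Finset.mul_sum, ← Finset.sum_sub_distrib]
    refine Finset.sum_congr rfl fun b _ => ?_
    split_ifs <;> ring
  simp only [cc, Finset.sum_add_distrib, h1, h2]

theorem Cas_val (T : Finset ℕ) {κ : ℕ → ℤ} {v : Op F} (hv : v ∈ W F κ) :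
    Cas F T v = ((cc T κ : ℤ) : F) • v
      + (2 : F) • ∑ a ∈ T, ∑ b ∈ T, (if a < b then E F b a (E F a b v) else 0) := by
  have hg : ∀ a b, E F a b (E F b a v) =
      (((if a = b then κ a ^ 2 else 0) + (if a < b then κ a - κ b else 0) : ℤ) : F) • v
      + ((if a < b then E F b a (E F a b v) else 0)
        + (if b < a then E F a b (E F b a v) else 0)) := by
    intro a b
    rcases lt_trichotomy a b with h | h | h
    · rw [E_comm' a b b a, E_diag a hv, E_diag b hv]
      simp only [dl, if_true, one_smul, if_neg h.ne, if_pos h, if_neg h.not_gt, zero_add]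
      push_cast
      module
    · subst h
      rw [E_diag a hv, map_smul, E_diag a hv]
      simp only [lt_irrefl, if_true, if_false, add_zero]
      push_cast
      module
    · simp only [if_neg h.ne', if_neg h.not_gt, if_pos h, zero_add]
      push_cast
      simp
  rw [Cas_apply, Finset.sum_congr rfl fun a _ => Finset.sum_congr rfl fun b _ => hg a b]
  simp only [Finset.sum_add_distrib]
  rw [Finset.sum_comm (f := fun a b => if b < a then E F a b (E F b a v) else 0)]
  have e : ∑ a ∈ T, ∑ b ∈ T,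
      (((if a = b then κ a ^ 2 else 0) + (if a < b then κ a - κ b else 0) : ℤ) : F) • v
      = ((cc T κ : ℤ) : F) • v := by
    rw [cc_alt]
    simp only [Int.cast_sum, Finset.sum_smul]
  rw [e]
  module

/-- nonnegative combinations of raising moves -/
inductive Rch (T : Finset ℕ) : (ℕ → ℤ) → Prop
  | zero : Rch T 0
  | step {D : ℕ → ℤ} {a b : ℕ} : Rch T D → a ∈ T → b ∈ T → a < b →
      Rch T (Pi.single a 1 - Pi.single b 1 + D)

/-- antitone on `T` -/
def Anti (T : Finset ℕ) (κ : ℕ → ℤ) : Prop := ∀ a ∈ T, ∀ b ∈ T, a < b → κ b ≤ κ a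

theorem wt_lt (T : Finset ℕ) {a b : ℕ} (ha : a ∈ T) (hab : a < b) :
    wt T b < wt T a := by
  apply Finset.sum_lt_sum
  · intro i _
    split_ifs <;> omega
  · refine ⟨a, ha, ?_⟩
    simp [hab, hab.not_gt]

theorem rch_nonneg (T : Finset ℕ) {g : ℕ → ℤ}
    (hg : ∀ a ∈ T, ∀ b ∈ T, a < b → g b < g a) {D : ℕ → ℤ} (hD : Rch T D) :
    0 ≤ ∑ a ∈ T, D a * g a := by
  induction hD with
  | zero => simp
  | @step D a b _ ha hb hab ih =>
    have e : ∑ i ∈ T, (Pi.single a 1 - Pi.single b 1 + D : ℕ → ℤ) i * g i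
        = (g a - g b) + ∑ i ∈ T, D i * g i := by
      simp only [Pi.add_apply, Pi.sub_apply, add_mul, sub_mul, Finset.sum_add_distrib,
        Finset.sum_sub_distrib]
      congr 1
      congr 1
      · rw [Finset.sum_eq_single a]
        · simp
        · intro i _ hi; simp [hi]
        · intro h; exact absurd ha h
      · rw [Finset.sum_eq_single b]
        · simp
        · intro i _ hi; simp [hi]
        · intro h; exact absurd hb h
    rw [e]
    have := hg a ha b hb hab
    omega

theorem cc_lt (T : Finset ℕ) {κ D : ℕ → ℤ} {a b : ℕ} (hD : Rch T D) (ha : a ∈ T)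
    (hb : b ∈ T) (hab : a < b) (h1 : Anti T κ)
    (h2 : Anti T (κ + (Pi.single a 1 - Pi.single b 1 + D))) :
    cc T κ < cc T (κ + (Pi.single a 1 - Pi.single b 1 + D)) := by
  set ν := κ + (Pi.single a 1 - Pi.single b 1 + D) with hν
  set g : ℕ → ℤ := fun i => ν i + κ i + wt T i with hgdef
  have hg : ∀ i ∈ T, ∀ j ∈ T, i < j → g j < g i := by
    intro i hi j hj hij
    have := h1 i hi j hj hij
    have := h2 i hi j hj hij
    have := wt_lt T hi hij
    simp only [hgdef]
    omega
  have e : cc T ν - cc T κ = ∑ i ∈ T, (ν i - κ i) * g i := by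
    simp only [cc, ← Finset.sum_sub_distrib]
    refine Finset.sum_congr rfl fun i _ => ?_
    simp only [hgdef]; ring
  have e2 : ∀ i, ν i - κ i = (Pi.single a 1 - Pi.single b 1 + D : ℕ → ℤ) i := by
    intro i; simp [hν]
  have e3 : ∑ i ∈ T, (ν i - κ i) * g i = (g a - g b) + ∑ i ∈ T, D i * g i := by
    simp only [e2]
    simp only [Pi.add_apply, Pi.sub_apply, add_mul, sub_mul, Finset.sum_add_distrib,
      Finset.sum_sub_distrib]
    congr 1
    congr 1
    · rw [Finset.sum_eq_single a]
      · simp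
      · intro i _ hi; simp [hi]
      · intro h; exact absurd ha h
    · rw [Finset.sum_eq_single b]
      · simp
      · intro i _ hi; simp [hi]
      · intro h; exact absurd hb h
  have h5 := rch_nonneg T hg hD
  have h6 := hg a ha b hb hab
  omega

open Polynomial in
theorem aeval_comm (T : Finset ℕ) (q : F[X]) {c d : ℕ} (hc : c ∈ T) (hd : d ∈ T) (u : Op F) :
    aeval (Cas F T) q (E F c d u) = E F c d (aeval (Cas F T) q u) := by
  induction q using Polynomial.induction_on' with
  | add p q hp hq => simp only [map_add, LinearMap.add_apply, hp, hq]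
  | monomial n k =>
    rw [← C_mul_X_pow_eq_monomial, map_mul, map_pow, aeval_X, aeval_C]
    simp only [Module.End.mul_apply, Module.algebraMap_end_apply, map_smul]
    congr 1
    induction n with
    | zero => simp
    | succ n ih =>
      rw [pow_succ', Module.End.mul_apply, Module.End.mul_apply, ih, Cas_comm T hc hd]

theorem Cas_W (T : Finset ℕ) {κ : ℕ → ℤ} {v : Op F} (hv : v ∈ W F κ) :
    Cas F T v ∈ W F κ := by
  rw [Cas_apply]
  refine Submodule.sum_mem _ fun a _ => Submodule.sum_mem _ fun b _ => ?_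
  have h := E_W a b (E_W b a hv)
  convert h using 2
  abel

open Polynomial in
theorem aeval_mem {T : Finset ℕ} {K : Submodule F (Op F)}
    (hK : ∀ u ∈ K, Cas F T u ∈ K) (q : F[X]) {u : Op F} (hu : u ∈ K) :
    aeval (Cas F T) q u ∈ K := by
  induction q using Polynomial.induction_on' with
  | add p q hp hq =>
    rw [map_add, LinearMap.add_apply]; exact Submodule.add_mem _ hp hq
  | monomial n k =>
    rw [← C_mul_X_pow_eq_monomial, map_mul, map_pow, aeval_X, aeval_C]
    simp only [Module.End.mul_apply, Module.algebraMap_end_apply]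
    apply Submodule.smul_mem
    induction n with
    | zero => simpa using hu
    | succ n ih => rw [pow_succ', Module.End.mul_apply]; exact hK _ ih

theorem Cas_stab {T : Finset ℕ} {K : Submodule F (Op F)} (hK : Stab K) :
    ∀ u ∈ K, Cas F T u ∈ K := by
  intro u hu
  rw [Cas_apply]
  exact Submodule.sum_mem _ fun a _ => Submodule.sum_mem _ fun b _ => hK _ _ _ (hK _ _ _ hu)

open Polynomial in
theorem aeval_eigen (T : Finset ℕ) {K : Submodule F (Op F)} (hK : ∀ u ∈ K, Cas F T u ∈ K)
    (q : F[X]) {u : Op F} {c : F} (h : Cas F T u - c • u ∈ K) :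
    aeval (Cas F T) q u - (q.eval c) • u ∈ K := by
  induction q using Polynomial.induction_on' with
  | add p q hp hq =>
    have := Submodule.add_mem _ hp hq
    convert this using 1
    simp only [map_add, LinearMap.add_apply, eval_add]
    module
  | monomial n k =>
    rw [← C_mul_X_pow_eq_monomial, map_mul, map_pow, aeval_X, aeval_C]
    simp only [Module.End.mul_apply, Module.algebraMap_end_apply, eval_mul, eval_C, eval_pow,
      eval_X]
    have : (Cas F T ^ n) u - c ^ n • u ∈ K := by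
      induction n with
      | zero => simp
      | succ n ih =>
        rw [pow_succ', Module.End.mul_apply]
        have h1 := hK _ ih
        rw [map_sub, map_smul] at h1
        have h2 := Submodule.smul_mem K (c ^ n) h
        have h3 := Submodule.add_mem _ h1 h2
        convert h3 using 1
        rw [pow_succ]
        module
    have h2 := Submodule.smul_mem K k this
    convert h2 using 1
    module

open Polynomial in
theorem exists_poly [CharZero F] (T : Finset ℕ) : ∀ (n : ℕ) (κ : ℕ → ℤ), (∀ i ∉ T, κ i = 0) →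
    (∑ a ∈ T, (a : ℤ) * κ a) < n →
    ∃ q : F[X], (∀ c : F, q.eval c = 0 →
        ∃ D, Rch T D ∧ Anti T (κ + D) ∧ c = ((cc T (κ + D) : ℤ) : F)) ∧
      ∀ v ∈ W F κ, aeval (Cas F T) q v = 0 := by
  intro n
  induction n with
  | zero =>
    intro κ hs hm
    refine ⟨1, ?_, ?_⟩
    · intro c hc; simp at hc
    · intro v hv
      have : ∃ i, κ i < 0 := by
        by_contra hcon
        push Not at hcon
        have : 0 ≤ ∑ a ∈ T, (a : ℤ) * κ a :=
          Finset.sum_nonneg fun a _ => mul_nonneg (by positivity) (hcon a)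
        simp at hm
        omega
      obtain ⟨i, hi⟩ := this
      rw [W_neg hi hv, map_zero]
  | succ n ih =>
    intro κ hs hm
    have hIH : ∀ p : ℕ × ℕ, p.1 ∈ T → p.2 ∈ T → p.1 < p.2 → ∃ q : F[X], (∀ c : F, q.eval c = 0 →
        ∃ D, Rch T D ∧ Anti T ((κ + Pi.single p.1 1 - Pi.single p.2 1) + D) ∧
          c = ((cc T ((κ + Pi.single p.1 1 - Pi.single p.2 1) + D) : ℤ) : F)) ∧
      ∀ v ∈ W F (κ + Pi.single p.1 1 - Pi.single p.2 1), aeval (Cas F T) q v = 0 := by
      rintro ⟨a, b⟩ ha hb hab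
      simp only at ha hb hab ⊢
      apply ih
      · intro i hi
        have h1 : i ≠ a := fun h => hi (h ▸ ha)
        have h2 : i ≠ b := fun h => hi (h ▸ hb)
        simp [h1, h2, hs i hi]
      · have e : ∑ i ∈ T, (i : ℤ) * (κ + Pi.single a 1 - Pi.single b 1 : ℕ → ℤ) i
            = ∑ i ∈ T, (i : ℤ) * κ i + a - b := by
          simp only [Pi.add_apply, Pi.sub_apply, mul_add, mul_sub, Finset.sum_add_distrib,
            Finset.sum_sub_distrib]
          congr 1
          · congr 1
            rw [Finset.sum_eq_single a]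
            · simp
            · intro i _ hi; simp [hi]
            · intro h; exact absurd ha h
          · rw [Finset.sum_eq_single b]
            · simp
            · intro i _ hi; simp [hi]
            · intro h; exact absurd hb h
        rw [e]
        push_cast at hm
        have : (a : ℤ) < b := by exact_mod_cast hab
        omega
    have hIH' : ∀ p : ℕ × ℕ, ∃ q : F[X], p.1 ∈ T → p.2 ∈ T → p.1 < p.2 →
        (∀ c : F, q.eval c = 0 →
        ∃ D, Rch T D ∧ Anti T ((κ + Pi.single p.1 1 - Pi.single p.2 1) + D) ∧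
          c = ((cc T ((κ + Pi.single p.1 1 - Pi.single p.2 1) + D) : ℤ) : F)) ∧
      ∀ v ∈ W F (κ + Pi.single p.1 1 - Pi.single p.2 1), aeval (Cas F T) q v = 0 := by
      intro p
      by_cases h : p.1 ∈ T ∧ p.2 ∈ T ∧ p.1 < p.2
      · obtain ⟨q, hq⟩ := hIH p h.1 h.2.1 h.2.2
        exact ⟨q, fun _ _ _ => hq⟩
      · exact ⟨1, fun h1 h2 h3 => absurd ⟨h1, h2, h3⟩ h⟩
    choose q hq using hIH'
    set S := (T ×ˢ T).filter (fun p => p.1 < p.2) with hS
    set q0 : F[X] := ∏ p ∈ S, q p with hq0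
    have hmemS : ∀ p ∈ S, p.1 ∈ T ∧ p.2 ∈ T ∧ p.1 < p.2 := by
      intro p hp
      rw [hS, Finset.mem_filter, Finset.mem_product] at hp
      exact ⟨hp.1.1, hp.1.2, hp.2⟩
    have hroot : ∀ c : F, q0.eval c = 0 →
        ∃ D, Rch T D ∧ Anti T (κ + D) ∧ c = ((cc T (κ + D) : ℤ) : F) := by
      intro c hc
      rw [hq0, eval_prod, Finset.prod_eq_zero_iff] at hc
      obtain ⟨p, hp, hc⟩ := hc
      obtain ⟨h1, h2, h3⟩ := hmemS p hp
      obtain ⟨D, hD, hA, hcc⟩ := (hq p h1 h2 h3).1 c hc
      have e : (κ + Pi.single p.1 1 - Pi.single p.2 1) + D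
          = κ + (Pi.single p.1 1 - Pi.single p.2 1 + D) := by abel
      rw [e] at hA hcc
      exact ⟨_, Rch.step hD h1 h2 h3, hA, hcc⟩
    have hkill : ∀ v ∈ W F κ, ∀ a ∈ T, ∀ b ∈ T, a < b →
        E F a b (aeval (Cas F T) q0 v) = 0 := by
      intro v hv a ha b hb hab
      rw [← aeval_comm T q0 ha hb]
      have hdvd : q (a, b) ∣ q0 := by
        rw [hq0]
        apply Finset.dvd_prod_of_mem
        rw [hS, Finset.mem_filter, Finset.mem_product]
        exact ⟨⟨ha, hb⟩, hab⟩
      obtain ⟨r, hr⟩ := hdvd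
      rw [hr, mul_comm, map_mul, Module.End.mul_apply,
        (hq (a, b) ha hb hab).2 _ (E_W a b hv), map_zero]
    have hW0 : ∀ v ∈ W F κ, aeval (Cas F T) q0 v ∈ W F κ := fun v hv =>
      aeval_mem (fun u hu => Cas_W T hu) q0 hv
    by_cases hanti : Anti T κ
    · refine ⟨(X - C ((cc T κ : ℤ) : F)) * q0, ?_, ?_⟩
      · intro c hc
        rw [eval_mul, mul_eq_zero] at hc
        rcases hc with hc | hc
        · refine ⟨0, Rch.zero, by simpa using hanti, ?_⟩
          simp only [eval_sub, eval_X, eval_C, sub_eq_zero] at hc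
          simpa using hc
        · exact hroot c hc
      · intro v hv
        rw [map_mul, Module.End.mul_apply, map_sub, aeval_X, aeval_C, LinearMap.sub_apply,
          Module.algebraMap_end_apply, Cas_val T (hW0 v hv)]
        have : ∑ a ∈ T, ∑ b ∈ T,
            (if a < b then E F b a (E F a b (aeval (Cas F T) q0 v)) else 0) = 0 := by
          refine Finset.sum_eq_zero fun a ha => Finset.sum_eq_zero fun b hb => ?_
          split_ifs with h
          · rw [hkill v hv a ha b hb h, map_zero]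
          · rfl
        rw [this]
        simp
    · refine ⟨q0, hroot, ?_⟩
      intro v hv
      unfold Anti at hanti
      push Not at hanti
      obtain ⟨a, ha, b, hb, hab, hlt⟩ := hanti
      have := sl2 (stab_bot (F := F)) hab.ne (hW0 v hv)
        (by rw [hkill v hv a ha b hb hab]; exact Submodule.zero_mem _) hlt
      simpa using this

open Polynomial in
/-- the separating polynomial for an antitone weight -/
theorem exists_sep [CharZero F] (T : Finset ℕ) (κ : ℕ → ℤ) (hs : ∀ i ∉ T, κ i = 0)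
    (hA : Anti T κ) :
    ∃ q : F[X], q.eval ((cc T κ : ℤ) : F) ≠ 0 ∧
      ∀ a ∈ T, ∀ b ∈ T, a < b → ∀ w ∈ W F (κ + Pi.single a 1 - Pi.single b 1),
        aeval (Cas F T) q w = 0 := by
  have hIH : ∀ p : ℕ × ℕ, ∃ q : F[X], p.1 ∈ T → p.2 ∈ T → p.1 < p.2 →
        (∀ c : F, q.eval c = 0 →
        ∃ D, Rch T D ∧ Anti T ((κ + Pi.single p.1 1 - Pi.single p.2 1) + D) ∧
          c = ((cc T ((κ + Pi.single p.1 1 - Pi.single p.2 1) + D) : ℤ) : F)) ∧
      ∀ v ∈ W F (κ + Pi.single p.1 1 - Pi.single p.2 1), aeval (Cas F T) q v = 0 := by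
    intro p
    by_cases h : p.1 ∈ T ∧ p.2 ∈ T ∧ p.1 < p.2
    · obtain ⟨h1, h2, h3⟩ := h
      obtain ⟨q, hq⟩ := exists_poly (F := F) T
        ((∑ a ∈ T, (a : ℤ) * (κ + Pi.single p.1 1 - Pi.single p.2 1 : ℕ → ℤ) a).toNat + 1)
        (κ + Pi.single p.1 1 - Pi.single p.2 1) (by
          intro i hi
          have h4 : i ≠ p.1 := fun h => hi (h ▸ h1)
          have h5 : i ≠ p.2 := fun h => hi (h ▸ h2)
          simp [h4, h5, hs i hi]) (by push_cast; omega)
      exact ⟨q, fun _ _ _ => hq⟩
    · exact ⟨1, fun h1 h2 h3 => absurd ⟨h1, h2, h3⟩ h⟩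
  choose q hq using hIH
  refine ⟨∏ p ∈ (T ×ˢ T).filter (fun p => p.1 < p.2), q p, ?_, ?_⟩
  · intro hc
    rw [eval_prod, Finset.prod_eq_zero_iff] at hc
    obtain ⟨p, hp, hc⟩ := hc
    rw [Finset.mem_filter, Finset.mem_product] at hp
    obtain ⟨⟨h1, h2⟩, h3⟩ := hp
    obtain ⟨D, hD, hA2, hcc⟩ := (hq p h1 h2 h3).1 _ hc
    have e : (κ + Pi.single p.1 1 - Pi.single p.2 1) + D
        = κ + (Pi.single p.1 1 - Pi.single p.2 1 + D) := by abel
    rw [e] at hA2 hcc
    have := cc_lt T hD h1 h2 h3 hA hA2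
    rw [Int.cast_inj] at hcc
    omega
  · intro a ha b hb hab w hw
    have hdvd : q (a, b) ∣ ∏ p ∈ (T ×ˢ T).filter (fun p => p.1 < p.2), q p := by
      apply Finset.dvd_prod_of_mem
      rw [Finset.mem_filter, Finset.mem_product]
      exact ⟨⟨ha, hb⟩, hab⟩
    obtain ⟨r, hr⟩ := hdvd
    rw [hr, mul_comm, map_mul, Module.End.mul_apply, (hq (a, b) ha hb hab).2 _ hw, map_zero]

end Pool.Agent.H163R3
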