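import Pool.Agent.H163R3.Dh

set_option autoImplicit false

namespace Pool.Agent.H163R3

universe u

variable {F : Type u} [Field F]

theorem sub_E {σ : ℕ → ℕ} (hσ : Function.Injective σ) (a b : ℕ) (u : Op F) :
    sub F σ (E F a b u) = E F (σ a) (σ b) (sub F σ u) := by
  revert u
  apply left_induction
  · simp
  · intro i u h
    rw [E_mul, map_add, map_mul, map_mul, map_mul, E_mul, h, sub_x, E_x, map_smul, sub_x, E_x]
    have : dl F b i = dl F (σ b) (σ i) := by
      unfold dl
      by_cases hb : b = i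
      · subst hb; simp
      · rw [if_neg hb, if_neg (fun h => hb (hσ h))]
    rw [this]
  · intro u v h1 h2; simp only [map_add, h1, h2]
  · intro c u h; simp only [map_smul, h]

theorem sub_inj {σ : ℕ → ℕ} (hσ : Function.Injective σ) : Function.Injective (sub F σ) := by
  have key : ∀ u : Op F, sub F (Function.invFun σ) (sub F σ u) = u := by
    apply left_induction
    · simp
    · intro i u h
      rw [map_mul, map_mul, h, sub_x, sub_x, Function.leftInverse_invFun hσ i]
    · intro u v h1 h2; simp only [map_add, h1, h2]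
    · intro c u h; simp only [map_smul, h]
  exact Function.LeftInverse.injective key

theorem sub_wd (σ : ℕ → ℕ) (l : List ℕ) : sub F σ (wd F l) = wd F (l.map σ) := by
  induction l with
  | nil => simp
  | cons a l ih => simp [ih]

/-- spaces closed under everything we need -/
structure Nice (K : Submodule F (Op F)) : Prop where
  st : Stab K
  sb : ∀ σ : ℕ → ℕ, Function.Injective σ → ∀ u ∈ K, sub F σ u ∈ K
  lm : ∀ i, ∀ u ∈ K, x F i * u ∈ K

theorem Nice.lmul {K : Submodule F (Op F)} (hK : Nice K) (u : Op F) : ∀ f ∈ K, u * f ∈ K := by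
  revert u
  apply left_induction
  · intro f hf; simpa using hf
  · intro i u h f hf
    rw [mul_assoc]; exact hK.lm i _ (h f hf)
  · intro u v h1 h2 f hf; rw [add_mul]; exact Submodule.add_mem _ (h1 f hf) (h2 f hf)
  · intro c u h f hf; rw [smul_mul_assoc]; exact Submodule.smul_mem _ _ (h f hf)

theorem even_central [CharZero F] (t q : ℕ) (u : Op F) :
    x F t ^ (2 * q) * u = u * x F t ^ (2 * q) := by
  induction q with
  | zero => simp
  | succ q ih =>
    have h : x F t ^ (2 * (q + 1)) = x F t ^ (2 * q) * (x F t * x F t) := by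
      rw [mul_add, pow_add, mul_one, pow_two]
    have h2 : x F t * x F t * u = u * (x F t * x F t) := by
      rw [mul_assoc]; exact sq_central t u
    rw [h, mul_assoc, h2, ← mul_assoc, ih, mul_assoc]

theorem E_pow_zero {b t s : ℕ} (h : t ≠ s) (n : ℕ) : E F b t (x F s ^ n) = 0 := by
  induction n with
  | zero => simp
  | succ n ih => rw [pow_succ, E_mul, ih, E_x_ne h]; simp

theorem E_Pw_zero {b t : ℕ} {l : List ℕ} (h : t ∉ l) (κ : ℕ → ℤ) :
    E F b t (Pw F l κ) = 0 := by
  induction l with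
  | nil => simp
  | cons c l ih =>
    rw [Pw_cons, E_mul, ih (fun h2 => h (List.mem_cons_of_mem _ h2)),
      E_pow_zero (fun h2 : t = c => h (h2 ▸ List.mem_cons_self))]
    simp

theorem Pw_append (l m : List ℕ) (κ : ℕ → ℤ) : Pw F (l ++ m) κ = Pw F l κ * Pw F m κ := by
  simp [Pw]

/-- weights of ordered products -/
def wP (κ : ℕ → ℤ) : List ℕ → ℕ → ℤ
  | [] => 0
  | k :: l => ((κ k).toNat : ℤ) • Pi.single k 1 + wP κ l

theorem Pw_W (κ : ℕ → ℤ) : ∀ l : List ℕ, Pw F l κ ∈ W F (wP κ l)
  | [] => by simpa [wP] using one_mem (F := F)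
  | k :: l => by
    rw [Pw_cons]
    exact W_mul (xpow_mem k _) (Pw_W κ l)

theorem wP_apply (κ : ℕ → ℤ) : ∀ (l : List ℕ), l.Nodup → ∀ i,
    wP κ l i = if i ∈ l then ((κ i).toNat : ℤ) else 0
  | [], _, i => by simp [wP]
  | k :: l, h, i => by
    rw [List.nodup_cons] at h
    simp only [wP, Pi.add_apply, Pi.smul_apply, smul_eq_mul]
    rw [wP_apply κ l h.2 i]
    by_cases hi : i = k
    · subst hi
      simp [h.1]
    · simp [hi]

theorem reorder [CharZero F] {T : Finset ℕ} {j : ℕ} (hj : j ∈ T) (M : ℕ) (κ : ℕ → ℤ) :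
    ∀ l1 : List ℕ, l1.Nodup → (∀ k ∈ l1, k < j ∧ k ∈ T) →
    ∀ (Y R : Op F) (κY κR κt : ℕ → ℤ), (∀ k ∈ l1, ∀ b, E F b k Y = 0) →
    (∀ k ∈ l1, ∀ b, E F b k R = 0) → Y ∈ W F κY → R ∈ W F κR →
    κt = κY + (M : ℤ) • Pi.single j 1 + wP κ l1 + κR →
    ∃ ε : F, ε ≠ 0 ∧ Y * (x F j ^ M * (Pw F l1 κ * R))
      - ε • (Y * (Pw F l1 κ * (x F j ^ M * R))) ∈ Hs F T κt := by
  intro l1
  induction l1 with
  | nil =>
    intro _ _ Y R κY κR κt _ _ _ _ _
    exact ⟨1, one_ne_zero, by simp⟩
  | cons k l1 ih =>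
    intro hnd hk Y R κY κR κt hY hR hYW hRW hκ
    rw [List.nodup_cons] at hnd
    obtain ⟨hkj, hkT⟩ := hk k List.mem_cons_self
    set α := (κ k).toNat with hα
    have hR' : ∀ b, E F b k (Pw F l1 κ * R) = 0 := by
      intro b
      rw [E_mul, E_Pw_zero hnd.1, hR k List.mem_cons_self]; simp
    have hA : ∃ (err : Op F) (ε0 : F), ε0 ≠ 0 ∧
        x F j ^ M * x F k ^ α = err + ε0 • (x F k ^ α * x F j ^ M) ∧
        Y * (err * (Pw F l1 κ * R)) ∈ Hs F T κt := by
      rcases Nat.even_or_odd' M with ⟨q, hq | hq⟩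
      · exact ⟨0, 1, one_ne_zero, by rw [hq, even_central]; simp, by simp⟩
      · have h1 : x F j ^ M = x F j ^ (2 * q) * x F j := by rw [hq, pow_succ]
        have h2 := xc_pow (F := F) j k α
        refine ⟨x F j ^ (2 * q) * (if α % 2 = 1 then x F k ^ (α - 1) * z F k j else 0),
          (-1) ^ α, pow_ne_zero _ (by simp), ?_, ?_⟩
        · rw [h1, mul_assoc, h2, mul_add, mul_smul_comm]
          congr 2
          rw [← mul_assoc, even_central, mul_assoc, even_central]
        · split_ifs with hodd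
          · obtain ⟨m, hm⟩ : ∃ m, α = 2 * m + 1 := ⟨α / 2, by omega⟩
            obtain ⟨k', hk'⟩ := Epow (F := F) j k (2 * m)
            rw [if_neg (by omega), add_zero] at hk'
            set S := x F j ^ (2 * q) * (Pw F l1 κ * R) with hS
            have hSE : E F j k S = 0 := by
              rw [hS, E_mul, hR', E_pow_zero hkj.ne]; simp
            set w := Y * (x F k ^ (2 * m + 2) * S) with hw
            have hEw : E F j k w = ((k' : F) + 1) • (Y * (x F k ^ (2 * m) * z F k j * S)) := by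
              rw [hw, E_mul, hY k List.mem_cons_self, E_mul, hSE, hk']
              simp
            have hne : ((k' : F) + 1) ≠ 0 := by exact_mod_cast Nat.succ_ne_zero k'
            have e : Y * (x F j ^ (2 * q) * (x F k ^ (α - 1) * z F k j) * (Pw F l1 κ * R))
                = ((k' : F) + 1)⁻¹ • E F j k w := by
              rw [hEw, smul_smul, inv_mul_cancel₀ hne, one_smul, hS]
              have e1 : α - 1 = 2 * m := by omega
              rw [e1, even_central j q (x F k ^ (2 * m) * z F k j), mul_assoc]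
            rw [e]
            apply Submodule.smul_mem
            apply Submodule.subset_span
            refine ⟨k, hkT, j, hj, hkj, w, ?_, rfl⟩
            have hwW := W_mul hYW (W_mul (xpow_mem (F := F) k (2 * m + 2))
              (W_mul (xpow_mem (F := F) j (2 * q)) (W_mul (Pw_W (F := F) κ l1) hRW)))
            convert hwW using 2
            rw [hκ, wP, ← hα, hm, hq]
            push_cast
            module
          · simp
    obtain ⟨err, ε0, hε0, hA1, hA2⟩ := hA
    obtain ⟨ε, hε, hI⟩ := ih hnd.2 (fun i hi => hk i (List.mem_cons_of_mem _ hi))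
      (Y * x F k ^ α) R (κY + (α : ℤ) • Pi.single k 1) κR κt
      (fun i hi b => by
        have hik : i ≠ k := fun h => hnd.1 (h ▸ hi)
        rw [E_mul, hY i (List.mem_cons_of_mem _ hi), E_pow_zero hik]; simp)
      (fun i hi b => hR i (List.mem_cons_of_mem _ hi) b)
      (W_mul hYW (xpow_mem k α)) hRW (by rw [hκ, wP, ← hα]; abel)
    refine ⟨ε0 * ε, mul_ne_zero hε0 hε, ?_⟩
    have e : Y * (x F j ^ M * (Pw F (k :: l1) κ * R))
        - (ε0 * ε) • (Y * (Pw F (k :: l1) κ * (x F j ^ M * R)))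
        = Y * (err * (Pw F l1 κ * R)) + ε0 • (Y * x F k ^ α * (x F j ^ M * (Pw F l1 κ * R))
          - ε • (Y * x F k ^ α * (Pw F l1 κ * (x F j ^ M * R)))) := by
      have e1 : Y * (x F j ^ M * (Pw F (k :: l1) κ * R))
          = Y * ((x F j ^ M * x F k ^ α) * (Pw F l1 κ * R)) := by
        rw [Pw_cons, ← hα]; noncomm_ring
      rw [e1, hA1, add_mul, mul_add, smul_sub, smul_smul, Pw_cons, ← hα, smul_mul_assoc,
        mul_smul_comm]
      have e2 : Y * (x F k ^ α * x F j ^ M * (Pw F l1 κ * R))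
          = Y * x F k ^ α * (x F j ^ M * (Pw F l1 κ * R)) := by noncomm_ring
      have e3 : Y * (x F k ^ α * Pw F l1 κ * (x F j ^ M * R))
          = Y * x F k ^ α * (Pw F l1 κ * (x F j ^ M * R)) := by noncomm_ring
      rw [e2, e3]
      abel
    rw [e]
    exact Submodule.add_mem _ hA2 (Submodule.smul_mem _ _ hI)

theorem Hs_mul {T T' : Finset ℕ} (hT : T ⊆ T') {j : ℕ} (hj : j ∉ T) (M : ℕ) {κ : ℕ → ℤ}
    {h : Op F} (hh : h ∈ Hs F T κ) :
    x F j ^ M * h ∈ Hs F T' ((M : ℤ) • Pi.single j 1 + κ) := by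
  unfold Hs at hh
  induction hh using Submodule.span_induction with
  | zero => simp
  | add p q _ _ h1 h2 => rw [mul_add]; exact Submodule.add_mem _ h1 h2
  | smul k p _ h => rw [mul_smul_comm]; exact Submodule.smul_mem _ _ h
  | mem y hy =>
    obtain ⟨a, ha, b, hb, hab, w, hw, rfl⟩ := hy
    apply Submodule.subset_span
    refine ⟨a, hT ha, b, hT hb, hab, x F j ^ M * w, ?_, ?_⟩
    · have := W_mul (xpow_mem (F := F) j M) hw
      convert this using 2
      abel
    · rw [E_mul, E_pow_zero (fun h : a = j => hj (h ▸ ha))]; simp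

/-- the weight of `fc 0 c` -/
def Lm (c : List ℕ) : ℕ → ℤ := fun i => (((c.drop i).sum : ℕ) : ℤ)

theorem fc_Lm (c : List ℕ) : fc F 0 c ∈ W F (Lm c) := by
  have h := fc_W (F := F) c 0
  have e : lam 0 c = Lm c := by
    funext i
    rw [lam_eq, Nat.sub_zero]; rfl
  rwa [e] at h

theorem Lm_anti (c : List ℕ) {i k : ℕ} (h : i ≤ k) : Lm c k ≤ Lm c i := by
  unfold Lm
  have : c.drop k = (c.drop i).drop (k - i) := by
    rw [List.drop_drop]; congr 1; omega
  rw [this]
  exact_mod_cast (List.drop_sublist _ _).sum_le_sum (fun _ _ => Nat.zero_le _)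

theorem Lm_supp (c : List ℕ) {i : ℕ} (h : c.length ≤ i) : Lm c i = 0 := by
  unfold Lm
  rw [List.drop_eq_nil_of_le h]
  rfl

theorem Lm_nonneg (c : List ℕ) (i : ℕ) : 0 ≤ Lm c i := by unfold Lm; positivity

theorem toFinset_range (N : ℕ) : (List.range N).toFinset = Finset.range N := by
  ext i; simp

theorem fc_unique [CharZero F] {K : Submodule F (Op F)} {c : List ℕ} {f : Op F} (hf : f ∈ K)
    (hW : f ∈ W F (Lm c)) (hw : ∀ a b, a < b → E F a b f = 0) (h0 : f ≠ 0) :
    fc F 0 c ∈ K := by
  obtain ⟨d, hd⟩ := hw_unique (F := F) (rem := List.range c.length) (κ := Lm c) (f := f)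
    (g := fc F 0 c)
    List.pairwise_lt_range (fun i hi => Lm_supp c (by simpa using hi))
    (fun a _ b _ hab => Lm_anti c hab.le) hW (fun a _ b _ hab => hw a b hab) h0
    (fc_Lm c) (fun a _ b _ hab => fc_hw hab c 0)
  rw [hd]
  exact Submodule.smul_mem _ _ hf

theorem alpha [CharZero F] {K : Submodule F (Op F)} (hK : Nice K) (p : List ℕ) (a : ℕ)
    (s : List ℕ) (h : fc F 0 (p ++ a :: s) ∈ K) : fc F 0 (p ++ (a + 1) :: s) ∈ K := by
  apply fc_unique (f := D F (p.length + 1) * fc F 0 (p ++ a :: s)) (hK.lmul _ _ h)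
  · have := W_mul (D_W (F := F) (p.length + 1)) (fc_Lm (F := F) (p ++ a :: s))
    convert this using 2
    funext i
    simp only [Lm, ind, Pi.add_apply, List.drop_append]
    by_cases hi : i < p.length + 1
    · have e : i - p.length = 0 := by omega
      rw [if_pos hi, e]
      simp only [List.drop_zero, List.sum_append, List.sum_cons]
      push_cast; ring
    · obtain ⟨d, hd⟩ : ∃ d, i - p.length = d + 1 := ⟨i - p.length - 1, by omega⟩
      rw [if_neg hi, hd]
      simp
  · intro b c hbc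
    rw [E_mul, E_D hbc, fc_hw hbc]; simp
  · exact ((Mono_D _).mul (fc_Mono _ _)).ne

/-- the shift of letters -/
def shf (j : ℕ) (i : ℕ) : ℕ := if i < j then i else i + 1

theorem shf_lt {j a b : ℕ} : shf j a < shf j b ↔ a < b := by
  unfold shf
  split_ifs <;> omega

theorem shf_inj (j : ℕ) : Function.Injective (shf j) := by
  intro a b h
  unfold shf at h
  split_ifs at h <;> omega

theorem shf_surj {j a : ℕ} (h : a ≠ j) : ∃ a', shf j a' = a := by
  rcases lt_or_gt_of_ne h with h1 | h1
  · exact ⟨a, by simp [shf, h1]⟩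
  · exact ⟨a - 1, by unfold shf; rw [if_neg (by omega)]; omega⟩

theorem shf_ne (j a : ℕ) : shf j a ≠ j := by
  unfold shf
  split_ifs <;> omega

theorem sub_W {j : ℕ} {κ κ2 : ℕ → ℤ} (h1 : κ2 j = 0) (h2 : ∀ i, κ2 (shf j i) = κ i)
    {u : Op F} (hu : u ∈ W F κ) : sub F (shf j) u ∈ W F κ2 := by
  unfold W at hu
  induction hu using Submodule.span_induction with
  | zero => simp
  | add p q _ _ h1 h2 => rw [map_add]; exact Submodule.add_mem _ h1 h2
  | smul k p _ h => rw [map_smul]; exact Submodule.smul_mem _ _ h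
  | mem y hy =>
    obtain ⟨l, hl, rfl⟩ := hy
    apply Submodule.subset_span
    refine ⟨l.map (shf j), ?_, (sub_wd _ _).symm⟩
    intro i
    by_cases hi : i = j
    · subst hi
      rw [h1, List.count_eq_zero_of_not_mem]
      · rfl
      · intro hm
        rw [List.mem_map] at hm
        obtain ⟨a, _, ha⟩ := hm
        exact shf_ne _ _ ha
    · obtain ⟨i', rfl⟩ := shf_surj hi
      rw [List.count_map_of_injective _ _ (shf_inj j), hl, h2]

theorem gamma [CharZero F] {K : Submodule F (Op F)} (hK : Nice K) (p s : List ℕ)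
    (h : fc F 0 (p ++ s) ∈ K) : fc F 0 (p ++ 0 :: s) ∈ K := by
  set j := p.length with hj
  set κ := Lm (p ++ s) with hκ
  set κ' := Lm (p ++ 0 :: s) with hκ'
  have hA : ∀ i, i ≤ j → κ' i = κ i := by
    intro i hi
    have e : i - p.length = 0 := by omega
    simp only [hκ, hκ', Lm, List.drop_append, e, List.drop_zero, List.sum_append, List.sum_cons]
    simp
  have hB : ∀ i, j ≤ i → κ' (i + 1) = κ i := by
    intro i hi
    have e1 : i + 1 - p.length = (i - p.length) + 1 := by omega
    simp only [hκ, hκ', Lm, List.drop_append, e1, List.drop_succ_cons]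
    rw [List.drop_eq_nil_of_le (by omega : p.length ≤ i + 1),
      List.drop_eq_nil_of_le (by omega : p.length ≤ i)]
  set κ2 : ℕ → ℤ := fun i => if i = j then 0 else κ' i with hκ2
  set l1 := List.range j with hl1
  set l2 := List.range' (j + 1) s.length with hl2
  have hjl1 : ∀ i ∈ l1, i < j := fun i hi => by simpa [hl1] using hi
  have hjl2 : ∀ i ∈ l2, j < i := fun i hi => by
    rw [hl2, List.mem_range'_1] at hi; omega
  have hp1 : l1.Pairwise (· < ·) := List.pairwise_lt_range
  have hp2 : l2.Pairwise (· < ·) := List.pairwise_lt_range'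
  have hp12 : (l1 ++ l2).Pairwise (· < ·) := by
    rw [List.pairwise_append]
    exact ⟨hp1, hp2, fun a ha b hb => (hjl1 a ha).trans (hjl2 b hb)⟩
  have hpj : (l1 ++ j :: l2).Pairwise (· < ·) := by
    rw [List.pairwise_append]
    refine ⟨hp1, List.pairwise_cons.mpr ⟨hjl2, hp2⟩, fun a ha b hb => ?_⟩
    rcases List.mem_cons.mp hb with h | h
    · rw [h]; exact hjl1 a ha
    · exact (hjl1 a ha).trans (hjl2 b h)
  have hmem : ∀ i, i ∉ l1 ++ j :: l2 → κ' i = 0 := by
    intro i hi
    apply Lm_supp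
    by_contra hcon
    apply hi
    simp only [List.length_append, List.length_cons] at hcon
    simp only [List.mem_append, List.mem_cons, hl1, hl2, List.mem_range, List.mem_range'_1]
    omega
  set g := sub F (shf j) (fc F 0 (p ++ s)) with hg
  have hgK : g ∈ K := hK.sb _ (shf_inj j) _ h
  have hgW : g ∈ W F κ2 := by
    apply sub_W (κ := κ) _ _ (fc_Lm _)
    · simp [hκ2]
    · intro i
      simp only [hκ2, if_neg (shf_ne j i)]
      unfold shf
      split_ifs with h1
      · exact hA i h1.le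
      · exact hB i (by omega)
  have hghw : IsHw (l1 ++ l2).toFinset g := by
    intro a ha b hb hab
    have ha' : a ≠ j := by
      simp only [List.toFinset_append, Finset.mem_union, List.mem_toFinset] at ha
      rcases ha with h | h
      · exact (hjl1 a h).ne
      · exact (hjl2 a h).ne'
    have hb' : b ≠ j := by
      simp only [List.toFinset_append, Finset.mem_union, List.mem_toFinset] at hb
      rcases hb with h | h
      · exact (hjl1 b h).ne
      · exact (hjl2 b h).ne'
    obtain ⟨a', rfl⟩ := shf_surj ha'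
    obtain ⟨b', rfl⟩ := shf_surj hb'
    rw [hg, ← sub_E (shf_inj j), fc_hw (shf_lt.mp hab), map_zero]
  have hg0 : g ≠ 0 := by
    intro h0
    exact (fc_Mono (F := F) (p ++ s) 0).ne (sub_inj (shf_inj j) (by rw [map_zero]; exact h0))
  have hanti2 : Anti (l1 ++ l2).toFinset κ2 := by
    intro a ha b hb hab
    simp only [List.toFinset_append, Finset.mem_union, List.mem_toFinset] at ha hb
    have ha' : a ≠ j := by
      rcases ha with h | h
      · exact (hjl1 a h).ne
      · exact (hjl2 a h).ne'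
    have hb' : b ≠ j := by
      rcases hb with h | h
      · exact (hjl1 b h).ne
      · exact (hjl2 b h).ne'
    simp only [hκ2, if_neg ha', if_neg hb']
    exact Lm_anti _ hab.le
  have hsupp2 : ∀ i ∉ (l1 ++ l2).toFinset, κ2 i = 0 := by
    intro i hi
    simp only [hκ2]
    split_ifs with h1
    · rfl
    · apply hmem
      intro h2
      apply hi
      simp only [List.toFinset_append, Finset.mem_union, List.mem_toFinset]
      simp only [List.mem_append, List.mem_cons] at h2
      tauto
  obtain ⟨c0, hc0, hlead⟩ := hw_lead hp12 hsupp2 hanti2 hgW hghw hg0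
  set M := (κ' j).toNat with hM
  set T' := (l1 ++ j :: l2).toFinset with hT'
  have hsub : (l1 ++ l2).toFinset ⊆ T' := by
    intro i hi
    simp only [hT', List.toFinset_append, Finset.mem_union, List.mem_toFinset,
      List.mem_cons] at hi ⊢
    tauto
  have hjn : j ∉ (l1 ++ l2).toFinset := by
    simp only [List.toFinset_append, Finset.mem_union, List.mem_toFinset]
    rintro (h | h)
    · exact lt_irrefl _ (hjl1 j h)
    · exact lt_irrefl _ (hjl2 j h)
  have hnn : 0 ≤ κ' j := Lm_nonneg _ _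
  have hw1 : (M : ℤ) • Pi.single j 1 + κ2 = κ' := by
    funext i
    by_cases hi : i = j
    · subst hi
      simp only [Pi.add_apply, Pi.smul_apply, Pi.single_eq_same, smul_eq_mul, mul_one, hκ2,
        if_true, add_zero, hM]
      exact Int.toNat_of_nonneg hnn
    · simp [hκ2, hi]
  have h1 := Hs_mul hsub hjn M hlead
  rw [hw1, mul_sub, mul_smul_comm] at h1
  have hPw : Pw F (l1 ++ l2) κ2 = Pw F l1 κ' * Pw F l2 κ' := by
    rw [← Pw_append]
    apply Pw_congr
    intro i hi
    have : i ≠ j := by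
      rcases List.mem_append.mp hi with h | h
      · exact (hjl1 i h).ne
      · exact (hjl2 i h).ne'
    simp [hκ2, this]
  rw [hPw] at h1
  have hjT : j ∈ T' := by simp [hT']
  have hκt : κ' = 0 + (M : ℤ) • Pi.single j 1 + wP κ' l1 + wP κ' l2 := by
    funext i
    simp only [Pi.add_apply, Pi.smul_apply, smul_eq_mul, Pi.zero_apply, zero_add]
    rw [wP_apply _ _ (List.nodup_range), wP_apply _ _ (List.nodup_range' )]
    have hnni : 0 ≤ κ' i := Lm_nonneg _ _
    by_cases hi : i = j
    · subst hi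
      rw [if_neg (fun h => lt_irrefl _ (hjl1 _ h)), if_neg (fun h => lt_irrefl _ (hjl2 _ h))]
      simp [hM, Int.toNat_of_nonneg hnn]
    · by_cases hi1 : i ∈ l1
      · have hi2 : i ∉ l2 := fun h => lt_asymm (hjl1 i hi1) (hjl2 i h)
        rw [if_pos hi1, if_neg hi2, Int.toNat_of_nonneg hnni]
        simp [hi]
      · by_cases hi2 : i ∈ l2
        · rw [if_neg hi1, if_pos hi2, Int.toNat_of_nonneg hnni]
          simp [hi]
        · rw [if_neg hi1, if_neg hi2]
          have : κ' i = 0 := hmem i (by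
            simp only [List.mem_append, List.mem_cons]
            tauto)
          simp [hi, this]
  obtain ⟨ε, hε, h2⟩ := reorder (F := F) hjT M κ' l1 (List.nodup_range)
    (fun k hk => ⟨hjl1 k hk, by simp [hT', hk]⟩) 1 (Pw F l2 κ') 0 (wP κ' l2) κ'
    (fun k _ b => E_one _ _)
    (fun k hk b => E_Pw_zero (fun h => lt_asymm (hjl1 k hk) (hjl2 k h)) _)
    one_mem (Pw_W _ _) hκt
  rw [one_mul, one_mul] at h2
  have h3 := Submodule.add_mem _ h1 (Submodule.smul_mem _ c0 h2)
  have e3 : x F j ^ M * g - c0 • (x F j ^ M * (Pw F l1 κ' * Pw F l2 κ'))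
      + c0 • (x F j ^ M * (Pw F l1 κ' * Pw F l2 κ')
        - ε • (Pw F l1 κ' * (x F j ^ M * Pw F l2 κ')))
      = x F j ^ M * g - (c0 * ε) • Pw F (l1 ++ j :: l2) κ' := by
    rw [Pw_append, Pw_cons, ← hM, smul_sub, smul_smul]
    abel
  rw [e3] at h3
  exact mem_of_lead (F := F) hpj (fun i hi => hmem i (fun h => hi (List.mem_toFinset.mpr h)))
    (fun a _ b _ hab => Lm_anti _ hab.le) (fc_Lm _) (fun a _ b _ hab => fc_hw hab _ _)
    hK.st (hK.lmul _ _ hgK) (mul_ne_zero hc0 hε) h3

/-! ### Higman -/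

theorem alpha_add [CharZero F] {K : Submodule F (Op F)} (hK : Nice K) (p : List ℕ) (a : ℕ)
    (s : List ℕ) (h : fc F 0 (p ++ a :: s) ∈ K) (d : ℕ) : fc F 0 (p ++ (a + d) :: s) ∈ K := by
  induction d with
  | zero => exact h
  | succ d ih => exact alpha hK p (a + d) s ih

theorem fc_zero_end (p : List ℕ) : fc F 0 (p ++ [0]) = fc F 0 p := by
  rw [fc_append]
  simp [fc]

theorem extend_end [CharZero F] {K : Submodule F (Op F)} (hK : Nice K) :
    ∀ (l p : List ℕ), fc F 0 p ∈ K → fc F 0 (p ++ l) ∈ K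
  | [], p, h => by simpa using h
  | a :: l, p, h => by
    have h1 : fc F 0 (p ++ 0 :: []) ∈ K := by rw [fc_zero_end]; exact h
    have h2 := alpha_add hK p 0 [] h1 a
    rw [zero_add] at h2
    have h3 := extend_end hK l (p ++ [a]) h2
    rwa [List.append_assoc] at h3

theorem higman_closed [CharZero F] {K : Submodule F (Op F)} (hK : Nice K) {l1 l2 : List ℕ}
    (h : List.SublistForall₂ (· ≤ ·) l1 l2) :
    ∀ p : List ℕ, fc F 0 (p ++ l1) ∈ K → fc F 0 (p ++ l2) ∈ K := by
  induction h with
  | nil =>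
    intro p hp
    rw [List.append_nil] at hp
    exact extend_end hK _ p hp
  | @cons a b l1 l2 hab _ ih =>
    intro p hp
    have h1 := ih (p ++ [a]) (by rw [List.append_assoc]; exact hp)
    rw [List.append_assoc] at h1
    have h2 := alpha_add hK p a l2 h1 (b - a)
    rwa [Nat.add_sub_cancel' hab] at h2
  | @cons_right a l1 l2 _ ih =>
    intro p hp
    have h1 := gamma hK p l2 (ih p hp)
    have h2 := alpha_add hK p 0 l2 h1 a
    rwa [zero_add] at h2

theorem finite_basis (P : Set (List ℕ)) : ∃ S : Finset (List ℕ), (∀ c ∈ S, c ∈ P) ∧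
    ∀ c ∈ P, ∃ s ∈ S, List.SublistForall₂ (· ≤ ·) s c := by
  classical
  by_contra hcon
  push Not at hcon
  have key : ∀ S : Finset (List ℕ), (∀ c ∈ S, c ∈ P) → ∃ c, c ∈ P ∧
      ∀ s ∈ S, ¬ List.SublistForall₂ (· ≤ ·) s c := by
    intro S hS
    obtain ⟨c, hc, h⟩ := hcon S hS
    exact ⟨c, hc, h⟩
  obtain ⟨f, hf, hf2⟩ := exists_seq_of_forall_finset_exists (fun c => c ∈ P)
    (fun s c => ¬ List.SublistForall₂ (· ≤ ·) s c) key
  have hw := Set.PartiallyWellOrderedOn.partiallyWellOrderedOn_sublistForall₂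
    (α := ℕ) (· ≤ ·) (s := Set.univ)
    (by
      have := (Set.univ : Set ℕ).isPWO_iff_isWF.mpr
      exact Set.IsWF.isPWO (Set.wellFoundedOn_univ.mpr wellFounded_lt))
  obtain ⟨m, n, hmn, h⟩ := hw (fun n => ⟨f n, by simp⟩)
  exact hf2 m n hmn h

/-- finite generation -/
theorem fg [CharZero F] {K : Submodule F (Op F)} (hK : Nice K) : ∃ S : Finset (List ℕ),
    (∀ c ∈ S, fc F 0 c ∈ K) ∧
    ∀ K2 : Submodule F (Op F), Nice K2 → (∀ c ∈ S, fc F 0 c ∈ K2) → K ≤ K2 := by
  obtain ⟨S, hS1, hS2⟩ := finite_basis {c | fc F 0 c ∈ K}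
  refine ⟨S, hS1, ?_⟩
  intro K2 hK2 hS
  have key : ∀ c, fc F 0 c ∈ K → fc F 0 c ∈ K2 := by
    intro c hc
    obtain ⟨s, hs, hsc⟩ := hS2 c hc
    have := higman_closed hK2 hsc [] (by simpa using hS s hs)
    simpa using this
  apply le_of_hom hK.st
  intro κ u hu huW
  by_contra hcon
  have hne : ∀ i, 0 ≤ κ i := by
    intro i
    by_contra h
    push Not at h
    exact hcon (by rw [W_neg h huW]; exact K2.zero_mem)
  have hsupp : ∃ N, ∀ i, N ≤ i → κ i = 0 := by
    by_contra h
    apply hcon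
    have hemp : {u | ∃ l : List ℕ, (∀ i, (l.count i : ℤ) = κ i) ∧ wd F l = u} = ∅ := by
      ext v
      simp only [Set.mem_ofPred_eq, Set.mem_empty_iff_false, iff_false]
      rintro ⟨l, hl, _⟩
      apply h
      refine ⟨l.sum + 1, fun i hi => ?_⟩
      rw [← hl i, List.count_eq_zero_of_not_mem]
      · rfl
      · intro hm
        have := List.single_le_sum (l := l) (fun _ _ => Nat.zero_le _) i hm
        omega
    unfold W at huW
    rw [hemp] at huW
    have : u = 0 := by simpa using huW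
    rw [this]; exact K2.zero_mem
  obtain ⟨N, hN⟩ := hsupp
  obtain ⟨κ', h1, h2, h3, f, hf1, hf2, hf3, hf4⟩ := hw_sep (F := F) (Finset.range N) hK2.st hK.st
    ((∑ a ∈ Finset.range N, (a : ℤ) * κ a) + 1).toNat κ
    (fun i hi => hN i (by simpa using hi)) (by omega) u huW hu hcon
  obtain ⟨c, hc1, hc2⟩ := lam_surj N κ' (fun i hi => h1 i (by simpa using hi)) (by
    intro i
    by_cases hi : i + 1 < N
    · exact h2 i (by simp; omega) (i + 1) (by simpa using hi) (Nat.lt_succ_self i)
    · rw [h1 (i + 1) (by simpa using hi)]; exact h3 i)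
  have hLm : Lm c = κ' := funext hc2
  have hf0 : f ≠ 0 := fun h => hf4 (by rw [h]; exact K2.zero_mem)
  have hsupp' : ∀ i ∉ (List.range N).toFinset, κ' i = 0 := by
    rw [toFinset_range]; exact h1
  have hanti' : Anti (List.range N).toFinset κ' := by rw [toFinset_range]; exact h2
  have hhw' : IsHw (List.range N).toFinset f := by rw [toFinset_range]; exact hf2
  obtain ⟨d, hd⟩ := hw_unique (F := F) (rem := List.range N) (κ := κ') (f := f)
    (g := fc F 0 c) List.pairwise_lt_range hsupp' hanti' hf1 hhw' hf0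
    (by rw [← hLm]; exact fc_Lm c) (fun a _ b _ hab => fc_hw hab c 0)
  obtain ⟨e, he⟩ := hw_unique (F := F) (rem := List.range N) (κ := κ') (f := fc F 0 c)
    (g := f) List.pairwise_lt_range hsupp' hanti'
    (by rw [← hLm]; exact fc_Lm c) (fun a _ b _ hab => fc_hw hab c 0) (fc_Mono c 0).ne hf1 hhw'
  have h5 : fc F 0 c ∈ K := by rw [hd]; exact Submodule.smul_mem _ _ hf3
  apply hf4
  rw [he]
  exact Submodule.smul_mem _ _ (key c h5)

end Pool.Agent.H163R3
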