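import Mathlib

set_option autoImplicit false

/-!
Definitions: varieties of nonassociative algebras, finite bases of identities, superalgebras,
Grassmann envelopes, finite basic superrank.
-/

namespace Pool.Agent.H163R3

universe u

open TensorProduct

/-- The free nonassociative `F`-algebra on the variables `0, 1, 2, …`. -/
abbrev Fr (F : Type u) [Field F] : Type u := FreeNonUnitalNonAssocAlgebra F ℕ

section

variable (F : Type u) [Field F]

/-- The variable with index `i`. -/
noncomputable def X (i : ℕ) : Fr F := FreeNonUnitalNonAssocAlgebra.of F i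

/-- `f` is a polynomial identity of the algebra `B`. -/
def Sat (B : Type u) [NonUnitalNonAssocRing B] [Module F B] [IsScalarTower F B B]
    [SMulCommClass F B B] (f : Fr F) : Prop :=
  ∀ φ : Fr F →ₙₐ[F] B, φ f = 0

/-- `B` lies in the variety defined by the set `V` of identities. -/
def InVar (V : Set (Fr F)) (B : Type u) [NonUnitalNonAssocRing B] [Module F B]
    [IsScalarTower F B B] [SMulCommClass F B B] : Prop :=
  ∀ f ∈ V, Sat F B f

variable {F} in
/-- The subspace `I` is mapped into itself by the endomorphism `φ` of the free algebra. -/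
def Stable (φ : Fr F →ₙₐ[F] Fr F) (I : Submodule F (Fr F)) : Prop := ∀ a, a ∈ I → φ a ∈ I

variable {F} in
/-- T-ideals: ideals of the free algebra stable under all its endomorphisms. -/
structure IsT (I : Submodule F (Fr F)) : Prop where
  mul_left : ∀ a b, b ∈ I → a * b ∈ I
  mul_right : ∀ a b, a ∈ I → a * b ∈ I
  endo : ∀ φ : Fr F →ₙₐ[F] Fr F, Stable φ I

/-- `B` has a finite basis for its identities: finitely many identities of `B` generate, as a
T-ideal, all identities of `B`. -/
def FinBased (B : Type u) [NonUnitalNonAssocRing B] [Module F B]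
    [IsScalarTower F B B] [SMulCommClass F B B] : Prop :=
  ∃ S : Finset (Fr F), (∀ s ∈ S, Sat F B s) ∧
    ∀ f, Sat F B f → ∀ I : Submodule F (Fr F), IsT I → (∀ s ∈ S, s ∈ I) → f ∈ I

/-- The variety defined by `V` is Spechtian: every algebra in it has a finite basis for its
identities. -/
def Spechtian (V : Set (Fr F)) : Prop :=
  ∀ (B : Type u) [NonUnitalNonAssocRing B] [Module F B] [IsScalarTower F B B]
    [SMulCommClass F B B], InVar F V B → FinBased F B

/-- `A 0`, `A 1` is a superalgebra structure on the algebra `A'`. -/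
structure IsSuper {A' : Type u} [NonUnitalNonAssocRing A'] [Module F A']
    (A : ZMod 2 → Submodule F A') : Prop where
  compl : IsCompl (A 0) (A 1)
  mul : ∀ i j, ∀ a ∈ A i, ∀ b ∈ A j, a * b ∈ A (i + j)

/-- `G` is the Grassmann algebra on the generators `e 0, e 1, …`: they anticommute, generate `G`
as an algebra with unit, and `G` is universal with this property. -/
structure IsGrassmann {G : Type u} [Ring G] [Algebra F G] (e : ℕ → G) : Prop where
  anti : ∀ i j, e i * e j + e j * e i = 0
  gen : Algebra.adjoin F (Set.range e) = ⊤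
  free : ∀ (B : Type u) [Ring B] [Algebra F B] (b : ℕ → B),
    (∀ i j, b i * b j + b j * b i = 0) → ∃ φ : G →ₐ[F] B, ∀ i, φ (e i) = b i

variable {F} in
/-- The word with the letters `l` in the generators `e`. -/
def gw {G : Type u} [Ring G] (e : ℕ → G) (l : List ℕ) : G := (l.map e).prod

/-- The span `G_p` of the words of parity `p` and of length at least `m` in the generators `e`.
For `m = 0` these are all words, the empty word (the unit) included; for `m = 1` the empty word
is left out. -/
def Gw {G : Type u} [Ring G] [Algebra F G] (e : ℕ → G) (m : ℕ) (p : ZMod 2) : Submodule F G :=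
  Submodule.span F {w | ∃ l : List ℕ, m ≤ l.length ∧ (l.length : ZMod 2) = p ∧ gw e l = w}

theorem Gw_mul {G : Type u} [Ring G] [Algebra F G] (e : ℕ → G) {m : ℕ} {p q : ZMod 2} {g h : G}
    (hg : g ∈ Gw F e m p) (hh : h ∈ Gw F e m q) : g * h ∈ Gw F e m (p + q) := by
  have h1 := Submodule.mul_mem_mul hg hh
  unfold Gw at h1
  rw [Submodule.span_mul_span] at h1
  refine Submodule.span_mono ?_ h1
  rintro _ ⟨_, ⟨l, h1, h2, rfl⟩, _, ⟨l', h3, h4, rfl⟩, rfl⟩
  refine ⟨l ++ l', ?_, ?_, by simp [gw]⟩
  · rw [List.length_append]; omega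
  · rw [List.length_append, Nat.cast_add, h2, h4]

/-- The space `G_0 ⊗ A 0 + G_1 ⊗ A 1`. -/
def EnvSp {G : Type u} [Ring G] [Algebra F G] (e : ℕ → G) (m : ℕ)
    {A' : Type u} [NonUnitalNonAssocRing A'] [Module F A'] (A : ZMod 2 → Submodule F A') :
    Submodule F (G ⊗[F] A') :=
  Submodule.span F {t | ∃ p, ∃ g ∈ Gw F e m p, ∃ a ∈ A p, g ⊗ₜ[F] a = t}

/-- `f` is an identity of the subalgebra `S` of `B`: it vanishes whenever elements of `S` are
substituted for the variables. -/
def SatOn (B : Type u) [NonUnitalNonAssocRing B] [Module F B] [IsScalarTower F B B]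
    [SMulCommClass F B B] (S : Submodule F B) (f : Fr F) : Prop :=
  ∀ φ : Fr F →ₙₐ[F] B, (∀ i, φ (X F i) ∈ S) → φ f = 0

/-- The identities of the Grassmann envelope `G_0 ⊗ A 0 + G_1 ⊗ A 1`. -/
def EnvId {G : Type u} [Ring G] [Algebra F G] (e : ℕ → G) (m : ℕ)
    {A' : Type u} [NonUnitalNonAssocRing A'] [Module F A']
    [IsScalarTower F A' A'] [SMulCommClass F A' A'] (A : ZMod 2 → Submodule F A') :
    Set (Fr F) := {f | SatOn F (G ⊗[F] A') (EnvSp F e m A) f}

/-- The variety defined by `V` is generated by the Grassmann envelope (formed with the Grassmann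
algebra `G`) of a finitely generated superalgebra. -/
def FinSuperrank {G : Type u} [Ring G] [Algebra F G] (e : ℕ → G) (m : ℕ) (V : Set (Fr F)) :
    Prop :=
  ∃ (A' : Type u) (_ : NonUnitalNonAssocRing A') (_ : Module F A') (_ : IsScalarTower F A' A')
    (_ : SMulCommClass F A' A') (A : ZMod 2 → Submodule F A'), IsSuper F A ∧
    (∃ s : Finset A', NonUnitalAlgebra.adjoin F (s : Set A') = ⊤) ∧
    ∀ (B : Type u) [NonUnitalNonAssocRing B] [Module F B] [IsScalarTower F B B]
      [SMulCommClass F B B], InVar F V B ↔ InVar F (EnvId F e m A) B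

/-- The variety: `x (y z) = 0` and `((a x) y) z + ((a y) x) z = ((a z) x) y + ((a z) y) x`. -/
def V0 : Set (Fr F) :=
  {X F 0 * (X F 1 * X F 2),
    ((X F 0 * X F 1) * X F 2) * X F 3 + ((X F 0 * X F 2) * X F 1) * X F 3
      - ((X F 0 * X F 3) * X F 1) * X F 2 - ((X F 0 * X F 3) * X F 2) * X F 1}

variable {F} in
theorem Env_mul {G : Type u} [Ring G] [Algebra F G] (e : ℕ → G) (m : ℕ)
    {A' : Type u} [NonUnitalNonAssocRing A'] [Module F A']
    [IsScalarTower F A' A'] [SMulCommClass F A' A'] (A : ZMod 2 → Submodule F A')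
    (hA : IsSuper F A) {s t : G ⊗[F] A'} (hs : s ∈ EnvSp F e m A) (ht : t ∈ EnvSp F e m A) :
    s * t ∈ EnvSp F e m A := by
  unfold EnvSp at hs ht
  induction hs using Submodule.span_induction with
  | zero => rw [zero_mul]; exact Submodule.zero_mem _
  | add p q _ _ h1 h2 => rw [add_mul]; exact Submodule.add_mem _ h1 h2
  | smul k p _ h => rw [smul_mul_assoc]; exact Submodule.smul_mem _ _ h
  | mem y hy =>
    obtain ⟨p, g, hg, a, ha, rfl⟩ := hy
    induction ht using Submodule.span_induction with
    | zero => rw [mul_zero]; exact Submodule.zero_mem _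
    | add p q _ _ h1 h2 => rw [mul_add]; exact Submodule.add_mem _ h1 h2
    | smul k p _ h => rw [mul_smul_comm]; exact Submodule.smul_mem _ _ h
    | mem z hz =>
      obtain ⟨q, h, hh, b, hb, rfl⟩ := hz
      rw [Algebra.TensorProduct.tmul_mul_tmul]
      exact Submodule.subset_span ⟨p + q, _, Gw_mul F e hg hh, _, hA.mul _ _ _ ha _ hb, rfl⟩

variable {F} in
/-- The Grassmann envelope as a subalgebra of `G ⊗ A'`. -/
def Env {G : Type u} [Ring G] [Algebra F G] (e : ℕ → G) (m : ℕ)
    {A' : Type u} [NonUnitalNonAssocRing A'] [Module F A']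
    [IsScalarTower F A' A'] [SMulCommClass F A' A'] (A : ZMod 2 → Submodule F A')
    (hA : IsSuper F A) : NonUnitalSubalgebra F (G ⊗[F] A') where
  toSubmodule := EnvSp F e m A
  mul_mem' := Env_mul e m A hA

end

end Pool.Agent.H163R3
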