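import Pool.Agent.H163R3.Hw

set_option autoImplicit false

namespace Pool.Agent.H163R3

universe u

section gen

variable (F : Type u) [Field F] {A : Type u} [Ring A] [Algebra F A]

/-- the multilinear product -/
noncomputable def mp (h : ℕ) : MultilinearMap F (fun _ : Fin h => A) A :=
  MultilinearMap.mkPiAlgebraFin F h A

theorem mp_apply (h : ℕ) (v : Fin h → A) : mp F h v = (List.ofFn v).prod := rfl

theorem mp_succ (h : ℕ) (v : Fin (h + 1) → A) :
    mp F (h + 1) v = v 0 * mp F h (fun k => v k.succ) := by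
  rw [mp_apply, List.ofFn_succ, List.prod_cons]; rfl

/-- standard polynomial -/
noncomputable def alt (h : ℕ) (v : Fin h → A) : A :=
  MultilinearMap.alternatization (mp F h) v

theorem alt_apply (h : ℕ) (v : Fin h → A) :
    alt F h v = ∑ σ : Equiv.Perm (Fin h), Equiv.Perm.sign σ • mp F h (fun i => v (σ i)) := by
  unfold alt
  rw [MultilinearMap.alternatization_apply]
  rfl

theorem adj : ∀ (n : ℕ) (v : Fin (n + 1) → A) (i : Fin n),
    v i.castSucc * v i.succ = -(v i.succ * v i.castSucc) →
    mp F (n + 1) (fun k => v (Equiv.swap i.castSucc i.succ k)) = - mp F (n + 1) v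
  | 0, _, i, _ => i.elim0
  | n + 1, v, i, hv => by
    rcases Fin.eq_zero_or_eq_succ i with h | ⟨j, h⟩
    · subst h
      rw [mp_succ, mp_succ, mp_succ, mp_succ]
      have e0 : Equiv.swap (Fin.castSucc (0 : Fin (n + 1))) (Fin.succ (0 : Fin (n + 1))) 0
          = Fin.succ (0 : Fin (n + 1)) := Equiv.swap_apply_left _ _
      have e1 : Equiv.swap (Fin.castSucc (0 : Fin (n + 1))) (Fin.succ (0 : Fin (n + 1)))
          (Fin.succ 0) = 0 := Equiv.swap_apply_right _ _
      have e2 : ∀ k : Fin n,
          Equiv.swap (Fin.castSucc (0 : Fin (n + 1))) (Fin.succ (0 : Fin (n + 1)))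
            (Fin.succ (Fin.succ k)) = Fin.succ (Fin.succ k) := by
        intro k
        apply Equiv.swap_apply_of_ne_of_ne
        · exact Fin.succ_ne_zero _
        · intro h; exact Fin.succ_ne_zero _ (Fin.succ_injective _ h)
      simp only [e0, e1, e2]
      rw [← mul_assoc, ← mul_assoc]
      have hv' : v 0 * v (Fin.succ 0) = -(v (Fin.succ 0) * v 0) := hv
      rw [hv', neg_mul, neg_neg]
    · subst h
      rw [mp_succ, mp_succ (F := F) (h := n + 1) (v := v)]
      have e0 : Equiv.swap (Fin.castSucc (Fin.succ j)) (Fin.succ (Fin.succ j)) 0 = 0 := by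
        apply Equiv.swap_apply_of_ne_of_ne
        · intro h
          rw [← Fin.succ_castSucc] at h
          exact Fin.succ_ne_zero _ h.symm
        · exact (Fin.succ_ne_zero _).symm
      have e2 : ∀ k : Fin (n + 1), Equiv.swap (Fin.castSucc (Fin.succ j)) (Fin.succ (Fin.succ j))
            (Fin.succ k) = Fin.succ (Equiv.swap (Fin.castSucc j) (Fin.succ j) k) := by
        intro k
        rw [← Fin.succ_castSucc]
        exact (Fin.succ_injective _).swap_apply _ _ _
      simp only [e0, e2]
      have h := adj n (fun k => v k.succ) j (by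
        rw [← Fin.succ_castSucc] at hv
        exact hv)
      rw [h, mul_neg]

theorem perm_sign (h : ℕ) (σ : Equiv.Perm (Fin h)) :
    ∀ v : Fin h → A, (∀ i j, i ≠ j → v i * v j = -(v j * v i)) →
    mp F h (fun k => v (σ k)) = Equiv.Perm.sign σ • mp F h v := by
  rcases h with _ | n
  · intro v _
    have : σ = 1 := Subsingleton.elim _ _
    subst this
    simp
  · have hσ : σ ∈ Submonoid.closure
        (Set.range fun i : Fin n ↦ Equiv.swap i.castSucc i.succ) := by
      rw [Equiv.Perm.mclosure_swap_castSucc_succ]; trivial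
    induction hσ using Submonoid.closure_induction with
    | mem y hy =>
      obtain ⟨i, rfl⟩ := hy
      intro v hv
      have hne : i.castSucc ≠ i.succ := (Fin.castSucc_lt_succ).ne
      dsimp only
      rw [adj F n v i (hv _ _ hne), Equiv.Perm.sign_swap hne]
      simp
    | one => intro v _; simp
    | mul σ τ _ _ h1 h2 =>
      intro v hv
      have h3 := h2 (fun k => v (σ k)) (fun i j hij => hv _ _ (fun h => hij (σ.injective h)))
      simp only [Equiv.Perm.mul_apply]
      rw [h3, h1 v hv, smul_smul, Equiv.Perm.sign_mul, mul_comm]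

end gen

variable {F : Type u} [Field F]

theorem E_mp (a b : ℕ) : ∀ (h : ℕ) (v : Fin h → Op F),
    E F a b (mp F h v) = ∑ k, mp F h (Function.update v k (E F a b (v k)))
  | 0, v => by simp [mp_apply]
  | h + 1, v => by
    rw [mp_succ, E_mul, E_mp a b h, Fin.sum_univ_succ, add_comm]
    congr 1
    · rw [mp_succ]
      simp only [Function.update_self]
      congr 2
    · rw [Finset.mul_sum]
      refine Finset.sum_congr rfl fun k _ => ?_
      rw [mp_succ, Function.update_of_ne (Fin.succ_ne_zero k).symm]
      congr 2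
      exact (Function.update_comp_eq_of_injective v (Fin.succ_injective h) k _).symm

theorem E_alt (a b : ℕ) (h : ℕ) (v : Fin h → Op F) :
    E F a b (alt F h v) = ∑ k, alt F h (Function.update v k (E F a b (v k))) := by
  simp only [alt_apply]
  rw [Finset.sum_comm, map_sum]
  refine Finset.sum_congr rfl fun σ _ => ?_
  have : E F a b (Equiv.Perm.sign σ • mp F h fun i => v (σ i))
      = Equiv.Perm.sign σ • E F a b (mp F h fun i => v (σ i)) := by
    rcases Int.units_eq_one_or (Equiv.Perm.sign σ) with h | h <;> rw [h] <;> simp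
  rw [this, E_mp, Finset.smul_sum]
  refine Fintype.sum_equiv σ _ _ fun k => ?_
  congr 2
  exact (Function.update_comp_eq_of_injective v σ.injective k _).symm

/-- standard polynomial in the first letters -/
noncomputable def D (F : Type u) [Field F] (h : ℕ) : Op F := alt F h (fun i => x F i)

theorem E_D {a b : ℕ} (hab : a < b) (h : ℕ) : E F a b (D F h) = 0 := by
  unfold D
  rw [E_alt]
  refine Finset.sum_eq_zero fun k _ => ?_
  rw [E_x]
  by_cases hk : b = (k : ℕ)
  · have ha : a < h := by omega
    have e : dl F b (k : ℕ) • x F a = x F a := by simp [dl, hk]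
    rw [e]
    unfold alt
    refine AlternatingMap.map_eq_zero_of_eq (i := (⟨a, ha⟩ : Fin h)) (j := k) _ _ ?_ ?_
    · rw [Function.update_self, Function.update_of_ne]
      intro h2
      rw [← h2] at hk
      simp at hk
      omega
    · intro h2
      rw [← h2] at hk
      simp at hk
      omega
  · have e : dl F b (k : ℕ) • x F a = 0 := by simp [dl, hk]
    rw [e]
    unfold alt
    exact AlternatingMap.map_update_zero _ _ _

/-- the weight of `D` -/
def ind (h : ℕ) : ℕ → ℤ := fun i => if i < h then 1 else 0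

theorem D_W (h : ℕ) : D F h ∈ W F (ind h) := by
  unfold D
  rw [alt_apply]
  refine Submodule.sum_mem _ fun σ _ => ?_
  have key : mp F h (fun i => x F ((σ i : Fin h) : ℕ)) ∈ W F (ind h) := by
    have e : mp F h (fun i => x F ((σ i : Fin h) : ℕ))
        = wd F (List.ofFn fun i => ((σ i : Fin h) : ℕ)) := by
      rw [mp_apply, wd, List.map_ofFn]; rfl
    rw [e]
    apply Submodule.subset_span
    refine ⟨_, ?_, rfl⟩
    intro i
    have hp := σ.ofFn_comp_perm (fun i => (i : ℕ))
    have e2 : (List.ofFn fun i => ((σ i : Fin h) : ℕ)).count i = (List.range h).count i := by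
      have := hp.count_eq i
      have e3 : (List.ofFn fun i : Fin h => (i : ℕ)) = List.range h := by
        apply List.ext_getElem
        · simp
        · intro n h1 h2; simp
      rw [e3] at this
      exact this
    rw [e2, List.count_range]
    unfold ind
    split_ifs <;> rfl
  rcases Int.units_eq_one_or (Equiv.Perm.sign σ) with h | h <;> rw [h]
  · simpa using key
  · simpa using Submodule.neg_mem _ key

/-! ### the monomial representation -/

/-- the module -/
abbrev MM (F : Type u) [Field F] : Type u := (ℕ →₀ ℕ) →₀ F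

/-- signs -/
noncomputable def sg (F : Type u) [Field F] (α : ℕ →₀ ℕ) (i : ℕ) : F :=
  (-1) ^ (∑ k ∈ Finset.range i, α k)

theorem sg_sq (α : ℕ →₀ ℕ) (i : ℕ) : sg F α i * sg F α i = 1 := by
  unfold sg
  rw [← pow_add, ← two_mul, pow_mul]
  simp

theorem sg_ne (α : ℕ →₀ ℕ) (i : ℕ) : sg F α i ≠ 0 := by
  intro h
  have := sg_sq (F := F) α i
  rw [h] at this
  simp at this

theorem sg_add (α : ℕ →₀ ℕ) (i j : ℕ) : sg F (α + Finsupp.single j 1) i
    = sg F α i * (if j < i then -1 else 1) := by
  unfold sg
  simp only [Finsupp.add_apply, Finset.sum_add_distrib, pow_add]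
  congr 1
  by_cases h : j < i
  · rw [Finset.sum_eq_single j]
    · simp [h]
    · intro k _ hk; simp [Ne.symm hk]
    · intro hk; simp at hk; omega
  · rw [Finset.sum_eq_zero]
    · simp [h]
    · intro k hk
      simp at hk
      rw [Finsupp.single_apply, if_neg (by omega)]

/-- the operators -/
noncomputable def XX (F : Type u) [Field F] (i : ℕ) : Module.End F (MM F) :=
  Finsupp.linearCombination F fun α => Finsupp.single (α + Finsupp.single i 1) (sg F α i)

theorem XX_single (i : ℕ) (α : ℕ →₀ ℕ) (c : F) : XX F i (Finsupp.single α c)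
    = Finsupp.single (α + Finsupp.single i 1) (c * sg F α i) := by
  unfold XX
  rw [Finsupp.linearCombination_single, Finsupp.smul_single, smul_eq_mul]

theorem XX_anti {i j : ℕ} (h : i ≠ j) : XX F i * XX F j = -(XX F j * XX F i) := by
  refine Finsupp.lhom_ext fun α c => ?_
  rw [LinearMap.neg_apply, Module.End.mul_apply, Module.End.mul_apply]
  simp only [XX_single, sg_add]
  rw [← Finsupp.single_neg, add_right_comm]
  congr 1
  rcases lt_or_gt_of_ne h with h1 | h1
  · rw [if_neg (by omega), if_pos h1]; ring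
  · rw [if_pos h1, if_neg (by omega)]; ring

theorem XX_sq (i j : ℕ) : XX F i * XX F i * XX F j = XX F j * (XX F i * XX F i) := by
  refine Finsupp.lhom_ext fun α c => ?_
  simp only [Module.End.mul_apply, XX_single, sg_add, lt_irrefl, if_false, mul_one]
  have e : α + Finsupp.single j 1 + Finsupp.single i 1 + Finsupp.single i 1
      = α + Finsupp.single i 1 + Finsupp.single i 1 + Finsupp.single j 1 := by abel
  rw [e]
  congr 1
  have := sg_sq (F := F) α i
  split_ifs <;> ring

theorem XX_rel (a b c : ℕ) : (XX F a * XX F b + XX F b * XX F a) * XX F c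
    = XX F c * (XX F a * XX F b + XX F b * XX F a) := by
  by_cases h : a = b
  · subst h
    rw [add_mul, mul_add, XX_sq]
  · have e1 : XX F a * XX F b + XX F b * XX F a = 0 := by
      rw [XX_anti h]
      exact neg_add_cancel (G := Module.End F (MM F)) (XX F b * XX F a)
    rw [e1, zero_mul, mul_zero]

/-- the representation -/
noncomputable def rho (F : Type u) [Field F] : Op F →ₐ[F] Module.End F (MM F) :=
  opLift (XX F) XX_rel

theorem rho_x (i : ℕ) : rho F (x F i) = XX F i := by
  unfold rho; rw [opLift_x]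

/-- elements acting by monomial maps without kernel -/
def Mono (f : Op F) : Prop := ∀ α : ℕ →₀ ℕ, ∃ (β : ℕ →₀ ℕ) (c : F), c ≠ 0 ∧
  rho F f (Finsupp.single α 1) = Finsupp.single β c

theorem Mono.ne {f : Op F} (h : Mono f) : f ≠ 0 := by
  rintro rfl
  obtain ⟨β, c, hc, h⟩ := h 0
  rw [map_zero] at h
  have := congrArg (fun w => w β) h
  simp at this
  exact hc this.symm

theorem Mono_one : Mono (1 : Op F) := fun α => ⟨α, 1, one_ne_zero, by rw [map_one]; rfl⟩

theorem Mono.mul {f g : Op F} (hf : Mono f) (hg : Mono g) : Mono (f * g) := by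
  intro α
  obtain ⟨β, c, hc, h1⟩ := hg α
  obtain ⟨γ, d, hd, h2⟩ := hf β
  refine ⟨γ, c * d, mul_ne_zero hc hd, ?_⟩
  rw [map_mul, Module.End.mul_apply, h1]
  have : (Finsupp.single β c : MM F) = c • Finsupp.single β 1 := by simp
  rw [this, map_smul, h2, Finsupp.smul_single, smul_eq_mul]

theorem Mono_x (i : ℕ) : Mono (x F i) := by
  intro α
  exact ⟨_, sg F α i, sg_ne α i, by rw [rho_x, XX_single, one_mul]⟩

theorem Mono.smul {f : Op F} {c : F} (hc : c ≠ 0) (hf : Mono f) : Mono (c • f) := by
  intro α
  obtain ⟨β, d, hd, h1⟩ := hf α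
  refine ⟨β, c * d, mul_ne_zero hc hd, ?_⟩
  rw [map_smul, LinearMap.smul_apply, h1, Finsupp.smul_single, smul_eq_mul]

theorem map_mp {B : Type u} [Ring B] [Algebra F B] {A : Type u} [Ring A] [Algebra F A]
    (φ : A →ₐ[F] B) (h : ℕ) (v : Fin h → A) : φ (mp F h v) = mp F h (fun i => φ (v i)) := by
  rw [mp_apply, mp_apply, map_list_prod, List.map_ofFn]; rfl

theorem map_alt {B : Type u} [Ring B] [Algebra F B] {A : Type u} [Ring A] [Algebra F A]
    (φ : A →ₐ[F] B) (h : ℕ) (v : Fin h → A) : φ (alt F h v) = alt F h (fun i => φ (v i)) := by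
  rw [alt_apply, alt_apply, map_sum]
  refine Finset.sum_congr rfl fun σ _ => ?_
  have : ∀ y : A, φ (Equiv.Perm.sign σ • y) = Equiv.Perm.sign σ • φ y := by
    intro y
    rcases Int.units_eq_one_or (Equiv.Perm.sign σ) with h | h <;> rw [h] <;> simp
  rw [this, map_mp]

theorem rho_alt (h : ℕ) (t : Fin h → ℕ) (ht : Function.Injective t) :
    rho F (alt F h (fun i => x F (t i))) = (h.factorial : F) • rho F (mp F h fun i => x F (t i)) := by
  have h1 := map_alt (B := Module.End F (MM F)) (rho F) h (fun i => x F (t i))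
  have h2 := map_mp (B := Module.End F (MM F)) (rho F) h (fun i => x F (t i))
  rw [h1, h2]
  simp only [rho_x]
  rw [alt_apply]
  have : ∀ σ : Equiv.Perm (Fin h), Equiv.Perm.sign σ • mp F h (fun i => XX F (t (σ i)))
      = mp F h (fun i => XX F (t i)) := by
    intro σ
    rw [perm_sign F h σ (fun i => XX F (t i)) (fun i j hij => XX_anti (fun h => hij (ht h))),
      smul_smul, Int.units_mul_self, one_smul]
  rw [Finset.sum_congr rfl (fun σ _ => this σ), Finset.sum_const, Finset.card_univ,
    Fintype.card_perm, Fintype.card_fin]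
  exact (Nat.cast_smul_eq_nsmul F _ _).symm

theorem Mono_mp : ∀ (h : ℕ) (t : Fin h → ℕ), Mono (mp F h fun i => x F (t i))
  | 0, t => by
    have : mp F 0 (fun i => x F (t i)) = 1 := by simp [mp_apply]
    rw [this]; exact Mono_one
  | h + 1, t => by
    rw [mp_succ]
    exact (Mono_x _).mul (Mono_mp h fun k => t k.succ)

theorem Mono_alt [CharZero F] (h : ℕ) (t : Fin h → ℕ) (ht : Function.Injective t) :
    Mono (alt F h (fun i => x F (t i))) := by
  intro α
  have hne : (h.factorial : F) ≠ 0 := by exact_mod_cast h.factorial_ne_zero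
  obtain ⟨β, c, hc, h1⟩ := (Mono_mp (F := F) h t).smul hne α
  refine ⟨β, c, hc, ?_⟩
  rw [rho_alt h t ht, ← map_smul]
  exact h1

theorem Mono_D [CharZero F] (h : ℕ) : Mono (D F h) := Mono_alt h _ Fin.val_injective

/-! ### the highest weight vectors -/

/-- product of `D`s with multiplicities -/
noncomputable def fc (F : Type u) [Field F] : ℕ → List ℕ → Op F
  | _, [] => 1
  | k, a :: c => D F (k + 1) ^ a * fc F (k + 1) c

/-- its weight -/
def lam : ℕ → List ℕ → ℕ → ℤ
  | _, [] => 0
  | k, a :: c => (a : ℤ) • ind (k + 1) + lam (k + 1) c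

theorem fc_W : ∀ (c : List ℕ) (k : ℕ), fc F k c ∈ W F (lam k c)
  | [], _ => one_mem
  | a :: c, k => by
    have h1 : ∀ a : ℕ, D F (k + 1) ^ a ∈ W F ((a : ℤ) • ind (k + 1)) := by
      intro a
      induction a with
      | zero => simpa using one_mem (F := F)
      | succ n ih =>
        rw [pow_succ]
        have := W_mul ih (D_W (F := F) (k + 1))
        convert this using 2
        push_cast
        rw [add_smul, one_smul]
    exact W_mul (h1 a) (fc_W c (k + 1))

theorem fc_hw {a b : ℕ} (hab : a < b) : ∀ (c : List ℕ) (k : ℕ), E F a b (fc F k c) = 0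
  | [], _ => E_one _ _
  | m :: c, k => by
    have h1 : ∀ m : ℕ, E F a b (D F (k + 1) ^ m) = 0 := by
      intro m
      induction m with
      | zero => simp
      | succ n ih => rw [pow_succ, E_mul, ih, E_D hab]; simp
    show E F a b (D F (k + 1) ^ m * fc F (k + 1) c) = 0
    rw [E_mul, h1, fc_hw hab c (k + 1)]
    simp

theorem fc_Mono [CharZero F] : ∀ (c : List ℕ) (k : ℕ), Mono (fc F k c)
  | [], _ => Mono_one
  | m :: c, k => by
    have h1 : ∀ m : ℕ, Mono (D F (k + 1) ^ m) := by
      intro m
      induction m with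
      | zero => simpa using Mono_one (F := F)
      | succ n ih => rw [pow_succ]; exact ih.mul (Mono_D _)
    exact (h1 m).mul (fc_Mono c (k + 1))

theorem fc_append : ∀ (p s : List ℕ) (k : ℕ), fc F k (p ++ s) = fc F k p * fc F (k + p.length) s
  | [], s, k => by simp [fc]
  | a :: p, s, k => by
    simp only [List.cons_append, fc, List.length_cons]
    rw [fc_append p s (k + 1), mul_assoc]
    congr 3
    omega

theorem lam_eq : ∀ (c : List ℕ) (k i : ℕ), lam k c i = (((c.drop (i - k)).sum : ℕ) : ℤ)
  | [], _, _ => by simp [lam]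
  | a :: c, k, i => by
    simp only [lam, Pi.add_apply, Pi.smul_apply, ind, smul_eq_mul]
    rw [lam_eq c (k + 1) i]
    by_cases h : i < k + 1
    · have h1 : i - k = 0 := by omega
      have h2 : i - (k + 1) = 0 := by omega
      rw [if_pos h, h1, h2]
      simp
    · obtain ⟨d, hd⟩ : ∃ d, i = k + 1 + d := ⟨i - (k + 1), by omega⟩
      have h1 : i - k = d + 1 := by omega
      have h2 : i - (k + 1) = d := by omega
      rw [if_neg h, h1, h2]
      simp

theorem lam_surj : ∀ (N : ℕ) (κ : ℕ → ℤ), (∀ i, N ≤ i → κ i = 0) → (∀ i, κ (i + 1) ≤ κ i) →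
    ∃ c : List ℕ, c.length ≤ N ∧ ∀ i, (((c.drop i).sum : ℕ) : ℤ) = κ i
  | 0, κ, h0, _ => ⟨[], le_rfl, fun i => by simp [h0 i (Nat.zero_le _)]⟩
  | N + 1, κ, h0, h1 => by
    obtain ⟨c, hc1, hc2⟩ := lam_surj N (fun i => κ (i + 1)) (fun i hi => h0 _ (by omega))
      (fun i => h1 _)
    refine ⟨(κ 0 - κ 1).toNat :: c, by simp; omega, fun i => ?_⟩
    rcases i with _ | i
    · have h2 := hc2 0
      have h3 := h1 0
      simp at h2 h3
      simp
      omega
    · simpa using hc2 i

end Pool.Agent.H163R3
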