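import Pool.Agent.H163R3.Model

set_option autoImplicit false
set_option linter.unusedSectionVars false

namespace Pool.Agent.H163R3

universe u

variable {F : Type u} [Field F]

open TensorProduct

/-! ### the Grassmann algebra -/

/-- existence of the Grassmann algebra -/
inductive GrRel (F : Type u) [Field F] : FreeAlgebra F ℕ → FreeAlgebra F ℕ → Prop
  | anti (i j : ℕ) : GrRel F
      (FreeAlgebra.ι F i * FreeAlgebra.ι F j + FreeAlgebra.ι F j * FreeAlgebra.ι F i) 0

theorem exists_grassmann (F : Type u) [Field F] :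
    ∃ (G : Type u) (_ : Ring G) (_ : Algebra F G) (e : ℕ → G), IsGrassmann F e := by
  refine ⟨RingQuot (GrRel F), inferInstance, inferInstance,
    fun i => RingQuot.mkAlgHom F (GrRel F) (FreeAlgebra.ι F i), ?_, ?_, ?_⟩
  · intro i j
    have h : RingQuot.mkAlgHom F (GrRel F) _ = RingQuot.mkAlgHom F (GrRel F) _ :=
      RingQuot.mkAlgHom_rel F (GrRel.anti (F := F) i j)
    rw [map_zero, map_add, map_mul, map_mul] at h
    exact h
  · have h1 : Set.range (fun i => RingQuot.mkAlgHom F (GrRel F) (FreeAlgebra.ι F i))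
        = (RingQuot.mkAlgHom F (GrRel F)) '' (Set.range (FreeAlgebra.ι F)) := by
      rw [← Set.range_comp]; rfl
    rw [h1, ← AlgHom.map_adjoin, FreeAlgebra.adjoin_range_ι, Algebra.map_top,
      AlgHom.range_eq_top]
    exact RingQuot.mkAlgHom_surjective F (GrRel F)
  · intro B _ _ b hb
    have hok : ∀ ⦃p q : FreeAlgebra F ℕ⦄, GrRel F p q →
        FreeAlgebra.lift F b p = FreeAlgebra.lift F b q := by
      intro p q h
      cases h with
      | anti i j =>
        simp only [map_add, map_mul, map_zero, FreeAlgebra.lift_ι_apply]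
        exact hb i j
    refine ⟨RingQuot.liftAlgHom F ⟨FreeAlgebra.lift F b, hok⟩, fun i => ?_⟩
    have h := RingQuot.liftAlgHom_mkAlgHom_apply F (FreeAlgebra.lift F b) hok
      (FreeAlgebra.ι F i)
    simp only [FreeAlgebra.lift_ι_apply] at h
    exact h

variable {G : Type u} [Ring G] [Algebra F G] {e : ℕ → G}

theorem ge_swap (he : IsGrassmann F e) (i j : ℕ) : e i * e j = -(e j * e i) :=
  eq_neg_of_add_eq_zero_left (he.anti i j)

theorem gw_cons (e : ℕ → G) (i : ℕ) (l : List ℕ) : gw e (i :: l) = e i * gw e l := by simp [gw]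
theorem gw_append (e : ℕ → G) (l m : List ℕ) : gw e (l ++ m) = gw e l * gw e m := by simp [gw]

theorem gw_ge (he : IsGrassmann F e) (l : List ℕ) (j : ℕ) :
    gw e l * e j = (-1 : F) ^ l.length • (e j * gw e l) := by
  induction l with
  | nil => simp [gw]
  | cons i l ih =>
    rw [gw_cons, mul_assoc, ih, mul_smul_comm, ← mul_assoc, ge_swap he i j, List.length_cons,
      pow_succ, mul_neg_one, neg_smul, neg_mul, smul_neg, mul_assoc]

theorem parity0 {n : ℕ} (h : (n : ZMod 2) = 0) : (-1 : F) ^ n = 1 := by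
  rw [ZMod.natCast_eq_zero_iff] at h
  exact (even_iff_two_dvd.mpr h).neg_one_pow

theorem parity1 {n : ℕ} (h : (n : ZMod 2) = 1) : (-1 : F) ^ n = -1 := by
  have : ¬ (2 ∣ n) := by
    intro h2
    rw [← ZMod.natCast_eq_zero_iff, h] at h2
    exact one_ne_zero h2
  have h3 : Odd n := by
    rw [← Nat.not_even_iff_odd, even_iff_two_dvd]; exact this
  exact h3.neg_one_pow

/-- even elements are central -/
theorem Gw0_central (he : IsGrassmann F e) {m : ℕ} {g : G} (hg : g ∈ Gw F e m 0) (u : G) :
    g * u = u * g := by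
  have h1 : ∀ j, g * e j = e j * g := by
    intro j
    unfold Gw at hg
    induction hg using Submodule.span_induction with
    | zero => simp
    | add p q _ _ h1 h2 => rw [add_mul, mul_add, h1, h2]
    | smul k p _ h => rw [smul_mul_assoc, mul_smul_comm, h]
    | mem y hy =>
      obtain ⟨l, _, hl, rfl⟩ := hy
      have := gw_ge he l j
      rw [parity0 hl, one_smul] at this
      exact this
  have hu : u ∈ Algebra.adjoin F (Set.range e) := by rw [he.gen]; trivial
  induction hu using Algebra.adjoin_induction with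
  | mem x hx => obtain ⟨i, rfl⟩ := hx; exact h1 i
  | algebraMap r => exact (Algebra.commutes r g).symm
  | mul a b _ _ ha hb => rw [← mul_assoc, ha, mul_assoc, hb, mul_assoc]
  | add a b _ _ ha hb => rw [mul_add, add_mul, ha, hb]

theorem Gw1_anti (he : IsGrassmann F e) {m : ℕ} {g g' : G} (hg : g ∈ Gw F e m 1)
    (hg' : g' ∈ Gw F e m 1) : g * g' = -(g' * g) := by
  have h1 : ∀ j, g * e j = -(e j * g) := by
    intro j
    unfold Gw at hg
    induction hg using Submodule.span_induction with
    | zero => simp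
    | add p q _ _ h1 h2 => rw [add_mul, mul_add, h1, h2, neg_add]
    | smul k p _ h => rw [smul_mul_assoc, mul_smul_comm, h, smul_neg]
    | mem y hy =>
      obtain ⟨l, _, hl, rfl⟩ := hy
      have := gw_ge he l j
      rw [parity1 hl, neg_smul, one_smul] at this
      exact this
  have h2 : ∀ l : List ℕ, g * gw e l = (-1 : F) ^ l.length • (gw e l * g) := by
    intro l
    induction l with
    | nil => simp [gw]
    | cons i l ih =>
      rw [gw_cons, ← mul_assoc, h1, neg_mul, mul_assoc, ih, mul_smul_comm, List.length_cons,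
        pow_succ, mul_neg_one, neg_smul, mul_assoc]
  unfold Gw at hg'
  induction hg' using Submodule.span_induction with
  | zero => simp
  | add p q _ _ h1 h2 => rw [add_mul, mul_add, h1, h2, neg_add]
  | smul k p _ h => rw [smul_mul_assoc, mul_smul_comm, h, smul_neg]
  | mem y hy =>
    obtain ⟨l, _, hl, rfl⟩ := hy
    have := h2 l
    rw [parity1 hl, neg_smul, one_smul] at this
    exact this

theorem Gw1_sq [CharZero F] (he : IsGrassmann F e) {m : ℕ} {g : G} (hg : g ∈ Gw F e m 1) :
    g * g = 0 := by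
  have h := Gw1_anti he hg hg
  have h2 : (2 : F) • (g * g) = 0 := by
    rw [two_smul]
    nth_rw 2 [h]
    exact add_neg_cancel _
  exact (smul_eq_zero.mp h2).resolve_left two_ne_zero

theorem Gw_mono {m : ℕ} {p : ZMod 2} : Gw F e m p ≤ Gw F e 0 p := by
  apply Submodule.span_mono
  rintro _ ⟨l, _, hl, rfl⟩
  exact ⟨l, Nat.zero_le _, hl, rfl⟩

/-- products of too many odd elements vanish -/
theorem odd_prod [CharZero F] (he : IsGrassmann F e) {J : Type} (γ : J → G)
    (hγ : ∀ j, γ j ∈ Gw F e 0 1) :
    ∀ l : List J, ¬ l.Nodup → (l.map γ).prod = 0 := by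
  have h1 : ∀ (l : List J) (j : J), j ∈ l → γ j * (l.map γ).prod = 0 := by
    intro l
    induction l with
    | nil => intro j hj; simp at hj
    | cons k l ih =>
      intro j hj
      rw [List.map_cons, List.prod_cons]
      rcases List.mem_cons.mp hj with h | h
      · rw [h, ← mul_assoc, Gw1_sq he (hγ k), zero_mul]
      · rw [← mul_assoc, Gw1_anti he (hγ j) (hγ k), neg_mul, mul_assoc, ih j h, mul_zero,
          neg_zero]
  intro l
  induction l with
  | nil => intro h; exact absurd List.nodup_nil h
  | cons k l ih =>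
    intro h
    rw [List.map_cons, List.prod_cons]
    rw [List.nodup_cons, not_and_or, not_not] at h
    rcases h with h | h
    · exact h1 l k h
    · rw [ih h, mul_zero]

/-- a functional detecting the word `e_0 ⋯ e_{n-1}` -/
theorem word_functional (he : IsGrassmann F e) (n : ℕ) :
    ∃ ψ : G →ₗ[F] F, ψ (gw e (List.range n)) = 1 := by
  obtain ⟨φ, hφ⟩ := he.free (ExteriorAlgebra F (ℕ →₀ F))
    (fun i => ExteriorAlgebra.ι F (Finsupp.single i 1))
    (fun i j => ExteriorAlgebra.ι_add_mul_swap _ _)
  let f : ∀ i, (ℕ →₀ F) [⋀^Fin i]→ₗ[F] F := fun i =>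
    (Matrix.detRowAlternating (n := Fin i) (R := F)).compLinearMap
      (LinearMap.pi fun k : Fin i => Finsupp.lapply (k : ℕ))
  refine ⟨(ExteriorAlgebra.liftAlternating (R := F) f).comp φ.toLinearMap, ?_⟩
  have e1 : φ (gw e (List.range n)) = ExteriorAlgebra.ιMulti F n
      (fun i : Fin n => (Finsupp.single (i : ℕ) (1 : F) : ℕ →₀ F)) := by
    rw [ExteriorAlgebra.ιMulti_apply]
    unfold gw
    rw [map_list_prod, List.map_map]
    congr 1
    apply List.ext_getElem
    · simp
    · intro k h1 h2
      simp [hφ]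
  rw [LinearMap.comp_apply, AlgHom.toLinearMap_apply, e1,
    ExteriorAlgebra.liftAlternating_apply_ιMulti]
  show Matrix.det (fun i : Fin n => fun k : Fin n =>
    (Finsupp.single (i : ℕ) (1 : F) : ℕ →₀ F) (k : ℕ)) = 1
  have : (fun i : Fin n => fun k : Fin n => (Finsupp.single (i : ℕ) (1 : F) : ℕ →₀ F) (k : ℕ))
      = (1 : Matrix (Fin n) (Fin n) F) := by
    funext i k
    rw [Matrix.one_apply, Finsupp.single_apply]
    simp [Fin.ext_iff]
  rw [this, Matrix.det_one]

/-- words of every parity and large length on consecutive letters -/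
theorem exists_word (m : ℕ) (p : ZMod 2) : ∃ n : ℕ, m ≤ n ∧ ((n : ℕ) : ZMod 2) = p := by
  refine ⟨2 * m + p.val, by omega, ?_⟩
  push_cast
  have : (2 : ZMod 2) = 0 := by decide
  rw [this, zero_mul, zero_add]
  exact ZMod.natCast_zmod_val p

/-- three homogeneous elements with product detected by a functional -/
theorem three_words (he : IsGrassmann F e) (m : ℕ) (p q r : ZMod 2) : ∃ g ∈ Gw F e m p,
    ∃ h ∈ Gw F e m q, ∃ k ∈ Gw F e m r, ∃ ψ : G →ₗ[F] F, ψ (g * (h * k)) = 1 := by
  obtain ⟨a, ha1, ha2⟩ := exists_word m p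
  obtain ⟨b, hb1, hb2⟩ := exists_word m q
  obtain ⟨c, hc1, hc2⟩ := exists_word m r
  obtain ⟨ψ, hψ⟩ := word_functional he (a + b + c)
  refine ⟨gw e (List.range' 0 a), Submodule.subset_span ⟨_, by simpa using ha1,
      by simpa using ha2, rfl⟩,
    gw e (List.range' a b), Submodule.subset_span ⟨_, by simpa using hb1,
      by simpa using hb2, rfl⟩,
    gw e (List.range' (a + b) c), Submodule.subset_span ⟨_, by simpa using hc1,
      by simpa using hc2, rfl⟩, ψ, ?_⟩
  rw [← gw_append, ← gw_append]
  have e1 : List.range' 0 a ++ (List.range' a b ++ List.range' (a + b) c)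
      = List.range (a + b + c) := by
    rw [List.range'_append_1, List.range_eq_range']
    have := List.range'_append_1 (s := 0) (m := a) (n := b + c)
    rw [Nat.zero_add] at this
    rw [this, add_assoc]
  rw [e1, hψ]

end Pool.Agent.H163R3
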