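import Pool.Agent.H163R3.Str

set_option autoImplicit false

namespace Pool.Agent.H163R3

universe u

variable {F : Type u} [Field F]

theorem W_le' [CharZero F] {rem : List ℕ} (hp : rem.Pairwise (· < ·)) (κ : ℕ → ℤ)
    (hs : ∀ i ∉ rem.toFinset, κ i = 0) :
    W F κ ≤ Hs F rem.toFinset κ ⊔ Submodule.span F {Pw F rem κ} := by
  unfold W
  rw [Submodule.span_le]
  rintro _ ⟨l, hl, rfl⟩
  have hκ : cnt l = κ := funext hl
  have h := straight (F := F) rem.toFinset rem hp
    (fun i hi => by simpa using hi) 1 0 (by simp) one_mem l (by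
      intro i hi
      by_contra hcon
      have h1 := hl i
      rw [hs i (by simpa using hcon)] at h1
      have h2 : 0 < l.count i := List.count_pos_iff.mpr hi
      omega)
  rw [zero_add, hκ, one_mul, one_mul] at h
  exact h

open Polynomial in
theorem sep_Hs {T : Finset ℕ} {κ : ℕ → ℤ} {q : F[X]}
    (hq : ∀ a ∈ T, ∀ b ∈ T, a < b → ∀ w ∈ W F (κ + Pi.single a 1 - Pi.single b 1),
        aeval (Cas F T) q w = 0) {h : Op F} (hh : h ∈ Hs F T κ) :
    aeval (Cas F T) q h = 0 := by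
  unfold Hs at hh
  induction hh using Submodule.span_induction with
  | zero => simp
  | add p q _ _ h1 h2 => rw [map_add, h1, h2, add_zero]
  | smul k p _ h => rw [map_smul, h, smul_zero]
  | mem y hy =>
    obtain ⟨a, ha, b, hb, hab, w, hw, rfl⟩ := hy
    rw [aeval_comm T q hb ha, hq a ha b hb hab w hw, map_zero]

/-- highest weight vectors for the letters in `T` -/
def IsHw (T : Finset ℕ) (f : Op F) : Prop := ∀ a ∈ T, ∀ b ∈ T, a < b → E F a b f = 0

theorem Cas_hw {T : Finset ℕ} {κ : ℕ → ℤ} {f : Op F} (hf : f ∈ W F κ) (hw : IsHw T f) :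
    Cas F T f = ((cc T κ : ℤ) : F) • f := by
  rw [Cas_val T hf]
  have : ∑ a ∈ T, ∑ b ∈ T, (if a < b then E F b a (E F a b f) else 0) = 0 := by
    refine Finset.sum_eq_zero fun a ha => Finset.sum_eq_zero fun b hb => ?_
    split_ifs with h
    · rw [hw a ha b hb h, map_zero]
    · rfl
  rw [this, smul_zero, add_zero]

theorem lead_exists [CharZero F] {rem : List ℕ} (hp : rem.Pairwise (· < ·)) {κ : ℕ → ℤ}
    (hs : ∀ i ∉ rem.toFinset, κ i = 0) {u : Op F} (hu : u ∈ W F κ) :
    ∃ c : F, u - c • Pw F rem κ ∈ Hs F rem.toFinset κ := by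
  have h := W_le' hp κ hs hu
  rw [Submodule.mem_sup] at h
  obtain ⟨h1, hh1, h2, hh2, rfl⟩ := h
  rw [Submodule.mem_span_singleton] at hh2
  obtain ⟨c, rfl⟩ := hh2
  exact ⟨c, by simpa using hh1⟩

open Polynomial in
theorem hw_data [CharZero F] {rem : List ℕ} (hp : rem.Pairwise (· < ·)) {κ : ℕ → ℤ}
    (hs : ∀ i ∉ rem.toFinset, κ i = 0) (hA : Anti rem.toFinset κ) :
    ∃ (q : F[X]) (e : F), e ≠ 0 ∧
      (∀ f : Op F, f ∈ W F κ → IsHw rem.toFinset f → ∀ c : F,
        f - c • Pw F rem κ ∈ Hs F rem.toFinset κ →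
        e • f = c • aeval (Cas F rem.toFinset) q (Pw F rem κ)) ∧
      (∀ u : Op F, ∀ c : F, u - c • Pw F rem κ ∈ Hs F rem.toFinset κ →
        aeval (Cas F rem.toFinset) q u = c • aeval (Cas F rem.toFinset) q (Pw F rem κ)) := by
  obtain ⟨q, hq1, hq2⟩ := exists_sep (F := F) rem.toFinset κ hs hA
  have key : ∀ u : Op F, ∀ c : F, u - c • Pw F rem κ ∈ Hs F rem.toFinset κ →
        aeval (Cas F rem.toFinset) q u = c • aeval (Cas F rem.toFinset) q (Pw F rem κ) := by
    intro u c hc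
    have := sep_Hs hq2 hc
    rw [map_sub, map_smul, sub_eq_zero] at this
    exact this
  refine ⟨q, q.eval ((cc rem.toFinset κ : ℤ) : F), hq1, ?_, key⟩
  intro f hf hw c hc
  rw [← key f c hc]
  have h1 : Cas F rem.toFinset f - ((cc rem.toFinset κ : ℤ) : F) • f ∈
      (⊥ : Submodule F (Op F)) := by
    rw [Submodule.mem_bot, Cas_hw hf hw, sub_self]
  have h2 := aeval_eigen rem.toFinset (K := ⊥) (Cas_stab stab_bot) q h1
  rw [Submodule.mem_bot, sub_eq_zero] at h2
  exact h2.symm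

theorem hw_lead [CharZero F] {rem : List ℕ} (hp : rem.Pairwise (· < ·)) {κ : ℕ → ℤ}
    (hs : ∀ i ∉ rem.toFinset, κ i = 0) (hA : Anti rem.toFinset κ) {f : Op F}
    (hf : f ∈ W F κ) (hw : IsHw rem.toFinset f) (h0 : f ≠ 0) :
    ∃ c : F, c ≠ 0 ∧ f - c • Pw F rem κ ∈ Hs F rem.toFinset κ := by
  obtain ⟨c, hc⟩ := lead_exists hp hs hf
  refine ⟨c, ?_, hc⟩
  rintro rfl
  obtain ⟨q, e, he, h1, _⟩ := hw_data (F := F) hp hs hA
  have := h1 f hf hw 0 hc
  rw [zero_smul, smul_eq_zero] at this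
  exact this.elim he h0

theorem hw_unique [CharZero F] {rem : List ℕ} (hp : rem.Pairwise (· < ·)) {κ : ℕ → ℤ}
    (hs : ∀ i ∉ rem.toFinset, κ i = 0) (hA : Anti rem.toFinset κ) {f g : Op F}
    (hf : f ∈ W F κ) (hw : IsHw rem.toFinset f) (h0 : f ≠ 0)
    (hg : g ∈ W F κ) (hwg : IsHw rem.toFinset g) : ∃ c : F, g = c • f := by
  obtain ⟨c, hc0, hc⟩ := hw_lead hp hs hA hf hw h0
  obtain ⟨d, hd⟩ := lead_exists hp hs hg
  obtain ⟨q, e, he, h1, _⟩ := hw_data (F := F) hp hs hA
  have h2 := h1 f hf hw c hc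
  have h3 := h1 g hg hwg d hd
  refine ⟨d / c, ?_⟩
  have h4 : e • g = e • ((d / c) • f) := by
    rw [h3, smul_comm, h2, smul_smul, div_mul_cancel₀ _ hc0]
  exact smul_right_injective (Op F) he h4

theorem mem_of_lead [CharZero F] {rem : List ℕ} (hp : rem.Pairwise (· < ·)) {κ : ℕ → ℤ}
    (hs : ∀ i ∉ rem.toFinset, κ i = 0) (hA : Anti rem.toFinset κ) {f : Op F}
    (hf : f ∈ W F κ) (hw : IsHw rem.toFinset f)
    {K : Submodule F (Op F)} (hK : Stab K) {u : Op F} (hu : u ∈ K) {c : F} (hc0 : c ≠ 0)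
    (hc : u - c • Pw F rem κ ∈ Hs F rem.toFinset κ) : f ∈ K := by
  obtain ⟨q, e, he, h1, h2⟩ := hw_data (F := F) hp hs hA
  obtain ⟨d, hd⟩ := lead_exists hp hs hf
  have h3 := h1 f hf hw d hd
  have h4 := h2 u c hc
  have h5 : Polynomial.aeval (Cas F rem.toFinset) q u ∈ K := aeval_mem (Cas_stab hK) q hu
  rw [h4] at h5
  have h6 : Polynomial.aeval (Cas F rem.toFinset) q (Pw F rem κ) ∈ K := by
    have := Submodule.smul_mem K c⁻¹ h5
    rwa [smul_smul, inv_mul_cancel₀ hc0, one_smul] at this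
  have h7 := Submodule.smul_mem K (e⁻¹ * d) h6
  rw [mul_smul, ← h3, smul_smul, inv_mul_cancel₀ he, one_smul] at h7
  exact h7

/-- two stable subspaces are separated by highest weight vectors -/
theorem hw_sep [CharZero F] (T : Finset ℕ) {K K' : Submodule F (Op F)} (hK : Stab K)
    (hK' : Stab K') : ∀ (n : ℕ) (κ : ℕ → ℤ), (∀ i ∉ T, κ i = 0) →
    (∑ a ∈ T, (a : ℤ) * κ a) < n → ∀ v, v ∈ W F κ → v ∈ K' → v ∉ K →
    ∃ κ' : ℕ → ℤ, (∀ i ∉ T, κ' i = 0) ∧ Anti T κ' ∧ (∀ i, 0 ≤ κ' i) ∧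
      ∃ f, f ∈ W F κ' ∧ IsHw T f ∧ f ∈ K' ∧ f ∉ K := by
  have hnn : ∀ (κ : ℕ → ℤ) (v : Op F), v ∈ W F κ → v ∉ K → ∀ i, 0 ≤ κ i := by
    intro κ v hv hvK i
    by_contra hcon
    push Not at hcon
    exact hvK (by rw [W_neg hcon hv]; exact K.zero_mem)
  intro n
  induction n with
  | zero =>
    intro κ hs hm v hv hvK' hvK
    exfalso
    have h1 := hnn κ v hv hvK
    have : 0 ≤ ∑ a ∈ T, (a : ℤ) * κ a :=
      Finset.sum_nonneg fun a _ => mul_nonneg (by positivity) (h1 a)
    simp at hm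
    omega
  | succ n ih =>
    intro κ hs hm v hv hvK' hvK
    by_cases hex : ∃ a ∈ T, ∃ b ∈ T, a < b ∧ E F a b v ∉ K
    · obtain ⟨a, ha, b, hb, hab, hE⟩ := hex
      refine ih (κ + Pi.single a 1 - Pi.single b 1) ?_ ?_ _ (E_W a b hv) (hK' _ _ _ hvK') hE
      · intro i hi
        have h1 : i ≠ a := fun h => hi (h ▸ ha)
        have h2 : i ≠ b := fun h => hi (h ▸ hb)
        simp [h1, h2, hs i hi]
      · have e : ∑ i ∈ T, (i : ℤ) * (κ + Pi.single a 1 - Pi.single b 1 : ℕ → ℤ) i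
            = ∑ i ∈ T, (i : ℤ) * κ i + a - b := by
          simp only [Pi.add_apply, Pi.sub_apply, mul_add, mul_sub, Finset.sum_add_distrib,
            Finset.sum_sub_distrib]
          congr 1
          · congr 1
            rw [Finset.sum_eq_single a]
            · simp
            · intro i _ hi; simp [hi]
            · intro h; exact absurd ha h
          · rw [Finset.sum_eq_single b]
            · simp
            · intro i _ hi; simp [hi]
            · intro h; exact absurd hb h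
        rw [e]
        push_cast at hm
        have : (a : ℤ) < b := by exact_mod_cast hab
        omega
    · push Not at hex
      by_cases hanti : Anti T κ
      · obtain ⟨q, hq1, hq2⟩ := exists_sep (F := F) T κ hs hanti
        refine ⟨κ, hs, hanti, hnn κ v hv hvK, Polynomial.aeval (Cas F T) q v,
          aeval_mem (fun u hu => Cas_W T hu) q hv, ?_, aeval_mem (Cas_stab hK') q hvK', ?_⟩
        · intro a ha b hb hab
          rw [← aeval_comm T q ha hb, hq2 a ha b hb hab _ (E_W a b hv)]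
        · intro hcon
          have h1 : Cas F T v - ((cc T κ : ℤ) : F) • v ∈ K := by
            rw [Cas_val T hv, add_sub_cancel_left]
            apply Submodule.smul_mem
            refine Submodule.sum_mem _ fun a ha => Submodule.sum_mem _ fun b hb => ?_
            split_ifs with h
            · exact hK _ _ _ (hex a ha b hb h)
            · exact K.zero_mem
          have h2 := aeval_eigen T (Cas_stab hK) q h1
          have h3 := Submodule.sub_mem _ hcon h2
          rw [sub_sub_cancel] at h3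
          have h4 := Submodule.smul_mem K (q.eval ((cc T κ : ℤ) : F))⁻¹ h3
          rw [smul_smul, inv_mul_cancel₀ hq1, one_smul] at h4
          exact hvK h4
      · exfalso
        unfold Anti at hanti
        push Not at hanti
        obtain ⟨a, ha, b, hb, hab, hlt⟩ := hanti
        exact hvK (sl2 hK hab.ne hv (hex a ha b hb hab) hlt)

/-- homogeneous components -/
theorem comp_mem [CharZero F] {K : Submodule F (Op F)} (hK : Stab K) :
    ∀ (n : ℕ) (S : Finset (ℕ → ℤ)) (v : (ℕ → ℤ) → Op F), S.card = n →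
      (∀ κ ∈ S, v κ ∈ W F κ) → ∑ κ ∈ S, v κ ∈ K → ∀ κ ∈ S, v κ ∈ K := by
  classical
  intro n
  induction n with
  | zero =>
    intro S v hS _ _ κ hκ
    rw [Finset.card_eq_zero] at hS
    rw [hS] at hκ
    simp at hκ
  | succ n ih =>
    intro S v hS hv hsum κ0 hκ0
    by_cases hone : ∃ κ1 ∈ S, κ1 ≠ κ0
    · obtain ⟨κ1, hκ1, hne⟩ := hone
      obtain ⟨a, ha⟩ := Function.ne_iff.mp hne
      have h1 := hK a a _ hsum
      have h2 := Submodule.sub_mem _ h1 (Submodule.smul_mem K ((κ1 a : ℤ) : F) hsum)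
      have e : E F a a (∑ κ ∈ S, v κ) - ((κ1 a : ℤ) : F) • ∑ κ ∈ S, v κ
          = ∑ κ ∈ S.erase κ1, (((κ a - κ1 a : ℤ)) : F) • v κ := by
        rw [map_sum, Finset.smul_sum, ← Finset.sum_sub_distrib,
          ← Finset.add_sum_erase S _ hκ1]
        rw [E_diag a (hv κ1 hκ1), sub_self, zero_add]
        refine Finset.sum_congr rfl fun κ hκ => ?_
        rw [E_diag a (hv κ (Finset.mem_of_mem_erase hκ)), Int.cast_sub, sub_smul]
      rw [e] at h2
      have h3 := ih (S.erase κ1) (fun κ => (((κ a - κ1 a : ℤ)) : F) • v κ)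
        (by rw [Finset.card_erase_of_mem hκ1, hS]; rfl)
        (fun κ hκ => Submodule.smul_mem _ _ (hv κ (Finset.mem_of_mem_erase hκ))) h2 κ0
        (Finset.mem_erase.mpr ⟨Ne.symm hne, hκ0⟩)
      have hne0 : (((κ0 a - κ1 a : ℤ)) : F) ≠ 0 := by
        rw [Int.cast_ne_zero, sub_ne_zero]
        exact Ne.symm ha
      have h4 := Submodule.smul_mem K ((((κ0 a - κ1 a : ℤ)) : F))⁻¹ h3
      rwa [smul_smul, inv_mul_cancel₀ hne0, one_smul] at h4
    · push Not at hone
      have : S = {κ0} := by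
        ext κ
        rw [Finset.mem_singleton]
        exact ⟨hone κ, fun h => h ▸ hκ0⟩
      rw [this, Finset.sum_singleton] at hsum
      exact hsum

theorem le_of_hom [CharZero F] {K K2 : Submodule F (Op F)} (hK : Stab K)
    (h : ∀ κ, ∀ u ∈ K, u ∈ W F κ → u ∈ K2) : K ≤ K2 := by
  classical
  intro u hu
  have htop : u ∈ ⨆ κ, W F κ := by
    have : (⊤ : Submodule F (Op F)) ≤ ⨆ κ, W F κ := by
      rw [← span_wd, Submodule.span_le]
      rintro _ ⟨l, rfl⟩
      exact Submodule.mem_iSup_of_mem _ (wd_mem l)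
    exact this trivial
  rw [Submodule.mem_iSup_iff_exists_finsupp] at htop
  obtain ⟨g, hg, hsum⟩ := htop
  rw [Finsupp.sum] at hsum
  have h1 := comp_mem hK _ g.support g rfl (fun κ _ => hg κ) (by rw [hsum]; exact hu)
  rw [← hsum]
  exact Submodule.sum_mem _ fun κ hκ => h κ _ (h1 κ hκ) (hg κ)

end Pool.Agent.H163R3
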