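import Pool.Agent.H163R3.Specht

set_option autoImplicit false

namespace Pool.Agent.H163R3

universe u

variable {F : Type u} [Field F]

/-- standard polynomial in the free associative algebra -/
noncomputable def sF (F : Type u) [Field F] (h : ℕ) : FreeAlgebra F ℕ :=
  alt F h fun i => FreeAlgebra.ι F (i : ℕ)

/-- test polynomials -/
noncomputable def tp (F : Type u) [Field F] (h C : ℕ) : Fr F :=
  (ev F (fun i => X F (i + 1)) (sF F h ^ C)).unop (X F 0)

/-- right multiplications -/
noncomputable def RO (F : Type u) [Field F] {B : Type u} [NonUnitalNonAssocRing B] [Module F B]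
    [IsScalarTower F B B] [SMulCommClass F B B] (t : B) : (Module.End F B)ᵐᵒᵖ :=
  MulOpposite.op (LinearMap.mulRight F t)

theorem tp_eval {B : Type u} [NonUnitalNonAssocRing B] [Module F B]
    [IsScalarTower F B B] [SMulCommClass F B B] (φ : Fr F →ₙₐ[F] B) (h C : ℕ) :
    φ (tp F h C) = ((alt F h fun i => RO F (φ (X F ((i : ℕ) + 1)))) ^ C).unop (φ (X F 0)) := by
  unfold tp
  rw [ev_hom, map_pow]
  unfold sF
  rw [map_alt (B := (Module.End F B)ᵐᵒᵖ) (ev F fun i => φ (X F (i + 1)))]
  simp [ev, RO]

/-! ### the model algebra -/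

/-- the underlying space -/
def Md (F : Type u) [Field F] : Type u := (ℕ →₀ F) × MM F

noncomputable instance : AddCommGroup (Md F) :=
  inferInstanceAs (AddCommGroup ((ℕ →₀ F) × MM F))
noncomputable instance : Module F (Md F) :=
  inferInstanceAs (Module F ((ℕ →₀ F) × MM F))

/-- first component -/
noncomputable def pa (F : Type u) [Field F] : Md F →ₗ[F] (ℕ →₀ F) :=
  LinearMap.fst F (ℕ →₀ F) (MM F)
/-- second component -/
noncomputable def pb (F : Type u) [Field F] : Md F →ₗ[F] MM F :=
  LinearMap.snd F (ℕ →₀ F) (MM F)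
/-- pairs -/
noncomputable def md (v : ℕ →₀ F) (m : MM F) : Md F := (v, m)

@[simp] theorem pa_md (v : ℕ →₀ F) (m : MM F) : pa F (md v m) = v := rfl
@[simp] theorem pb_md (v : ℕ →₀ F) (m : MM F) : pb F (md v m) = m := rfl

theorem Md_ext {p q : Md F} (h1 : pa F p = pa F q) (h2 : pb F p = pb F q) : p = q :=
  Prod.ext h1 h2

/-- operators -/
noncomputable def Rop (F : Type u) [Field F] : (ℕ →₀ F) →ₗ[F] Module.End F (MM F) :=
  Finsupp.linearCombination F (XX F)

theorem Rop_single (i : ℕ) (r : F) : Rop F (Finsupp.single i r) = r • XX F i := by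
  unfold Rop; rw [Finsupp.linearCombination_single]

noncomputable instance : Mul (Md F) := ⟨fun p q => md 0 (Rop F (pa F q) (pb F p))⟩

theorem Md_mul (p q : Md F) : p * q = md 0 (Rop F (pa F q) (pb F p)) := rfl

noncomputable instance : NonUnitalNonAssocRing (Md F) where
  left_distrib p q r := by
    apply Md_ext <;> simp [Md_mul]
  right_distrib p q r := by
    apply Md_ext <;> simp [Md_mul]
  zero_mul p := by
    apply Md_ext <;> simp [Md_mul]
  mul_zero p := by
    apply Md_ext <;> simp [Md_mul]

instance : IsScalarTower F (Md F) (Md F) := ⟨fun c p q => by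
  show (c • p) * q = c • (p * q)
  apply Md_ext <;> simp [Md_mul]⟩

instance : SMulCommClass F (Md F) (Md F) := ⟨fun c p q => by
  show c • (p * q) = p * (c • q)
  apply Md_ext <;> simp [Md_mul]⟩

theorem Rop_rel (a b c : ℕ →₀ F) (m : MM F) :
    Rop F c (Rop F b (Rop F a m)) + Rop F c (Rop F a (Rop F b m))
      = Rop F b (Rop F a (Rop F c m)) + Rop F a (Rop F b (Rop F c m)) := by
  induction a using Finsupp.induction_linear with
  | zero => simp
  | add p q h1 h2 =>
    simp only [map_add, LinearMap.add_apply] at h1 h2 ⊢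
    calc _ = (Rop F c (Rop F b (Rop F p m)) + Rop F c (Rop F p (Rop F b m)))
          + (Rop F c (Rop F b (Rop F q m)) + Rop F c (Rop F q (Rop F b m))) := by abel
      _ = _ := by rw [h1, h2]; abel
  | single i r =>
  induction b using Finsupp.induction_linear with
  | zero => simp
  | add p q h1 h2 =>
    simp only [map_add, LinearMap.add_apply] at h1 h2 ⊢
    calc _ = (Rop F c (Rop F p (Rop F (Finsupp.single i r) m))
            + Rop F c (Rop F (Finsupp.single i r) (Rop F p m)))
          + (Rop F c (Rop F q (Rop F (Finsupp.single i r) m))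
            + Rop F c (Rop F (Finsupp.single i r) (Rop F q m))) := by abel
      _ = _ := by rw [h1, h2]; abel
  | single j s =>
  induction c using Finsupp.induction_linear with
  | zero => simp
  | add p q h1 h2 =>
    simp only [map_add, LinearMap.add_apply] at h1 h2 ⊢
    calc _ = (Rop F p (Rop F (Finsupp.single j s) (Rop F (Finsupp.single i r) m))
            + Rop F p (Rop F (Finsupp.single i r) (Rop F (Finsupp.single j s) m)))
          + (Rop F q (Rop F (Finsupp.single j s) (Rop F (Finsupp.single i r) m))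
            + Rop F q (Rop F (Finsupp.single i r) (Rop F (Finsupp.single j s) m))) := by abel
      _ = _ := by rw [h1, h2]; abel
  | single k t =>
    have h := LinearMap.congr_fun (XX_rel (F := F) i j k) m
    simp only [Rop_single, LinearMap.smul_apply, map_smul]
    simp only [Module.End.mul_apply, LinearMap.add_apply, map_add] at h
    have h2 : XX F k (XX F j (XX F i m)) + XX F k (XX F i (XX F j m))
        = XX F j (XX F i (XX F k m)) + XX F i (XX F j (XX F k m)) := by
      rw [add_comm, ← h, add_comm]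
    calc _ = (r * s * t) • (XX F k (XX F j (XX F i m)) + XX F k (XX F i (XX F j m))) := by
          module
      _ = _ := by rw [h2]; module

theorem Md_var : InVar F (V0 F) (Md F) := by
  intro f hf φ
  unfold V0 at hf
  rcases hf with hf | hf
  · rw [hf]
    apply Md_ext <;> simp [Md_mul]
  · rw [Set.mem_singleton_iff] at hf
    rw [hf]
    apply Md_ext
    · simp [Md_mul]
    · simp only [map_sub, map_add, map_mul, Md_mul, pb_md, map_zero]
      rw [Rop_rel]
      abel

/-- monomial operators -/
def MonoOp (T : (Module.End F (MM F))ᵐᵒᵖ) : Prop := ∀ α : ℕ →₀ ℕ, ∃ (β : ℕ →₀ ℕ) (c : F),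
  c ≠ 0 ∧ T.unop (Finsupp.single α 1) = Finsupp.single β c

theorem MonoOp_one : MonoOp (1 : (Module.End F (MM F))ᵐᵒᵖ) :=
  fun α => ⟨α, 1, one_ne_zero, rfl⟩

theorem MonoOp.mul {f g : (Module.End F (MM F))ᵐᵒᵖ} (hf : MonoOp f) (hg : MonoOp g) :
    MonoOp (f * g) := by
  intro α
  obtain ⟨β, c, hc, h1⟩ := hf α
  obtain ⟨γ, d, hd, h2⟩ := hg β
  refine ⟨γ, c * d, mul_ne_zero hc hd, ?_⟩
  rw [MulOpposite.unop_mul, Module.End.mul_apply, h1]
  have : (Finsupp.single β c : MM F) = c • Finsupp.single β 1 := by simp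
  rw [this, map_smul, h2, Finsupp.smul_single, smul_eq_mul]

theorem MonoOp.smul {f : (Module.End F (MM F))ᵐᵒᵖ} {c : F} (hc : c ≠ 0) (hf : MonoOp f) :
    MonoOp (c • f) := by
  intro α
  obtain ⟨β, d, hd, h1⟩ := hf α
  refine ⟨β, c * d, mul_ne_zero hc hd, ?_⟩
  rw [MulOpposite.unop_smul, LinearMap.smul_apply, h1, Finsupp.smul_single, smul_eq_mul]

theorem MonoOp.pow {f : (Module.End F (MM F))ᵐᵒᵖ} (hf : MonoOp f) (n : ℕ) : MonoOp (f ^ n) := by
  induction n with
  | zero => rw [pow_zero]; exact MonoOp_one
  | succ n ih => rw [pow_succ]; exact ih.mul hf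

theorem MonoOp_mp : ∀ (h : ℕ) (t : Fin h → ℕ),
    MonoOp (mp F h fun i => MulOpposite.op (XX F (t i)))
  | 0, t => by
    have : mp F 0 (fun i => MulOpposite.op (XX F (t i))) = 1 := by simp [mp_apply]
    rw [this]; exact MonoOp_one
  | h + 1, t => by
    rw [mp_succ]
    refine MonoOp.mul ?_ (MonoOp_mp h fun k => t k.succ)
    intro α
    exact ⟨_, sg F α (t 0), sg_ne _ _, by rw [MulOpposite.unop_op, XX_single, one_mul]⟩

theorem MonoOp_alt [CharZero F] (h : ℕ) :
    MonoOp (alt F h fun i => MulOpposite.op (XX F ((i : Fin h) : ℕ))) := by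
  have e : (alt F h fun i => MulOpposite.op (XX F ((i : Fin h) : ℕ)))
      = (h.factorial : F) • mp F h fun i => MulOpposite.op (XX F ((i : Fin h) : ℕ)) := by
    rw [alt_apply]
    have : ∀ σ : Equiv.Perm (Fin h), Equiv.Perm.sign σ
        • mp F h (fun i => MulOpposite.op (XX F ((σ i : Fin h) : ℕ)))
        = mp F h (fun i => MulOpposite.op (XX F ((i : Fin h) : ℕ))) := by
      intro σ
      rw [perm_sign F h σ (fun i => MulOpposite.op (XX F ((i : Fin h) : ℕ))) (fun i j hij => by
          rw [← MulOpposite.op_mul, ← MulOpposite.op_mul, ← MulOpposite.op_neg,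
            XX_anti (fun h => hij (Fin.ext h.symm))]),
        smul_smul, Int.units_mul_self, one_smul]
    rw [Finset.sum_congr rfl (fun σ _ => this σ), Finset.sum_const, Finset.card_univ,
      Fintype.card_perm, Fintype.card_fin]
    exact (Nat.cast_smul_eq_nsmul F _ _).symm
  rw [e]
  exact MonoOp.smul (by exact_mod_cast h.factorial_ne_zero) (MonoOp_mp h _)

/-- the second component -/
theorem Md_ev (w : FreeAlgebra F ℕ) : ∀ m : MM F,
    (ev F (fun i => md (Finsupp.single i (1 : F)) 0) w).unop (md 0 m)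
    = md 0 ((FreeAlgebra.lift F (fun i => MulOpposite.op (XX F i)) w).unop m) := by
  induction w using FreeAlgebra.induction with
  | grade0 r =>
    intro m
    rw [AlgHom.commutes, AlgHom.commutes]
    simp only [MulOpposite.algebraMap_apply, MulOpposite.unop_op, Module.algebraMap_end_apply]
    apply Md_ext <;> simp
  | grade1 i =>
    intro m
    simp only [ev, FreeAlgebra.lift_ι_apply, MulOpposite.unop_op, LinearMap.mulRight_apply]
    rw [Md_mul, pa_md, pb_md, Rop_single, one_smul]
  | add p q hp hq =>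
    intro m
    simp only [map_add, MulOpposite.unop_add, LinearMap.add_apply, hp, hq]
    apply Md_ext <;> simp
  | mul p q hp hq =>
    intro m
    simp only [map_mul, MulOpposite.unop_mul, Module.End.mul_apply, hp, hq]

theorem Md_tp [CharZero F] (h C : ℕ) : ¬ Sat F (Md F) (tp F h C) := by
  intro hs
  set φ : Fr F →ₙₐ[F] Md F := FreeNonUnitalNonAssocAlgebra.lift F (fun i =>
    if i = 0 then md 0 (Finsupp.single 0 1) else md (Finsupp.single (i - 1) 1) 0) with hφ
  have h1 := hs φ
  unfold tp at h1
  rw [ev_hom] at h1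
  have e1 : (fun i => φ (X F (i + 1))) = fun i => md (Finsupp.single i (1 : F)) 0 := by
    funext i
    simp [hφ, X]
  have e2 : φ (X F 0) = md 0 (Finsupp.single 0 1) := by
    simp [hφ, X]
  rw [e1, e2, Md_ev] at h1
  have h2 := congrArg (pb F) h1
  rw [pb_md, map_zero, map_pow] at h2
  unfold sF at h2
  rw [map_alt (B := (Module.End F (MM F))ᵐᵒᵖ)
    (FreeAlgebra.lift F (fun i => MulOpposite.op (XX F i)))] at h2
  simp only [FreeAlgebra.lift_ι_apply] at h2
  obtain ⟨β, c, hc, h4⟩ := (MonoOp_alt (F := F) h).pow C 0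
  rw [h4] at h2
  have := congrArg (fun w => w β) h2
  simp at this
  exact hc this

end Pool.Agent.H163R3
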