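import Pool.Agent.H163R3.TIdeal

set_option autoImplicit false

namespace Pool.Agent.H163R3

universe u

variable {F : Type u} [Field F]

/-! ### elements of bounded degree -/

/-- letters of a tree -/
def letters : FreeMagma ℕ → Finset ℕ
  | FreeMagma.of i => {i}
  | FreeMagma.mul a b => letters a ∪ letters b

theorem letters_of (i : ℕ) : letters (FreeMagma.of i) = {i} := rfl
theorem letters_mul (a b : FreeMagma ℕ) : letters (a * b) = letters a ∪ letters b := rfl
theorem len_mul (a b : FreeMagma ℕ) : (a * b).length = a.length + b.length := rfl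

theorem letters_card (m : FreeMagma ℕ) : (letters m).card ≤ m.length := by
  induction m using FreeMagma.recOnMul with
  | ih1 i => rw [letters_of, Finset.card_singleton]; exact le_rfl
  | ih2 a b ha hb =>
    rw [letters_mul, len_mul]
    exact (Finset.card_union_le _ _).trans (add_le_add ha hb)

/-- spans of trees -/
noncomputable def Sp (F : Type u) [Field F] (P : FreeMagma ℕ → Prop) : Submodule F (Fr F) :=
  Submodule.span F {u | ∃ m, P m ∧ tr F m = u}

theorem Sp_mono {P Q : FreeMagma ℕ → Prop} (h : ∀ m, P m → Q m) : Sp F P ≤ Sp F Q := by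
  apply Submodule.span_mono
  rintro _ ⟨m, hm, rfl⟩
  exact ⟨m, h m hm, rfl⟩

theorem Sp_map {P Q : FreeMagma ℕ → Prop} (φ : Fr F →ₗ[F] Fr F)
    (h : ∀ m, P m → φ (tr F m) ∈ Sp F Q) {f : Fr F} (hf : f ∈ Sp F P) : φ f ∈ Sp F Q := by
  unfold Sp at hf
  induction hf using Submodule.span_induction with
  | zero => rw [map_zero]; exact Submodule.zero_mem _
  | add p q _ _ h1 h2 => rw [map_add]; exact Submodule.add_mem _ h1 h2
  | smul k p _ h => rw [map_smul]; exact Submodule.smul_mem _ _ h
  | mem y hy =>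
    obtain ⟨m, hm, rfl⟩ := hy
    exact h m hm

theorem tr_Sp {P : FreeMagma ℕ → Prop} {m : FreeMagma ℕ} (h : P m) : tr F m ∈ Sp F P :=
  Submodule.subset_span ⟨m, h, rfl⟩

/-- killing a letter -/
noncomputable def eps (F : Type u) [Field F] (i : ℕ) : Fr F →ₙₐ[F] Fr F :=
  FreeNonUnitalNonAssocAlgebra.lift F fun k => if k = i then 0 else X F k

theorem eps_tr (i : ℕ) (m : FreeMagma ℕ) :
    eps F i (tr F m) = if i ∈ letters m then 0 else tr F m := by
  induction m using FreeMagma.recOnMul with
  | ih1 j =>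
    rw [letters_of, tr_of]
    unfold eps
    by_cases h : j = i
    · subst h; simp [X]
    · have h2 : i ∉ ({j} : Finset ℕ) := by simpa using Ne.symm h
      rw [if_neg h2]
      simp [X, h]
  | ih2 a b ha hb =>
    rw [letters_mul, tr_mul, map_mul, ha, hb]
    by_cases h1 : i ∈ letters a
    · rw [if_pos h1, if_pos (Finset.mem_union_left _ h1), zero_mul]
    · by_cases h2 : i ∈ letters b
      · rw [if_pos h2, if_pos (Finset.mem_union_right _ h2), mul_zero]
      · rw [if_neg h1, if_neg h2, if_neg (by simp [h1, h2])]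

/-- renaming letters -/
noncomputable def ren (F : Type u) [Field F] (σ : ℕ → ℕ) : Fr F →ₙₐ[F] Fr F :=
  FreeNonUnitalNonAssocAlgebra.lift F fun k => X F (σ k)

theorem ren_tr (σ : ℕ → ℕ) (m : FreeMagma ℕ) : ∃ m', ren F σ (tr F m) = tr F m' ∧
    m'.length = m.length ∧ letters m' = (letters m).image σ := by
  induction m using FreeMagma.recOnMul with
  | ih1 j =>
    refine ⟨FreeMagma.of (σ j), ?_, rfl, ?_⟩
    · rw [tr_of, tr_of]; simp [ren, X]
    · rw [letters_of, letters_of, Finset.image_singleton]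
  | ih2 a b ha hb =>
    obtain ⟨a', h1, h2, h3⟩ := ha
    obtain ⟨b', h4, h5, h6⟩ := hb
    refine ⟨a' * b', ?_, ?_, ?_⟩
    · rw [tr_mul, map_mul, h1, h4, tr_mul]
    · rw [len_mul, len_mul, h2, h5]
    · rw [letters_mul, letters_mul, h3, h6, Finset.image_union]

theorem ren_ren {σ τ : ℕ → ℕ} (m : FreeMagma ℕ) (h : ∀ i ∈ letters m, τ (σ i) = i) :
    ren F τ (ren F σ (tr F m)) = tr F m := by
  induction m using FreeMagma.recOnMul with
  | ih1 j =>
    have h1 : τ (σ j) = j := h j (by rw [letters_of]; simp)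
    rw [tr_of]
    simp [ren, X, h1]
  | ih2 a b ha hb =>
    rw [tr_mul, map_mul, map_mul,
      ha (fun i hi => h i (by rw [letters_mul]; exact Finset.mem_union_left _ hi)),
      hb (fun i hi => h i (by rw [letters_mul]; exact Finset.mem_union_right _ hi))]

theorem ren_ren_Sp {σ τ : ℕ → ℕ} {n : ℕ} {U : Finset ℕ} (h2 : ∀ i ∈ U, τ (σ i) = i) {f : Fr F}
    (hf : f ∈ Sp F (fun m => m.length ≤ n ∧ letters m ⊆ U)) :
    ren F τ (ren F σ f) = f := by
  unfold Sp at hf
  induction hf using Submodule.span_induction with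
  | zero => simp
  | add p q _ _ h1 h2 => rw [map_add, map_add, h1, h2]
  | smul k p _ h => rw [map_smul, map_smul, h]
  | mem y hy =>
    obtain ⟨m, hm, rfl⟩ := hy
    exact ren_ren m (fun i hi => h2 i (hm.2 hi))

theorem low {I J : Submodule F (Fr F)} (hI : IsT I) (hJ : IsT J) (n : ℕ)
    (h : I ⊓ Sp F (fun m => m.length ≤ n ∧ letters m ⊆ Finset.range n) ≤ J) :
    ∀ (N : ℕ) (U : Finset ℕ), U.card = N → ∀ f ∈ I,
      f ∈ Sp F (fun m => m.length ≤ n ∧ letters m ⊆ U) → f ∈ J := by
  intro N
  induction N using Nat.strong_induction_on with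
  | _ N ih =>
  intro U hU f hfI hf
  by_cases hn : U.card ≤ n
  · set σ : ℕ → ℕ := fun i => U.toList.idxOf i with hσ
    set τ : ℕ → ℕ := fun k => U.toList.getD k 0 with hτ
    have h1 : ∀ i ∈ U, σ i < n := by
      intro i hi
      have : U.toList.idxOf i < U.toList.length :=
        List.idxOf_lt_length_iff.mpr (Finset.mem_toList.mpr hi)
      rw [Finset.length_toList] at this
      exact this.trans_le hn
    have h2 : ∀ i ∈ U, τ (σ i) = i := by
      intro i hi
      have : U.toList.idxOf i < U.toList.length :=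
        List.idxOf_lt_length_iff.mpr (Finset.mem_toList.mpr hi)
      simp only [hσ, hτ]
      rw [List.getD_eq_getElem _ _ this, List.getElem_idxOf]
    have h3 : ren F σ f ∈ Sp F (fun m => m.length ≤ n ∧ letters m ⊆ Finset.range n) := by
      refine Sp_map (ren F σ : Fr F →ₗ[F] Fr F) ?_ hf
      rintro m ⟨hm1, hm2⟩
      obtain ⟨m', e1, e2, e3⟩ := ren_tr (F := F) σ m
      have : (ren F σ : Fr F →ₗ[F] Fr F) (tr F m) = tr F m' := e1
      rw [this]
      apply tr_Sp
      refine ⟨by rw [e2]; exact hm1, ?_⟩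
      rw [e3]
      intro k hk
      rw [Finset.mem_image] at hk
      obtain ⟨i, hi, rfl⟩ := hk
      exact Finset.mem_range.mpr (h1 i (hm2 hi))
    have h4 : ren F σ f ∈ J := h ⟨hI.endo _ _ hfI, h3⟩
    have h5 : ren F τ (ren F σ f) ∈ J := hJ.endo _ _ h4
    rw [ren_ren_Sp h2 hf] at h5
    exact h5
  · have inner : ∀ V : Finset ℕ, V ⊆ U → ∀ f ∈ I,
        f ∈ Sp F (fun m => m.length ≤ n ∧ letters m ⊆ U ∧ U \ V ⊆ letters m) → f ∈ J := by
      intro V
      induction V using Finset.induction_on with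
      | empty =>
        intro _ f _ hf
        have : Sp F (fun m => m.length ≤ n ∧ letters m ⊆ U ∧ U \ ∅ ⊆ letters m) = ⊥ := by
          unfold Sp
          rw [Submodule.span_eq_bot]
          rintro _ ⟨m, ⟨h1, h2, h3⟩, rfl⟩
          exfalso
          rw [Finset.sdiff_empty] at h3
          have := Finset.card_le_card h3
          have := letters_card m
          omega
        rw [this, Submodule.mem_bot] at hf
        rw [hf]; exact J.zero_mem
      | insert i V hiV ihV =>
        intro hVU f hfI hf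
        have hiU : i ∈ U := hVU (Finset.mem_insert_self _ _)
        have h1 : eps F i f ∈ J := by
          refine ih (U.erase i).card ?_ (U.erase i) rfl _ (hI.endo _ _ hfI) ?_
          · rw [← hU]; exact Finset.card_erase_lt_of_mem hiU
          · refine Sp_map (eps F i : Fr F →ₗ[F] Fr F) ?_ hf
            rintro m ⟨hm1, hm2, hm3⟩
            have : (eps F i : Fr F →ₗ[F] Fr F) (tr F m) = eps F i (tr F m) := rfl
            rw [this, eps_tr]
            split_ifs with hi
            · exact Submodule.zero_mem _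
            · apply tr_Sp
              refine ⟨hm1, fun k hk => Finset.mem_erase.mpr ⟨?_, hm2 hk⟩⟩
              rintro rfl
              exact hi hk
        have h2 : f - eps F i f ∈ J := by
          refine ihV (fun k hk => hVU (Finset.mem_insert_of_mem hk)) _
            (Submodule.sub_mem _ hfI (hI.endo _ _ hfI)) ?_
          have e : f - eps F i f
              = ((LinearMap.id : Fr F →ₗ[F] Fr F) - (eps F i : Fr F →ₗ[F] Fr F)) f := rfl
          rw [e]
          refine Sp_map _ ?_ hf
          rintro m ⟨hm1, hm2, hm3⟩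
          have : ((LinearMap.id : Fr F →ₗ[F] Fr F) - (eps F i : Fr F →ₗ[F] Fr F)) (tr F m)
              = tr F m - eps F i (tr F m) := rfl
          rw [this, eps_tr]
          split_ifs with hi
          · rw [sub_zero]
            apply tr_Sp
            refine ⟨hm1, hm2, fun k hk => ?_⟩
            rw [Finset.mem_sdiff] at hk
            by_cases hki : k = i
            · rw [hki]; exact hi
            · apply hm3
              rw [Finset.mem_sdiff, Finset.mem_insert]
              tauto
          · rw [sub_self]; exact Submodule.zero_mem _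
        have h3 := J.add_mem h2 h1
        rwa [sub_add_cancel] at h3
    apply inner U subset_rfl f hfI
    refine Sp_mono ?_ hf
    rintro m ⟨h1, h2⟩
    exact ⟨h1, h2, by simp⟩

theorem fin_trees (N : ℕ) : ∀ n : ℕ,
    {m : FreeMagma ℕ | m.length ≤ n ∧ letters m ⊆ Finset.range N}.Finite := by
  intro n
  induction n with
  | zero =>
    convert Set.finite_empty
    ext m
    simp only [Set.mem_ofPred_eq, Set.mem_empty_iff_false, iff_false]
    rintro ⟨h, _⟩
    have := m.length_pos
    omega
  | succ n ih =>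
    refine Set.Finite.subset (((Finset.range N).finite_toSet.image FreeMagma.of).union
      (ih.image2 (fun a b => a * b) ih)) ?_
    rintro m ⟨h1, h2⟩
    induction m using FreeMagma.recOnMul with
    | ih1 i =>
      left
      rw [letters_of] at h2
      exact ⟨i, by simpa using h2, rfl⟩
    | ih2 a b _ _ =>
      right
      rw [letters_mul] at h2
      rw [len_mul] at h1
      have ha := a.length_pos
      have hb := b.length_pos
      exact ⟨a, ⟨by omega, Finset.union_subset_left h2⟩, b,
        ⟨by omega, Finset.union_subset_right h2⟩, rfl⟩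

theorem low_fg (I : Submodule F (Fr F)) (n : ℕ) : ∃ S : Finset (Fr F), (∀ s ∈ S, s ∈ I) ∧
    ∀ J : Submodule F (Fr F), (∀ s ∈ S, s ∈ J) →
      I ⊓ Sp F (fun m => m.length ≤ n ∧ letters m ⊆ Finset.range n) ≤ J := by
  have h1 : (Sp F (fun m => m.length ≤ n ∧ letters m ⊆ Finset.range n)).FG := by
    unfold Sp
    have : {u | ∃ m, (m.length ≤ n ∧ letters m ⊆ Finset.range n) ∧ tr F m = u}
        = (tr F) '' {m : FreeMagma ℕ | m.length ≤ n ∧ letters m ⊆ Finset.range n} := rfl
    rw [this]
    exact Submodule.fg_span ((fin_trees n n).image _)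
  have h2 := isNoetherian_of_fg_of_noetherian _ h1
  obtain ⟨S, hS⟩ := isNoetherian_submodule.mp h2
    (I ⊓ Sp F (fun m => m.length ≤ n ∧ letters m ⊆ Finset.range n)) inf_le_right
  refine ⟨S, ?_, ?_⟩
  · intro s hs
    have : s ∈ I ⊓ Sp F (fun m => m.length ≤ n ∧ letters m ⊆ Finset.range n) := by
      rw [← hS]; exact Submodule.subset_span hs
    exact this.1
  · intro J hJ
    rw [← hS, Submodule.span_le]
    exact hJ

theorem exists_letters {n : ℕ} {f : Fr F} (hf : f ∈ Sp F (fun m => m.length ≤ n)) :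
    ∃ U : Finset ℕ, f ∈ Sp F (fun m => m.length ≤ n ∧ letters m ⊆ U) := by
  unfold Sp at hf
  induction hf using Submodule.span_induction with
  | zero => exact ⟨∅, Submodule.zero_mem _⟩
  | add p q _ _ h1 h2 =>
    obtain ⟨U, hU⟩ := h1
    obtain ⟨V, hV⟩ := h2
    exact ⟨U ∪ V, Submodule.add_mem _
      (Sp_mono (fun m h => ⟨h.1, h.2.trans Finset.subset_union_left⟩) hU)
      (Sp_mono (fun m h => ⟨h.1, h.2.trans Finset.subset_union_right⟩) hV)⟩
  | smul k p _ h =>
    obtain ⟨U, hU⟩ := h
    exact ⟨U, Submodule.smul_mem _ _ hU⟩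
  | mem y hy =>
    obtain ⟨m, hm, rfl⟩ := hy
    exact ⟨letters m, tr_Sp ⟨hm, subset_rfl⟩⟩

/-! ### low degree representatives -/

theorem rep_wd : ∀ (l : List ℕ) (m : FreeMagma ℕ), ∃ m' : FreeMagma ℕ,
    m'.length = m.length + l.length ∧ ∀ (I : Submodule F (Fr F)) (hI : GT I),
      I.mkQ (tr F m') = ac hI (X F) (wd F l) (I.mkQ (tr F m))
  | [], m => ⟨m, by simp, fun I hI => by rw [wd_nil, ac_one]⟩
  | c :: l, m => by
    obtain ⟨m', h1, h2⟩ := rep_wd l (m * FreeMagma.of c)
    refine ⟨m', ?_, fun I hI => ?_⟩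
    · rw [h1, len_mul]
      simp [FreeMagma.length]
      omega
    · rw [h2 I hI, wd_cons, ac_mul, ac_x, Rq_mk, tr_mul, tr_of]

theorem rep_low {d : ℕ} {u : Op F} (hu : u ∈ Dg F d) (i : ℕ) :
    ∃ f ∈ Sp F (fun m => m.length ≤ d + 1), ∀ (I : Submodule F (Fr F)) (hI : GT I),
      I.mkQ f = ac hI (X F) u (I.mkQ (X F i)) := by
  unfold Dg at hu
  induction hu using Submodule.span_induction with
  | zero => exact ⟨0, Submodule.zero_mem _, fun I hI => by rw [map_zero, ac_zero]⟩
  | add p q _ _ h1 h2 =>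
    obtain ⟨f, hf, hf2⟩ := h1
    obtain ⟨g, hg, hg2⟩ := h2
    exact ⟨f + g, Submodule.add_mem _ hf hg, fun I hI => by
      rw [map_add, ac_add, hf2 I hI, hg2 I hI]⟩
  | smul k p _ h =>
    obtain ⟨f, hf, hf2⟩ := h
    exact ⟨k • f, Submodule.smul_mem _ _ hf, fun I hI => by
      rw [map_smul, ac_smul, hf2 I hI]⟩
  | mem y hy =>
    obtain ⟨l, hl, rfl⟩ := hy
    obtain ⟨m', h1, h2⟩ := rep_wd (F := F) l (FreeMagma.of i)
    refine ⟨tr F m', tr_Sp ?_, fun I hI => by rw [h2 I hI, tr_of]⟩
    rw [h1]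
    simp [FreeMagma.length]
    omega

theorem VK_zero {J : Submodule F (Fr F)} (hJ : GT J) {K : Submodule F (Op F)}
    (hK : K ≤ KI hJ) {b : Op F} (hb : b ∈ VK K) (i : ℕ) :
    ac hJ (X F) b (J.mkQ (X F i)) = 0 := by
  unfold VK at hb
  induction hb using Submodule.span_induction with
  | zero => rw [ac_zero]
  | add p q _ _ h1 h2 => rw [ac_add, h1, h2, add_zero]
  | smul k p _ h => rw [ac_smul, h, smul_zero]
  | mem y hy =>
    obtain ⟨k, h, hh, rfl⟩ := hy
    rw [ac_mul, ac_x, Rq_mk]
    exact hK hh _ _ _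

theorem specht_core [CharZero F] {I : Submodule F (Fr F)} (hI : GT I) :
    ∃ S : Finset (Fr F), (∀ s ∈ S, s ∈ I) ∧
      ∀ J : Submodule F (Fr F), GT J → (∀ s ∈ S, s ∈ J) → I ≤ J := by
  classical
  obtain ⟨S1, d, h1, h2, h3⟩ := fg_deg (KI_nice hI)
  obtain ⟨S2, h4, h5⟩ := low_fg I (d + 1)
  refine ⟨S1.image (Phi F) ∪ S2, ?_, ?_⟩
  · intro s hs
    rw [Finset.mem_union, Finset.mem_image] at hs
    rcases hs with ⟨c, hc, rfl⟩ | hs
    · exact (Phi_mem hI c).mpr (h1 c hc)
    · exact h4 s hs
  · intro J hJ hS f hf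
    have hK : KI hI ≤ KI hJ := by
      apply h2 _ (KI_nice hJ)
      intro c hc
      exact (Phi_mem hJ c).mp (hS _ (Finset.mem_union_left _ (Finset.mem_image_of_mem _ hc)))
    obtain ⟨g, hg⟩ := rep f
    have hg0 : Psi hI (X F) (X F) g = 0 := by
      rw [← hg I hI]
      exact (Submodule.Quotient.mk_eq_zero I).2 hf
    have hgK := comp_KI hI hg0
    have hdec : ∀ i, ∃ a ∈ Dg F d, ∃ b ∈ VK (KI hI), a + b = g i := by
      intro i
      have := h3 (hgK i)
      rw [Submodule.mem_sup] at this
      obtain ⟨a, ha, b, hb, hab⟩ := this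
      exact ⟨a, ha.2, b, hb, hab⟩
    choose a ha b hb hab using hdec
    choose f' hf' hf2' using fun i => rep_low (ha i) i
    have key : ∀ (L : Submodule F (Fr F)) (hL : GT L), KI hI ≤ KI hL →
        L.mkQ (∑ i ∈ g.support, f' i) = L.mkQ f := by
      intro L hL hKL
      rw [hg L hL, Psi_apply, map_sum]
      refine Finset.sum_congr rfl fun i _ => ?_
      show _ = ac hL (X F) (g i) (L.mkQ (X F i))
      rw [hf2' i L hL, ← hab i, ac_add, VK_zero hL hKL (hb i), add_zero]
    have hI1 : ∑ i ∈ g.support, f' i ∈ I := by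
      have h6 := key I hI le_rfl
      have h7 : I.mkQ f = 0 := (Submodule.Quotient.mk_eq_zero I).2 hf
      rw [h7] at h6
      exact (Submodule.Quotient.mk_eq_zero I).1 h6
    obtain ⟨U, hU⟩ := exists_letters (F := F) (n := d + 1)
      (f := ∑ i ∈ g.support, f' i) (Submodule.sum_mem _ fun i _ => hf' i)
    have hJ1 : ∑ i ∈ g.support, f' i ∈ J :=
      low hI.t hJ.t (d + 1) (h5 J (fun s hs => hS s (Finset.mem_union_right _ hs))) U.card U rfl
        _ hI1 hU
    have h6 := key J hJ hK
    have h7 : J.mkQ (∑ i ∈ g.support, f' i) = 0 := (Submodule.Quotient.mk_eq_zero J).2 hJ1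
    rw [h7] at h6
    exact (Submodule.Quotient.mk_eq_zero J).1 h6.symm

/-- the T-ideal of identities -/
noncomputable def Idl (F : Type u) [Field F] (B : Type u) [NonUnitalNonAssocRing B] [Module F B]
    [IsScalarTower F B B] [SMulCommClass F B B] : Submodule F (Fr F) where
  carrier := {f | Sat F B f}
  add_mem' := by
    intro f g hf hg φ
    rw [map_add, hf φ, hg φ, add_zero]
  zero_mem' := by intro φ; rw [map_zero]
  smul_mem' := by
    intro c f hf φ
    rw [map_smul, hf φ, smul_zero]

theorem Idl_T (B : Type u) [NonUnitalNonAssocRing B] [Module F B]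
    [IsScalarTower F B B] [SMulCommClass F B B] : IsT (Idl F B) where
  mul_left := by
    intro a b hb φ
    rw [map_mul, hb φ, mul_zero]
  mul_right := by
    intro a b hb φ
    rw [map_mul, hb φ, zero_mul]
  endo := by
    intro ψ a ha φ
    exact ha (φ.comp ψ)

theorem spechtian [CharZero F] : Spechtian F (V0 F) := by
  classical
  intro B _ _ _ _ hB
  have hI : GT (Idl F B) := GT_of (Idl_T B) (fun f hf => hB f hf)
  obtain ⟨S, h1, h2⟩ := specht_core hI
  have hfin : (V0 F).Finite := by
    unfold V0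
    exact (Set.finite_singleton _).insert _
  refine ⟨S ∪ hfin.toFinset, ?_, ?_⟩
  · intro s hs
    rw [Finset.mem_union] at hs
    rcases hs with hs | hs
    · exact h1 s hs
    · exact hB s (hfin.mem_toFinset.mp hs)
  · intro f hf J hJ hS
    exact h2 J (GT_of hJ fun f hf => hS f (Finset.mem_union_right _ (hfin.mem_toFinset.mpr hf)))
      (fun s hs => hS s (Finset.mem_union_left _ hs)) hf

end Pool.Agent.H163R3
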