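import Pool.Agent.H163R3.Cas

set_option autoImplicit false

namespace Pool.Agent.H163R3

universe u

variable {F : Type u} [Field F]

/-- the content of a word -/
def cnt (l : List ℕ) : ℕ → ℤ := fun i => (l.count i : ℤ)

@[simp] theorem cnt_nil : cnt [] = 0 := by funext i; simp [cnt]

theorem cnt_cons (c : ℕ) (l : List ℕ) : cnt (c :: l) = Pi.single c 1 + cnt l := by
  funext i
  by_cases hi : i = c
  · subst hi
    simp only [cnt, Pi.add_apply, List.count_cons_self, Pi.single_eq_same]
    push_cast; ring
  · simp only [cnt, Pi.add_apply, Pi.single_eq_of_ne hi, List.count_cons_of_ne (Ne.symm hi)]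
    ring

theorem wd_W (l : List ℕ) : wd F l ∈ W F (cnt l) := wd_mem l

/-- lowering images -/
noncomputable def Hs (F : Type u) [Field F] (T : Finset ℕ) (κ : ℕ → ℤ) : Submodule F (Op F) :=
  Submodule.span F {u | ∃ a ∈ T, ∃ b ∈ T, a < b ∧
    ∃ w ∈ W F (κ + Pi.single a 1 - Pi.single b 1), E F b a w = u}

/-- products of central elements -/
noncomputable def zp (F : Type u) [Field F] (t : ℕ) (bs : List ℕ) : Op F :=
  (bs.map (z F t)).prod

@[simp] theorem zp_nil (t : ℕ) : zp F t [] = 1 := by simp [zp]
@[simp] theorem zp_cons (t c : ℕ) (bs : List ℕ) : zp F t (c :: bs) = z F t c * zp F t bs := by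
  simp [zp]

theorem zp_central (t : ℕ) (bs : List ℕ) (u : Op F) : zp F t bs * u = u * zp F t bs := by
  induction bs with
  | nil => simp
  | cons c bs ih => rw [zp_cons, mul_assoc, ih, ← mul_assoc, z_central, mul_assoc]

theorem sq_central [CharZero F] (t : ℕ) (u : Op F) :
    x F t * (x F t * u) = u * (x F t * x F t) := by
  have h : z F t t = (2 : F) • (x F t * x F t) := by unfold z; module
  have h2 := z_central t t u
  rw [h, smul_mul_assoc, mul_smul_comm] at h2
  have h3 := smul_right_injective (Op F) (two_ne_zero (α := F)) h2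
  rw [mul_assoc] at h3
  exact h3

theorem z_mem (a b : ℕ) : z F a b ∈ W F (Pi.single a 1 + Pi.single b 1) := by
  unfold z
  apply Submodule.add_mem
  · exact W_mul (x_mem a) (x_mem b)
  · rw [add_comm]; exact W_mul (x_mem b) (x_mem a)

theorem xpow_mem (t α : ℕ) : x F t ^ α ∈ W F ((α : ℤ) • Pi.single t 1) := by
  induction α with
  | zero => simpa using one_mem (F := F)
  | succ n ih =>
    rw [pow_succ]
    have := W_mul ih (x_mem (F := F) t)
    convert this using 2
    push_cast
    rw [add_smul, one_smul]

theorem zp_mem (t : ℕ) (bs : List ℕ) :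
    zp F t bs ∈ W F ((bs.length : ℤ) • Pi.single t 1 + cnt bs) := by
  induction bs with
  | nil => simpa using one_mem (F := F)
  | cons c bs ih =>
    rw [zp_cons, cnt_cons]
    have := W_mul (z_mem (F := F) t c) ih
    convert this using 2
    simp only [List.length_cons]
    push_cast
    rw [add_smul, one_smul]
    abel

theorem E_wd_zero {b t : ℕ} {l : List ℕ} (h : ∀ i ∈ l, i ≠ t) : E F b t (wd F l) = 0 := by
  induction l with
  | nil => simp
  | cons c l ih =>
    rw [wd_cons, E_mul, ih (fun i hi => h i (List.mem_cons_of_mem _ hi)),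
      E_x_ne (Ne.symm (h c List.mem_cons_self))]
    simp

theorem Epow [CharZero F] (b t : ℕ) : ∀ α : ℕ, ∃ k : ℕ, E F b t (x F t ^ (α + 2))
    = ((k : F) + 1) • (x F t ^ α * z F t b) + (if α % 2 = 1 then x F t ^ (α + 1) * x F b else 0)
  | 0 => ⟨0, by
      rw [zero_add, pow_two, E_mul, E_x_self]
      simp [z]⟩
  | 1 => ⟨0, by
      have h : x F t ^ (1 + 2) = x F t * x F t * x F t := by noncomm_ring
      rw [h, E_mul, E_mul, E_x_self]
      have h2 : x F t * x F b + x F b * x F t = z F t b := rfl
      rw [h2, z_central]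
      simp only [Nat.cast_zero, zero_add, one_smul, pow_one, Nat.one_mod, if_true]
      rw [show (1 + 1 : ℕ) = 2 from rfl, pow_two, add_comm]⟩
  | α + 2 => by
      obtain ⟨k, hk⟩ := Epow b t α
      refine ⟨k + 1, ?_⟩
      have h : x F t ^ (α + 2 + 2) = x F t ^ (α + 2) * (x F t * x F t) := by noncomm_ring
      have h2 : x F t * x F b + x F b * x F t = z F t b := rfl
      have h3 : (α + 2) % 2 = α % 2 := by omega
      rw [h, E_mul, E_mul, E_x_self, h2, hk, h3, add_mul, smul_mul_assoc]
      have h4 : x F t ^ α * z F t b * (x F t * x F t) = x F t ^ (α + 2) * z F t b := by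
        rw [mul_assoc, z_central]
        noncomm_ring
      rw [h4]
      split_ifs with h5
      · have h6 : x F t ^ (α + 1) * x F b * (x F t * x F t) = x F t ^ (α + 2 + 1) * x F b := by
          rw [mul_assoc, ← sq_central]
          noncomm_ring
        rw [h6]
        push_cast
        module
      · push_cast
        simp only [zero_mul]
        module

theorem xc_pow [CharZero F] (c t : ℕ) : ∀ α : ℕ, x F c * x F t ^ α
    = (if α % 2 = 1 then x F t ^ (α - 1) * z F t c else 0)
      + ((-1 : F) ^ α) • (x F t ^ α * x F c)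
  | 0 => by simp
  | 1 => by
      simp only [pow_one, z, Nat.one_mod, if_true, Nat.sub_self, pow_zero, one_mul]
      module
  | α + 2 => by
      have h3 : (α + 2) % 2 = α % 2 := by omega
      have h : x F t ^ (α + 2) = x F t ^ α * (x F t * x F t) := by noncomm_ring
      rw [h3, h, ← mul_assoc, xc_pow c t α, add_mul, smul_mul_assoc]
      have h4 : x F t ^ α * x F c * (x F t * x F t) = x F t ^ α * (x F t * x F t) * x F c := by
        rw [mul_assoc, ← sq_central]
        noncomm_ring
      rw [h4]
      have h6 : ((-1 : F)) ^ (α + 2) = (-1) ^ α := by rw [pow_add]; norm_num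
      rw [h6]
      split_ifs with h5
      · have h7 : x F t ^ (α - 1) * z F t c * (x F t * x F t)
            = x F t ^ (α + 2 - 1) * z F t c := by
          obtain ⟨m, rfl⟩ : ∃ m, α = m + 1 := ⟨α - 1, by omega⟩
          rw [mul_assoc, z_central]
          have e : m + 1 + 2 - 1 = m + 2 := by omega
          have e2 : m + 1 - 1 = m := by omega
          rw [e, e2]
          noncomm_ring
        rw [h7]
      · simp

/-- elementary forms -/
def GS (X : Op F) (κX : ℕ → ℤ) (t : ℕ) (rem : List ℕ) (n : ℕ) (κ : ℕ → ℤ) : Set (Op F) :=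
  {u | ∃ (α : ℕ) (bs l : List ℕ), bs.length ≤ n ∧ (∀ b ∈ bs, b ∈ rem) ∧ (∀ b ∈ l, b ∈ rem) ∧
    κX + ((α : ℤ) + bs.length) • Pi.single t 1 + cnt bs + cnt l = κ ∧
    X * (x F t ^ α * (zp F t bs * wd F l)) = u}

theorem step_A [CharZero F] (t : ℕ) (rem : List ℕ) (l : List ℕ)
    (hl : ∀ i ∈ l, i = t ∨ i ∈ rem) :
    wd F l ∈ Submodule.span F (GS (1 : Op F) 0 t rem l.length (cnt l)) := by
  induction l with
  | nil =>
    apply Submodule.subset_span
    exact ⟨0, [], [], by simp, by simp, by simp, by simp, by simp⟩
  | cons c l ih =>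
    have ih := ih (fun i hi => hl i (List.mem_cons_of_mem _ hi))
    rw [wd_cons]
    have key : ∀ u ∈ Submodule.span F (GS (1 : Op F) 0 t rem l.length (cnt l)),
        x F c * u ∈ Submodule.span F (GS (1 : Op F) 0 t rem (c :: l).length (cnt (c :: l))) := by
      intro u hu
      induction hu using Submodule.span_induction with
      | zero => simp
      | add p q _ _ h1 h2 => rw [mul_add]; exact Submodule.add_mem _ h1 h2
      | smul k p _ h => rw [mul_smul_comm]; exact Submodule.smul_mem _ _ h
      | mem y hy =>
        obtain ⟨α, bs, l', hlen, hbs, hl', hκ, rfl⟩ := hy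
        rcases hl c List.mem_cons_self with hc | hc
        · subst hc
          apply Submodule.subset_span
          refine ⟨α + 1, bs, l', by simp; omega, hbs, hl', ?_, ?_⟩
          · rw [cnt_cons, ← hκ]
            push_cast
            module
          · rw [pow_succ']; noncomm_ring
        · rw [one_mul, ← mul_assoc, xc_pow, add_mul, smul_mul_assoc]
          apply Submodule.add_mem
          · split_ifs with hodd
            · apply Submodule.subset_span
              obtain ⟨m, rfl⟩ : ∃ m, α = m + 1 := ⟨α - 1, by omega⟩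
              refine ⟨m, c :: bs, l', by simp; omega, ?_, hl', ?_, ?_⟩
              · intro b hb
                rcases List.mem_cons.mp hb with h | h
                · rw [h]; exact hc
                · exact hbs b h
              · rw [cnt_cons, cnt_cons, ← hκ]
                simp only [List.length_cons]
                push_cast
                module
              · rw [one_mul, zp_cons]
                have e2 : m + 1 - 1 = m := by omega
                rw [e2]; noncomm_ring
            · simp
          · apply Submodule.smul_mem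
            apply Submodule.subset_span
            refine ⟨α, bs, c :: l', by simp; omega, hbs, ?_, ?_, ?_⟩
            · intro b hb
              rcases List.mem_cons.mp hb with h | h
              · rw [h]; exact hc
              · exact hl' b h
            · rw [cnt_cons, cnt_cons, ← hκ]
              module
            · rw [one_mul, wd_cons, ← mul_assoc (zp F t bs), zp_central]
              noncomm_ring
    exact key _ ih

theorem E_zp {b t : ℕ} {rem : List ℕ} (ht : t ∉ rem) (hb : b ∈ rem) (bs l : List ℕ)
    (hbs : ∀ i ∈ bs, i ∈ rem) (hl : ∀ i ∈ l, i ∈ rem) :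
    E F b t (zp F t bs * wd F l) ∈ Submodule.span F
      {u | ∃ bs' l' : List ℕ, bs'.length + 1 = bs.length ∧ (∀ i ∈ bs', i ∈ rem) ∧
        (∀ i ∈ l', i ∈ rem) ∧ cnt bs' + cnt l' = cnt bs + cnt l + Pi.single b 1 ∧
        zp F t bs' * wd F l' = u} := by
  induction bs with
  | nil =>
    rw [zp_nil, one_mul, E_wd_zero (fun i hi h => ht (by rw [← h]; exact hl i hi))]
    exact Submodule.zero_mem _
  | cons c bs ih =>
    have ih := ih (fun i hi => hbs i (List.mem_cons_of_mem _ hi))
    have hc : c ∈ rem := hbs c List.mem_cons_self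
    have htc : t ≠ c := fun h => ht (h ▸ hc)
    have hz : E F b t (z F t c) = z F b c := by
      rw [E_z]; simp [dl, htc]
    rw [zp_cons, mul_assoc, E_mul, hz]
    apply Submodule.add_mem
    · have key : ∀ u ∈ Submodule.span F
          {u | ∃ bs' l' : List ℕ, bs'.length + 1 = bs.length ∧ (∀ i ∈ bs', i ∈ rem) ∧
            (∀ i ∈ l', i ∈ rem) ∧ cnt bs' + cnt l' = cnt bs + cnt l + Pi.single b 1 ∧
            zp F t bs' * wd F l' = u},
          z F t c * u ∈ Submodule.span F
          {u | ∃ bs' l' : List ℕ, bs'.length + 1 = (c :: bs).length ∧ (∀ i ∈ bs', i ∈ rem) ∧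
            (∀ i ∈ l', i ∈ rem) ∧ cnt bs' + cnt l' = cnt (c :: bs) + cnt l + Pi.single b 1 ∧
            zp F t bs' * wd F l' = u} := by
        intro u hu
        induction hu using Submodule.span_induction with
        | zero => simp
        | add p q _ _ h1 h2 => rw [mul_add]; exact Submodule.add_mem _ h1 h2
        | smul k p _ h => rw [mul_smul_comm]; exact Submodule.smul_mem _ _ h
        | mem y hy =>
          obtain ⟨bs', l', hlen, h1, h2, h3, rfl⟩ := hy
          apply Submodule.subset_span
          refine ⟨c :: bs', l', by simp [hlen], ?_, h2, ?_, ?_⟩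
          · intro i hi
            rcases List.mem_cons.mp hi with h | h
            · rw [h]; exact hc
            · exact h1 i h
          · rw [cnt_cons, cnt_cons, add_assoc, h3]; abel
          · rw [zp_cons, mul_assoc]
      exact key _ ih
    · have e : z F b c * (zp F t bs * wd F l) = zp F t bs * wd F (b :: c :: l)
          + zp F t bs * wd F (c :: b :: l) := by
        rw [← mul_assoc, z_central, mul_assoc]
        simp only [z, wd_cons]
        noncomm_ring
      rw [e]
      apply Submodule.add_mem
      · apply Submodule.subset_span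
        refine ⟨bs, b :: c :: l, by simp, fun i hi => hbs i (List.mem_cons_of_mem _ hi), ?_, ?_, rfl⟩
        · intro i hi
          simp only [List.mem_cons] at hi
          rcases hi with h | h | h
          · rw [h]; exact hb
          · rw [h]; exact hc
          · exact hl i h
        · simp only [cnt_cons]; abel
      · apply Submodule.subset_span
        refine ⟨bs, c :: b :: l, by simp, fun i hi => hbs i (List.mem_cons_of_mem _ hi), ?_, ?_, rfl⟩
        · intro i hi
          simp only [List.mem_cons] at hi
          rcases hi with h | h | h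
          · rw [h]; exact hc
          · rw [h]; exact hb
          · exact hl i h
        · simp only [cnt_cons]; abel

theorem red [CharZero F] {T : Finset ℕ} {X : Op F} {κX : ℕ → ℤ} {t : ℕ} {rem : List ℕ}
    (hX : ∀ b, E F b t X = 0) (hXW : X ∈ W F κX) (htT : t ∈ T) (hrT : ∀ i ∈ rem, i ∈ T)
    (hlt : ∀ i ∈ rem, t < i) (n : ℕ) (κ : ℕ → ℤ) (u : Op F)
    (hu : u ∈ GS X κX t rem (n + 1) κ) :
    u ∈ Hs F T κ ⊔ Submodule.span F (GS X κX t rem n κ) := by
  obtain ⟨α, bs, l, hlen, hbs, hl, hκ, rfl⟩ := hu
  rcases bs with _ | ⟨b, bs⟩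
  · apply Submodule.mem_sup_right
    apply Submodule.subset_span
    exact ⟨α, [], l, by simp, by simp, hl, hκ, rfl⟩
  · have ht : t ∉ rem := fun h => lt_irrefl _ (hlt t h)
    have hb : b ∈ rem := hbs b List.mem_cons_self
    have hbs' : ∀ i ∈ bs, i ∈ rem := fun i hi => hbs i (List.mem_cons_of_mem _ hi)
    set V := zp F t bs * wd F l with hV
    obtain ⟨k, hk⟩ := Epow (F := F) b t α
    set w := X * (x F t ^ (α + 2) * V) with hw
    have hE : E F b t w = X * (x F t ^ (α + 2) * E F b t V)
        + (((k : F) + 1) • (X * (x F t ^ α * (zp F t (b :: bs) * wd F l)))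
          + (if α % 2 = 1 then X * (x F t ^ (α + 1) * (zp F t bs * wd F (b :: l))) else 0)) := by
      rw [hw, E_mul, hX, E_mul, hk, zero_mul, add_zero, mul_add]
      congr 1
      rw [add_mul, mul_add, smul_mul_assoc, mul_smul_comm]
      congr 2
      · rw [zp_cons, hV]; noncomm_ring
      · split_ifs
        · have hc : x F b * (zp F t bs * wd F l) = zp F t bs * (x F b * wd F l) := by
            rw [← mul_assoc, ← zp_central, mul_assoc]
          rw [hV, wd_cons, ← hc, mul_assoc]
        · simp
    have hne : ((k : F) + 1) ≠ 0 := by exact_mod_cast Nat.succ_ne_zero k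
    have hwW : w ∈ W F (κ + Pi.single t 1 - Pi.single b 1) := by
      have h1 := W_mul hXW (W_mul (xpow_mem (F := F) t (α + 2))
        (W_mul (zp_mem (F := F) t bs) (wd_W (F := F) l)))
      convert h1 using 2
      rw [← hκ, cnt_cons]
      simp only [List.length_cons]
      push_cast
      module
    have hEH : E F b t w ∈ Hs F T κ ⊔ Submodule.span F (GS X κX t rem n κ) := by
      apply Submodule.mem_sup_left
      apply Submodule.subset_span
      exact ⟨t, htT, b, hrT b hb, hlt b hb, w, hwW, rfl⟩
    have h1 : X * (x F t ^ (α + 2) * E F b t V) ∈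
        Hs F T κ ⊔ Submodule.span F (GS X κX t rem n κ) := by
      apply Submodule.mem_sup_right
      have h2 := E_zp (F := F) ht hb bs l hbs' hl
      rw [← hV] at h2
      generalize E F b t V = Y at h2
      induction h2 using Submodule.span_induction with
      | zero => simp
      | add p q _ _ h1 h2 =>
        rw [mul_add, mul_add]; exact Submodule.add_mem _ h1 h2
      | smul k p _ h =>
        rw [mul_smul_comm, mul_smul_comm]; exact Submodule.smul_mem _ _ h
      | mem y hy =>
        obtain ⟨bs', l', hlen', h1, h2, h3, rfl⟩ := hy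
        apply Submodule.subset_span
        refine ⟨α + 2, bs', l', by simp at hlen; omega, h1, h2, ?_, rfl⟩
        rw [add_assoc, h3, ← hκ, cnt_cons]
        simp only [List.length_cons, ← hlen']
        push_cast
        module
    have h2 : (if α % 2 = 1 then X * (x F t ^ (α + 1) * (zp F t bs * wd F (b :: l))) else 0) ∈
        Hs F T κ ⊔ Submodule.span F (GS X κX t rem n κ) := by
      apply Submodule.mem_sup_right
      split_ifs
      · apply Submodule.subset_span
        refine ⟨α + 1, bs, b :: l, by simp at hlen; omega, hbs', ?_, ?_, rfl⟩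
        · intro i hi
          rcases List.mem_cons.mp hi with h | h
          · rw [h]; exact hb
          · exact hl i h
        · rw [← hκ, cnt_cons, cnt_cons]
          simp only [List.length_cons]
          push_cast
          module
      · exact Submodule.zero_mem _
    have h3 : X * (x F t ^ α * (zp F t (b :: bs) * wd F l))
        = ((k : F) + 1)⁻¹ • (E F b t w - X * (x F t ^ (α + 2) * E F b t V)
          - (if α % 2 = 1 then X * (x F t ^ (α + 1) * (zp F t bs * wd F (b :: l))) else 0)) := by
      rw [hE]
      have e : ∀ p q r : Op F, p + (q + r) - p - r = q := by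
        intro p q r; rw [add_sub_cancel_left, add_sub_cancel_right]
      rw [e, smul_smul, inv_mul_cancel₀ hne, one_smul]
    rw [h3]
    exact Submodule.smul_mem _ _ (Submodule.sub_mem _ (Submodule.sub_mem _ hEH h1) h2)

theorem red_all [CharZero F] {T : Finset ℕ} {X : Op F} {κX : ℕ → ℤ} {t : ℕ} {rem : List ℕ}
    (hX : ∀ b, E F b t X = 0) (hXW : X ∈ W F κX) (htT : t ∈ T) (hrT : ∀ i ∈ rem, i ∈ T)
    (hlt : ∀ i ∈ rem, t < i) (κ : ℕ → ℤ) (n : ℕ) :
    Submodule.span F (GS X κX t rem n κ) ≤
      Hs F T κ ⊔ Submodule.span F (GS X κX t rem 0 κ) := by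
  induction n with
  | zero => exact le_sup_right
  | succ n ih =>
    rw [Submodule.span_le]
    intro u hu
    have h := red hX hXW htT hrT hlt n κ u hu
    exact (sup_le le_sup_left ih : _ ≤ _) h

/-- ordered products of powers -/
noncomputable def Pw (F : Type u) [Field F] (rem : List ℕ) (κ : ℕ → ℤ) : Op F :=
  (rem.map fun i => x F i ^ (κ i).toNat).prod

@[simp] theorem Pw_nil (κ : ℕ → ℤ) : Pw F [] κ = 1 := by simp [Pw]
@[simp] theorem Pw_cons (t : ℕ) (rem : List ℕ) (κ : ℕ → ℤ) :
    Pw F (t :: rem) κ = x F t ^ (κ t).toNat * Pw F rem κ := by simp [Pw]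

theorem Pw_congr {rem : List ℕ} {κ κ' : ℕ → ℤ} (h : ∀ i ∈ rem, κ i = κ' i) :
    Pw F rem κ = Pw F rem κ' := by
  unfold Pw
  congr 1
  apply List.map_congr_left
  intro i hi
  rw [h i hi]

theorem straight [CharZero F] (T : Finset ℕ) : ∀ rem : List ℕ, rem.Pairwise (· < ·) →
    (∀ i ∈ rem, i ∈ T) → ∀ (X : Op F) (κX : ℕ → ℤ), (∀ t ∈ rem, ∀ b, E F b t X = 0) →
    X ∈ W F κX → ∀ l : List ℕ, (∀ i ∈ l, i ∈ rem) →
    X * wd F l ∈ Hs F T (κX + cnt l) ⊔ Submodule.span F {X * Pw F rem (cnt l)} := by
  intro rem
  induction rem with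
  | nil =>
    intro _ _ X κX _ _ l hl
    have : l = [] := by
      rcases l with _ | ⟨a, l⟩
      · rfl
      · exact absurd (hl a List.mem_cons_self) (by simp)
    subst this
    apply Submodule.mem_sup_right
    apply Submodule.subset_span
    simp
  | cons t rem ih =>
    intro hs hT X κX hX hXW l hl
    rw [List.pairwise_cons] at hs
    have htn : t ∉ rem := fun h => lt_irrefl _ (hs.1 t h)
    have hA := step_A (F := F) t rem l (fun i hi => by
      rcases List.mem_cons.mp (hl i hi) with h | h
      · exact Or.inl h
      · exact Or.inr h)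
    have hA2 : X * wd F l ∈ Submodule.span F (GS X κX t rem l.length (κX + cnt l)) := by
      generalize wd F l = Y at hA
      induction hA using Submodule.span_induction with
      | zero => simp
      | add p q _ _ h1 h2 => rw [mul_add]; exact Submodule.add_mem _ h1 h2
      | smul k p _ h => rw [mul_smul_comm]; exact Submodule.smul_mem _ _ h
      | mem y hy =>
        obtain ⟨α, bs, l', hlen, hbs, hl', hκ, rfl⟩ := hy
        apply Submodule.subset_span
        refine ⟨α, bs, l', hlen, hbs, hl', ?_, by rw [one_mul]⟩
        rw [← hκ]; abel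
    have h3 := red_all (T := T) (hX t List.mem_cons_self) hXW (hT t List.mem_cons_self)
      (fun i hi => hT i (List.mem_cons_of_mem _ hi)) hs.1 (κX + cnt l) l.length hA2
    refine (sup_le le_sup_left ?_ : _ ≤ Hs F T (κX + cnt l) ⊔
      Submodule.span F {X * Pw F (t :: rem) (cnt l)}) h3
    rw [Submodule.span_le]
    rintro _ ⟨α, bs, l', hlen, hbs, hl', hκ, rfl⟩
    have hbs0 : bs = [] := List.eq_nil_of_length_eq_zero (by omega)
    subst hbs0
    have hκ' : κX + (α : ℤ) • Pi.single t 1 + cnt l' = κX + cnt l := by
      rw [← hκ]; simp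
    have hα : (α : ℤ) = cnt l t := by
      have h4 := congrFun hκ' t
      have h5 : cnt l' t = 0 := by
        simp only [cnt]
        rw [List.count_eq_zero_of_not_mem (fun h => htn (hl' t h))]
        rfl
      simp only [Pi.add_apply, Pi.smul_apply, Pi.single_eq_same, smul_eq_mul, mul_one, h5] at h4
      omega
    have hα2 : α = (cnt l t).toNat := by omega
    have hEx : ∀ s ∈ rem, ∀ b, E F b s (x F t ^ α) = 0 := by
      intro s hs' b
      have hne : s ≠ t := fun h => htn (h ▸ hs')
      have : x F t ^ α = wd F (List.replicate α t) := by simp [wd]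
      rw [this]
      apply E_wd_zero
      intro i hi
      rw [List.eq_of_mem_replicate hi]
      exact Ne.symm hne
    have h6 := ih hs.2 (fun i hi => hT i (List.mem_cons_of_mem _ hi)) (X * x F t ^ α)
      (κX + (α : ℤ) • Pi.single t 1)
      (fun s hs' b => by
        rw [E_mul, hX s (List.mem_cons_of_mem _ hs') b, hEx s hs' b]; simp)
      (W_mul hXW (xpow_mem t α)) l' hl'
    rw [hκ'] at h6
    have h7 : Pw F rem (cnt l') = Pw F rem (cnt l) := by
      apply Pw_congr
      intro i hi
      have hne : i ≠ t := fun h => htn (h ▸ hi)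
      have h4 := congrFun hκ' i
      simp only [Pi.add_apply, Pi.smul_apply, Pi.single_eq_of_ne hne, smul_eq_mul, mul_zero,
        add_zero] at h4
      omega
    rw [h7, mul_assoc, mul_assoc] at h6
    have h8 : X * (x F t ^ α * (zp F t [] * wd F l')) = X * (x F t ^ α * wd F l') := by simp
    rw [h8, Pw_cons, ← hα2]
    exact h6

theorem W_le [CharZero F] (T : Finset ℕ) (κ : ℕ → ℤ) (hs : ∀ i ∉ T, κ i = 0) :
    W F κ ≤ Hs F T κ ⊔ Submodule.span F {Pw F (T.sort (· ≤ ·)) κ} := by
  unfold W
  rw [Submodule.span_le]
  rintro _ ⟨l, hl, rfl⟩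
  have hκ : cnt l = κ := funext hl
  have h := straight (F := F) T (T.sort (· ≤ ·)) (T.sortedLT_sort).pairwise
    (fun i hi => by simpa using hi) 1 0 (by simp) one_mem l (by
      intro i hi
      rw [Finset.mem_sort]
      by_contra hcon
      have h1 := hl i
      rw [hs i hcon] at h1
      have h2 : 0 < l.count i := List.count_pos_iff.mpr hi
      omega)
  rw [zero_add, hκ, one_mul, one_mul] at h
  exact h

end Pool.Agent.H163R3
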