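import Pool.Agent.H163R3.Gras

set_option autoImplicit false
set_option linter.unusedSectionVars false

namespace Pool.Agent.H163R3

universe u

variable {F : Type u} [Field F]

open TensorProduct

section gen

variable {R : Type u} [Ring R] [Algebra F R]

theorem mp_commute : ∀ (h : ℕ) (Z : Fin h → R) (a : R), (∀ i, Z i * a = a * Z i) →
    mp F h Z * a = a * mp F h Z
  | 0, Z, a, _ => by simp [mp_apply]
  | h + 1, Z, a, hZ => by
    rw [mp_succ, mul_assoc, mp_commute h _ a (fun i => hZ i.succ), ← mul_assoc, hZ 0, mul_assoc]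

theorem mp_mul : ∀ (h : ℕ) (Z V : Fin h → R), (∀ i j, Z i * V j = V j * Z i) →
    mp F h (fun i => Z i * V i) = mp F h Z * mp F h V
  | 0, Z, V, _ => by simp [mp_apply]
  | h + 1, Z, V, hZ => by
    rw [mp_succ, mp_succ, mp_succ, mp_mul h (fun k => Z k.succ) (fun k => V k.succ)
      (fun i j => hZ _ _)]
    have := mp_commute (F := F) h (fun k => Z k.succ) (V 0) (fun i => hZ _ _)
    calc Z 0 * V 0 * (mp F h (fun k => Z k.succ) * mp F h (fun k => V k.succ))
        = Z 0 * (V 0 * mp F h (fun k => Z k.succ)) * mp F h (fun k => V k.succ) := by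
          noncomm_ring
      _ = _ := by rw [← this]; noncomm_ring

theorem mp_perm (h : ℕ) (Z : Fin h → R) (hZ : ∀ i j, Z i * Z j = Z j * Z i)
    (σ : Equiv.Perm (Fin h)) : mp F h (fun i => Z (σ i)) = mp F h Z := by
  rw [mp_apply, mp_apply]
  have hp := σ.ofFn_comp_perm Z
  refine List.Perm.prod_eq' hp ?_
  rw [List.pairwise_ofFn]
  intro i j _
  exact hZ _ _

theorem alt_mul (h : ℕ) (Z V : Fin h → R) (hZ : ∀ i j, Z i * Z j = Z j * Z i)
    (hZV : ∀ i j, Z i * V j = V j * Z i) :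
    alt F h (fun i => Z i * V i) = mp F h Z * alt F h V := by
  rw [alt_apply, alt_apply, Finset.mul_sum]
  refine Finset.sum_congr rfl fun σ _ => ?_
  rw [mp_mul h (fun i => Z (σ i)) (fun i => V (σ i)) (fun i j => hZV _ _), mp_perm h Z hZ σ]
  rcases Int.units_eq_one_or (Equiv.Perm.sign σ) with h | h <;> rw [h] <;> simp

theorem alt_zero {h n : ℕ} (hn : n < h) (Z : Fin h → Fin n → R) (V : Fin n → R)
    (hZ : ∀ i j k l, Z i j * Z k l = Z k l * Z i j)
    (hZV : ∀ i j k, Z i j * V k = V k * Z i j) :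
    alt F h (fun i => ∑ j, Z i j * V j) = 0 := by
  have h1 : alt F h (fun i => ∑ j, Z i j * V j)
      = ∑ r : Fin h → Fin n, alt F h (fun i => Z i (r i) * V (r i)) := by
    have h2 := (MultilinearMap.alternatization (mp (A := R) F h)).toMultilinearMap.map_sum
      (fun (i : Fin h) (j : Fin n) => Z i j * V j)
    exact h2
  rw [h1]
  refine Finset.sum_eq_zero fun r _ => ?_
  rw [alt_mul h (fun i => Z i (r i)) (fun i => V (r i)) (fun i j => hZ _ _ _ _)
    (fun i j => hZV _ _ _)]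
  obtain ⟨i, j, hij, hr⟩ := Fintype.exists_ne_map_eq_of_card_lt r (by simpa using hn)
  have : alt F h (fun i => V (r i)) = 0 := by
    unfold alt
    exact AlternatingMap.map_eq_zero_of_eq _ _ (by rw [hr]) hij
  rw [this, mul_zero]

end gen

section filt

variable {V : Type u} [AddCommGroup V] [Module F V] (T : ℕ → Submodule F V)

theorem mp_pres {r : ℕ} : ∀ (h : ℕ) (U : Fin h → (Module.End F V)ᵐᵒᵖ),
    (∀ i, ∀ t ∈ T r, (U i).unop t ∈ T r) → ∀ t ∈ T r, (mp F h U).unop t ∈ T r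
  | 0, U, _, t, ht => by simpa [mp_apply] using ht
  | h + 1, U, hU, t, ht => by
    rw [mp_succ, MulOpposite.unop_mul, Module.End.mul_apply]
    exact mp_pres h _ (fun i => hU i.succ) _ (hU 0 t ht)

theorem mp_shift : ∀ (h : ℕ) (U P : Fin h → (Module.End F V)ᵐᵒᵖ),
    (∀ r i, ∀ t ∈ T r, (U i).unop t ∈ T r) → (∀ r i, ∀ t ∈ T r, (P i).unop t ∈ T r) →
    (∀ r i, ∀ t ∈ T r, (U i).unop t - (P i).unop t ∈ T (r + 1)) →
    ∀ r, ∀ t ∈ T r, (mp F h U).unop t - (mp F h P).unop t ∈ T (r + 1)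
  | 0, U, P, _, _, _, r, t, ht => by simp [mp_apply]
  | h + 1, U, P, hU, hP, hD, r, t, ht => by
    rw [mp_succ, mp_succ, MulOpposite.unop_mul, MulOpposite.unop_mul, Module.End.mul_apply,
      Module.End.mul_apply]
    have e : (mp F h fun k => U k.succ).unop ((U 0).unop t)
        - (mp F h fun k => P k.succ).unop ((P 0).unop t)
        = (mp F h fun k => U k.succ).unop ((U 0).unop t - (P 0).unop t)
        + ((mp F h fun k => U k.succ).unop ((P 0).unop t)
          - (mp F h fun k => P k.succ).unop ((P 0).unop t)) := by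
      rw [map_sub]; abel
    rw [e]
    exact Submodule.add_mem _
      (mp_pres T h _ (fun i => hU (r + 1) i.succ) _ (hD r 0 t ht))
      (mp_shift h _ _ (fun r i => hU r i.succ) (fun r i => hP r i.succ)
        (fun r i => hD r i.succ) r _ (hP r 0 t ht))

theorem alt_shift (h : ℕ) (U P : Fin h → (Module.End F V)ᵐᵒᵖ)
    (hU : ∀ r i, ∀ t ∈ T r, (U i).unop t ∈ T r) (hP : ∀ r i, ∀ t ∈ T r, (P i).unop t ∈ T r)
    (hD : ∀ r i, ∀ t ∈ T r, (U i).unop t - (P i).unop t ∈ T (r + 1)) (h0 : alt F h P = 0)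
    (r : ℕ) (t : V) (ht : t ∈ T r) : (alt F h U).unop t ∈ T (r + 1) := by
  have e : (alt F h U).unop t = (alt F h U - alt F h P).unop t := by rw [h0, sub_zero]
  rw [e, alt_apply, alt_apply, ← Finset.sum_sub_distrib]
  have e2 : ∀ (s : Finset (Equiv.Perm (Fin h))) (f : Equiv.Perm (Fin h) → (Module.End F V)ᵐᵒᵖ),
      (∀ σ, (f σ).unop t ∈ T (r + 1)) → (∑ σ ∈ s, f σ).unop t ∈ T (r + 1) := by
    intro s f hf
    rw [Finset.unop_sum, LinearMap.sum_apply]
    exact Submodule.sum_mem _ fun σ _ => hf σ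
  apply e2
  intro σ
  have h1 := mp_shift T h (fun i => U (σ i)) (fun i => P (σ i)) (fun r i => hU r (σ i))
    (fun r i => hP r (σ i)) (fun r i => hD r (σ i)) r t ht
  rw [← smul_sub]
  rcases Int.units_eq_one_or (Equiv.Perm.sign σ) with h | h <;> rw [h]
  · simpa using h1
  · have := Submodule.neg_mem _ h1
    simpa using this

theorem pow_shift {U : (Module.End F V)ᵐᵒᵖ} (hU : ∀ r, ∀ t ∈ T r, U.unop t ∈ T (r + 1)) :
    ∀ (C r : ℕ), ∀ t ∈ T r, (U ^ C).unop t ∈ T (r + C)
  | 0, r, t, ht => by simpa using ht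
  | C + 1, r, t, ht => by
    rw [pow_succ, MulOpposite.unop_mul, Module.End.mul_apply]
    exact hU _ _ (pow_shift hU C r t ht)

end filt

variable {A' : Type u} [NonUnitalNonAssocRing A'] [Module F A'] [IsScalarTower F A' A']
  [SMulCommClass F A' A'] {A : ZMod 2 → Submodule F A'}
  {G : Type u} [Ring G] [Algebra F G] {e : ℕ → G}

theorem hom_sum (hA : IsSuper F A) (a : A') : ∃ a0 ∈ A 0, ∃ a1 ∈ A 1, a0 + a1 = a := by
  have : a ∈ A 0 ⊔ A 1 := by rw [hA.compl.sup_eq_top]; trivial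
  rwa [Submodule.mem_sup] at this

theorem hom_disj (hA : IsSuper F A) {i : ZMod 2} {a : A'} (h1 : a ∈ A i) (h2 : a ∈ A (i + 1)) :
    a = 0 := by
  have h3 : ∀ a, a ∈ A 0 → a ∈ A 1 → a = 0 := by
    intro a h1 h2
    have := hA.compl.disjoint
    rw [Submodule.disjoint_def] at this
    exact this a h1 h2
  fin_cases i
  · exact h3 a h1 h2
  · exact h3 a h2 h1

theorem triple_hom (he : IsGrassmann F e) (m : ℕ) (hA : IsSuper F A) (h : InVar F (V0 F) (Env e m A hA))
    {p q r : ZMod 2} {c a b : A'} (hc : c ∈ A p) (ha : a ∈ A q) (hb : b ∈ A r) :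
    c * (a * b) = 0 := by
  obtain ⟨g, hg, k, hk, l, hl, ψ, hψ⟩ := three_words he m p q r
  set x : Env e m A hA := ⟨g ⊗ₜ c, Submodule.subset_span ⟨p, g, hg, c, hc, rfl⟩⟩ with hx
  set y : Env e m A hA := ⟨k ⊗ₜ a, Submodule.subset_span ⟨q, k, hk, a, ha, rfl⟩⟩ with hy
  set z : Env e m A hA := ⟨l ⊗ₜ b, Submodule.subset_span ⟨r, l, hl, b, hb, rfl⟩⟩ with hz
  have h1 := h (X F 0 * (X F 1 * X F 2)) (by unfold V0; exact Set.mem_insert _ _)
    (FreeNonUnitalNonAssocAlgebra.lift F (fun i => if i = 0 then x else if i = 1 then y else z))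
  have h2 : x * (y * z) = 0 := by simpa [X] using h1
  have h3 : (g ⊗ₜ[F] c) * ((k ⊗ₜ[F] a) * (l ⊗ₜ[F] b)) = (0 : G ⊗[F] A') :=
    congrArg Subtype.val h2
  rw [Algebra.TensorProduct.tmul_mul_tmul, Algebra.TensorProduct.tmul_mul_tmul] at h3
  have h4 := congrArg (fun t => TensorProduct.lid F A' (LinearMap.rTensor A' ψ t)) h3
  simpa [hψ] using h4

theorem triple_zero (he : IsGrassmann F e) (m : ℕ) (hA : IsSuper F A) (h : InVar F (V0 F) (Env e m A hA))
    (c a b : A') : c * (a * b) = 0 := by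
  obtain ⟨c0, hc0, c1, hc1, rfl⟩ := hom_sum hA c
  obtain ⟨a0, ha0, a1, ha1, rfl⟩ := hom_sum hA a
  obtain ⟨b0, hb0, b1, hb1, rfl⟩ := hom_sum hA b
  simp only [add_mul, mul_add]
  rw [triple_hom he m hA h hc0 ha0 hb0, triple_hom he m hA h hc0 ha0 hb1,
    triple_hom he m hA h hc0 ha1 hb0, triple_hom he m hA h hc0 ha1 hb1,
    triple_hom he m hA h hc1 ha0 hb0, triple_hom he m hA h hc1 ha0 hb1,
    triple_hom he m hA h hc1 ha1 hb0, triple_hom he m hA h hc1 ha1 hb1]
  simp

theorem gen_span (hz : ∀ c a b : A', c * (a * b) = 0) {s : Finset A'}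
    (hs : NonUnitalAlgebra.adjoin F (s : Set A') = ⊤) (a : A') :
    ∃ (c : Fin s.card → F), ∀ b : A', b * a = ∑ j, c j • (b * (s.equivFin.symm j : A')) := by
  let N : Submodule F A' :=
    { carrier := {q | ∀ c : A', c * q = 0}
      add_mem' := by
        intro p q hp hq c
        rw [mul_add, hp c, hq c, add_zero]
      zero_mem' := by intro c; rw [mul_zero]
      smul_mem' := by
        intro k q hq c
        rw [mul_smul_comm, hq c, smul_zero] }
  let B : NonUnitalSubalgebra F A' :=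
    { toSubmodule := Submodule.span F (s : Set A') ⊔ N
      mul_mem' := by
        intro p q _ _
        exact Submodule.mem_sup_right (fun c => hz c p q) }
  have h1 : NonUnitalAlgebra.adjoin F (s : Set A') ≤ B := by
    apply NonUnitalAlgebra.adjoin_le
    intro t ht
    exact Submodule.mem_sup_left (Submodule.subset_span ht)
  rw [hs] at h1
  have h2 : a ∈ Submodule.span F (s : Set A') ⊔ N := h1 (NonUnitalAlgebra.mem_top)
  rw [Submodule.mem_sup] at h2
  obtain ⟨p, hp, q, hq, rfl⟩ := h2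
  have hr : (s : Set A') = Set.range (fun j : Fin s.card => (s.equivFin.symm j : A')) := by
    ext t
    constructor
    · intro ht
      exact ⟨s.equivFin ⟨t, ht⟩, by simp⟩
    · rintro ⟨j, rfl⟩
      exact (s.equivFin.symm j).2
  rw [hr, Submodule.mem_span_range_iff_exists_fun] at hp
  obtain ⟨c, rfl⟩ := hp
  refine ⟨c, fun b => ?_⟩
  rw [mul_add, hq b, add_zero, Finset.mul_sum]
  refine Finset.sum_congr rfl fun j _ => ?_
  rw [mul_smul_comm]

theorem gen_even (hA : IsSuper F A) {n : ℕ} {v α β : Fin n → A'} (hα : ∀ j, α j ∈ A 0)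
    (hβ : ∀ j, β j ∈ A 1) (hv : ∀ j, α j + β j = v j)
    (hg : ∀ a : A', ∃ (c : Fin n → F), ∀ b : A', b * a = ∑ j, c j • (b * v j))
    {a : A'} (ha : a ∈ A 0) :
    ∃ (c : Fin n → F), ∀ b : A', b * a = ∑ j, c j • (b * α j) := by
  obtain ⟨c, hc⟩ := hg a
  refine ⟨c, ?_⟩
  have key : ∀ i : ZMod 2, ∀ b ∈ A i, b * a = ∑ j, c j • (b * α j) := by
    intro i b hb
    have h1 : b * a - ∑ j, c j • (b * α j) = ∑ j, c j • (b * β j) := by
      rw [hc b, ← Finset.sum_sub_distrib]
      refine Finset.sum_congr rfl fun j _ => ?_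
      rw [← hv j, mul_add, smul_add, add_sub_cancel_left]
    have h2 : b * a - ∑ j, c j • (b * α j) ∈ A i := by
      have e : i = i + 0 := (add_zero i).symm
      rw [e]
      exact Submodule.sub_mem _ (hA.mul _ _ _ hb _ ha)
        (Submodule.sum_mem _ fun j _ => Submodule.smul_mem _ _ (hA.mul _ _ _ hb _ (hα j)))
    have h3 : b * a - ∑ j, c j • (b * α j) ∈ A (i + 1) := by
      rw [h1]
      exact Submodule.sum_mem _ fun j _ => Submodule.smul_mem _ _ (hA.mul _ _ _ hb _ (hβ j))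
    exact sub_eq_zero.mp (hom_disj hA h2 h3)
  intro b
  obtain ⟨b0, hb0, b1, hb1, rfl⟩ := hom_sum hA b
  rw [add_mul, key 0 b0 hb0, key 1 b1 hb1, ← Finset.sum_add_distrib]
  refine Finset.sum_congr rfl fun j _ => ?_
  rw [add_mul, smul_add]

theorem gen_odd (hA : IsSuper F A) {n : ℕ} {v α β : Fin n → A'} (hα : ∀ j, α j ∈ A 0)
    (hβ : ∀ j, β j ∈ A 1) (hv : ∀ j, α j + β j = v j)
    (hg : ∀ a : A', ∃ (c : Fin n → F), ∀ b : A', b * a = ∑ j, c j • (b * v j))
    {a : A'} (ha : a ∈ A 1) :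
    ∃ (c : Fin n → F), ∀ b : A', b * a = ∑ j, c j • (b * β j) := by
  obtain ⟨c, hc⟩ := hg a
  refine ⟨c, ?_⟩
  have key : ∀ i : ZMod 2, ∀ b ∈ A i, b * a = ∑ j, c j • (b * β j) := by
    intro i b hb
    have h1 : b * a - ∑ j, c j • (b * β j) = ∑ j, c j • (b * α j) := by
      rw [hc b, ← Finset.sum_sub_distrib]
      refine Finset.sum_congr rfl fun j _ => ?_
      rw [← hv j, mul_add, smul_add, add_sub_cancel_right]
    have h2 : b * a - ∑ j, c j • (b * β j) ∈ A (i + 1) :=
      Submodule.sub_mem _ (hA.mul _ _ _ hb _ ha)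
        (Submodule.sum_mem _ fun j _ => Submodule.smul_mem _ _ (hA.mul _ _ _ hb _ (hβ j)))
    have h3 : b * a - ∑ j, c j • (b * β j) ∈ A i := by
      rw [h1]
      have e : i = i + 0 := (add_zero i).symm
      rw [e]
      exact Submodule.sum_mem _ fun j _ => Submodule.smul_mem _ _ (hA.mul _ _ _ hb _ (hα j))
    exact sub_eq_zero.mp (hom_disj hA h3 h2)
  intro b
  obtain ⟨b0, hb0, b1, hb1, rfl⟩ := hom_sum hA b
  rw [add_mul, key 0 b0 hb0, key 1 b1 hb1, ← Finset.sum_add_distrib]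
  refine Finset.sum_congr rfl fun j _ => ?_
  rw [add_mul, smul_add]

/-- elements acting as combinations of the homogeneous generators -/
def Good (e : ℕ → G) {n : ℕ} (α β : Fin n → A') (t : G ⊗[F] A') : Prop :=
  ∃ g g' : Fin n → G, (∀ j, g j ∈ Gw F e 0 0) ∧ (∀ j, g' j ∈ Gw F e 0 1) ∧
    ∀ s, s * t = s * (∑ j, g j ⊗ₜ[F] α j + ∑ j, g' j ⊗ₜ[F] β j)

theorem Env_good (m : ℕ) (hA : IsSuper F A) {n : ℕ} {α β : Fin n → A'}
    (h0 : ∀ a ∈ A 0, ∃ (c : Fin n → F), ∀ b : A', b * a = ∑ j, c j • (b * α j))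
    (h1 : ∀ a ∈ A 1, ∃ (c : Fin n → F), ∀ b : A', b * a = ∑ j, c j • (b * β j))
    (t : G ⊗[F] A') (ht : t ∈ Env e m A hA) : Good e α β t := by
  have ht' : t ∈ Submodule.span F {t : G ⊗[F] A' | ∃ p, ∃ g ∈ Gw F e m p, ∃ a ∈ A p,
    g ⊗ₜ[F] a = t} := ht
  clear ht
  induction ht' using Submodule.span_induction with
  | zero =>
    exact ⟨0, 0, fun _ => Submodule.zero_mem _, fun _ => Submodule.zero_mem _,
      fun s => by simp⟩
  | add p q hp hq h2 h3 =>
    obtain ⟨g, g', hg, hg', h⟩ := h2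
    obtain ⟨k, k', hk, hk', h'⟩ := h3
    refine ⟨g + k, g' + k', fun j => Submodule.add_mem _ (hg j) (hk j),
      fun j => Submodule.add_mem _ (hg' j) (hk' j), fun s => ?_⟩
    rw [mul_add, h s, h' s, ← mul_add]
    congr 1
    simp only [Pi.add_apply, TensorProduct.add_tmul, Finset.sum_add_distrib]
    abel
  | smul c p hp h2 =>
    obtain ⟨g, g', hg, hg', h⟩ := h2
    refine ⟨c • g, c • g', fun j => Submodule.smul_mem _ _ (hg j),
      fun j => Submodule.smul_mem _ _ (hg' j), fun s => ?_⟩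
    rw [mul_smul_comm, h s, ← mul_smul_comm]
    congr 1
    simp only [Pi.smul_apply, TensorProduct.smul_tmul', smul_add, Finset.smul_sum]
  | mem y hy =>
    obtain ⟨p, g, hg, a, ha, rfl⟩ := hy
    have key : ∀ (c : Fin n → F) (α : Fin n → A'), (∀ b : A', b * a = ∑ j, c j • (b * α j)) →
        ∀ s : G ⊗[F] A', s * (g ⊗ₜ[F] a) = s * ∑ j, (c j • g) ⊗ₜ[F] α j := by
      intro c α hc s
      induction s using TensorProduct.induction_on with
      | zero => simp
      | add x y hx hy => rw [add_mul, add_mul, hx, hy]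
      | tmul u b =>
        rw [Algebra.TensorProduct.tmul_mul_tmul, hc b, Finset.mul_sum, TensorProduct.tmul_sum]
        refine Finset.sum_congr rfl fun j _ => ?_
        rw [Algebra.TensorProduct.tmul_mul_tmul, mul_smul_comm, TensorProduct.tmul_smul,
          TensorProduct.smul_tmul']
    fin_cases p
    · obtain ⟨c, hc⟩ := h0 a ha
      refine ⟨fun j => c j • g, 0, fun j => Submodule.smul_mem _ _ (Gw_mono hg),
        fun _ => Submodule.zero_mem _, fun s => ?_⟩
      rw [key c α hc s]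
      simp
    · obtain ⟨c, hc⟩ := h1 a ha
      refine ⟨0, fun j => c j • g, fun _ => Submodule.zero_mem _,
        fun j => Submodule.smul_mem _ _ (Gw_mono hg), fun s => ?_⟩
      rw [key c β hc s]
      simp

/-- the filtration by the number of odd factors -/
noncomputable def Fil {J : Type} (γ : J → G) (A' : Type u) [NonUnitalNonAssocRing A']
    [Module F A'] (r : ℕ) : Submodule F (G ⊗[F] A') :=
  Submodule.span F {t | ∃ (u : G) (l : List J) (a : A'), l.length = r ∧
    (u * (l.map γ).prod) ⊗ₜ[F] a = t}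

theorem Fil_top {J : Type} (γ : J → G) (t : G ⊗[F] A') : t ∈ Fil γ A' 0 := by
  induction t using TensorProduct.induction_on with
  | zero => exact Submodule.zero_mem _
  | add x y hx hy => exact Submodule.add_mem _ hx hy
  | tmul u b => exact Submodule.subset_span ⟨u, [], b, rfl, by simp⟩

theorem Fil_bot [CharZero F] (he : IsGrassmann F e) {J : Type} [Fintype J] (γ : J → G)
    (hγ : ∀ j, γ j ∈ Gw F e 0 1) {r : ℕ} (hr : Fintype.card J < r) {t : G ⊗[F] A'}
    (ht : t ∈ Fil γ A' r) : t = 0 := by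
  unfold Fil at ht
  induction ht using Submodule.span_induction with
  | zero => rfl
  | add x y _ _ hx hy => rw [hx, hy, add_zero]
  | smul c x _ hx => rw [hx, smul_zero]
  | mem y hy =>
    obtain ⟨u, l, a, hl, rfl⟩ := hy
    rw [odd_prod he γ hγ l, mul_zero, TensorProduct.zero_tmul]
    intro hnd
    have := hnd.length_le_card
    omega

theorem Fil_even (he : IsGrassmann F e) {J : Type} (γ : J → G) {g : G} (hg : g ∈ Gw F e 0 0) (α : A') {r : ℕ}
    {t : G ⊗[F] A'} (ht : t ∈ Fil γ A' r) : t * (g ⊗ₜ[F] α) ∈ Fil γ A' r := by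
  unfold Fil at ht
  induction ht using Submodule.span_induction with
  | zero => rw [zero_mul]; exact Submodule.zero_mem _
  | add x y _ _ hx hy => rw [add_mul]; exact Submodule.add_mem _ hx hy
  | smul c x _ hx => rw [smul_mul_assoc]; exact Submodule.smul_mem _ _ hx
  | mem y hy =>
    obtain ⟨u, l, a, hl, rfl⟩ := hy
    rw [Algebra.TensorProduct.tmul_mul_tmul]
    apply Submodule.subset_span
    refine ⟨u * g, l, a * α, hl, ?_⟩
    rw [mul_assoc, mul_assoc, Gw0_central he hg]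

theorem Fil_odd {J : Type} (γ : J → G) (j : J) (β : A') {r : ℕ}
    {t : G ⊗[F] A'} (ht : t ∈ Fil γ A' r) : t * (γ j ⊗ₜ[F] β) ∈ Fil γ A' (r + 1) := by
  unfold Fil at ht
  induction ht using Submodule.span_induction with
  | zero => rw [zero_mul]; exact Submodule.zero_mem _
  | add x y _ _ hx hy => rw [add_mul]; exact Submodule.add_mem _ hx hy
  | smul c x _ hx => rw [smul_mul_assoc]; exact Submodule.smul_mem _ _ hx
  | mem y hy =>
    obtain ⟨u, l, a, hl, rfl⟩ := hy
    rw [Algebra.TensorProduct.tmul_mul_tmul]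
    apply Submodule.subset_span
    refine ⟨u, l ++ [j], a * β, by simp [hl], ?_⟩
    simp [mul_assoc]

theorem Fil_le {J : Type} (γ : J → G) (r : ℕ) :
    (Fil γ A' (r + 1) : Submodule F (G ⊗[F] A')) ≤ Fil γ A' r := by
  unfold Fil
  rw [Submodule.span_le]
  rintro _ ⟨u, l, a, hl, rfl⟩
  rcases l with _ | ⟨j, l⟩
  · simp at hl
  · apply Submodule.subset_span
    refine ⟨u * γ j, l, a, by simpa using hl, ?_⟩
    simp [mul_assoc]

theorem good_kill [CharZero F] (he : IsGrassmann F e) {n : ℕ} {α β : Fin n → A'}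
    (t : Fin (n + 1) → G ⊗[F] A') (ht : ∀ i, Good e α β (t i)) (y : G ⊗[F] A') :
    ((alt F (n + 1) fun i => RO F (t i)) ^ ((n + 1) * n + 1)).unop y = 0 := by
  choose g g' hg hg' hgt using ht
  set γ : Fin (n + 1) × Fin n → G := fun p => g' p.1 p.2 with hγ
  have hγ1 : ∀ p, γ p ∈ Gw F e 0 1 := fun p => hg' p.1 p.2
  set P : Fin (n + 1) → (Module.End F (G ⊗[F] A'))ᵐᵒᵖ :=
    fun i => RO F (∑ j, g i j ⊗ₜ[F] α j) with hP
  have hRO : ∀ s u : G ⊗[F] A', (RO F s).unop u = u * s := fun s u => rfl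
  have hPZ : ∀ i, P i = ∑ j, MulOpposite.op (LinearMap.rTensor A' (LinearMap.mulRight F (g i j)))
      * MulOpposite.op (LinearMap.lTensor G (LinearMap.mulRight F (α j))) := by
    intro i
    apply MulOpposite.unop_injective
    rw [Finset.unop_sum]
    apply TensorProduct.ext'
    intro u a
    rw [LinearMap.sum_apply]
    simp only [hP, hRO, Finset.mul_sum, Algebra.TensorProduct.tmul_mul_tmul,
      MulOpposite.unop_mul, MulOpposite.unop_op, Module.End.mul_apply, LinearMap.rTensor_tmul,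
      LinearMap.lTensor_tmul, LinearMap.mulRight_apply]
  have hP0 : alt F (n + 1) P = 0 := by
    have e : P = fun i => ∑ j,
      MulOpposite.op (LinearMap.rTensor A' (LinearMap.mulRight F (g i j)))
      * MulOpposite.op (LinearMap.lTensor G (LinearMap.mulRight F (α j))) := funext hPZ
    rw [e]
    refine alt_zero (R := (Module.End F (G ⊗[F] A'))ᵐᵒᵖ) (Nat.lt_succ_self n)
      (fun i j => MulOpposite.op (LinearMap.rTensor A' (LinearMap.mulRight F (g i j))))
      (fun j => MulOpposite.op (LinearMap.lTensor G (LinearMap.mulRight F (α j)))) ?_ ?_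
    · intro i j k l
      apply MulOpposite.unop_injective
      apply TensorProduct.ext'
      intro u a
      simp only [MulOpposite.unop_mul, MulOpposite.unop_op, Module.End.mul_apply,
        LinearMap.rTensor_tmul, LinearMap.mulRight_apply, mul_assoc]
      rw [Gw0_central he (hg i j)]
    · intro i j k
      apply MulOpposite.unop_injective
      apply TensorProduct.ext'
      intro u a
      simp only [MulOpposite.unop_mul, MulOpposite.unop_op, Module.End.mul_apply,
        LinearMap.rTensor_tmul, LinearMap.lTensor_tmul, LinearMap.mulRight_apply]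
  have hPr : ∀ r i, ∀ s ∈ Fil γ A' r, (P i).unop s ∈ Fil γ A' r := by
    intro r i s hs
    simp only [hP, hRO, Finset.mul_sum]
    exact Submodule.sum_mem _ fun j _ => Fil_even he γ (hg i j) _ hs
  have hN : ∀ r i, ∀ s ∈ Fil γ A' r, s * (∑ j, g' i j ⊗ₜ[F] β j) ∈ Fil γ A' (r + 1) := by
    intro r i s hs
    rw [Finset.mul_sum]
    exact Submodule.sum_mem _ fun j _ => Fil_odd γ (i, j) (β j) hs
  have hD : ∀ r i, ∀ s ∈ Fil γ A' r,
      (RO F (t i)).unop s - (P i).unop s ∈ Fil γ A' (r + 1) := by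
    intro r i s hs
    have e : (RO F (t i)).unop s - (P i).unop s = s * (∑ j, g' i j ⊗ₜ[F] β j) := by
      simp only [hP, hRO]
      rw [hgt i s, mul_add, add_sub_cancel_left]
    rw [e]
    exact hN r i s hs
  have hU : ∀ r i, ∀ s ∈ Fil γ A' r, (RO F (t i)).unop s ∈ Fil γ A' r := by
    intro r i s hs
    have h1 := Submodule.add_mem _ (Fil_le γ r (hD r i s hs)) (hPr r i s hs)
    rwa [sub_add_cancel] at h1
  have h1 := pow_shift (Fil γ A') (U := alt F (n + 1) fun i => RO F (t i))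
    (fun r s hs => alt_shift (Fil γ A') (n + 1) _ P hU hPr hD hP0 r s hs)
    ((n + 1) * n + 1) 0 y (Fil_top γ y)
  apply Fil_bot he γ hγ1 _ h1
  rw [Fintype.card_prod, Fintype.card_fin, Fintype.card_fin]
  omega

/-- the inclusion of the envelope -/
noncomputable def incl (m : ℕ) (hA : IsSuper F A) : Env e m A hA →ₙₐ[F] G ⊗[F] A' where
  toFun t := t.1
  map_smul' _ _ := rfl
  map_zero' := rfl
  map_add' _ _ := rfl
  map_mul' _ _ := rfl

theorem Env_tp [CharZero F] (he : IsGrassmann F e) (m : ℕ) (hA : IsSuper F A)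
    (h : InVar F (V0 F) (Env e m A hA))
    {s : Finset A'} (hs : NonUnitalAlgebra.adjoin F (s : Set A') = ⊤) :
    Sat F (Env e m A hA) (tp F (s.card + 1) ((s.card + 1) * s.card + 1)) := by
  intro φ
  have hg := gen_span (triple_zero he m hA h) hs
  choose α hα β hβ hv using fun j : Fin s.card => hom_sum hA (s.equivFin.symm j : A')
  have hgood := Env_good (e := e) m hA (fun a ha => gen_even hA hα hβ hv hg ha)
    (fun a ha => gen_odd hA hα hβ hv hg ha)
  apply Subtype.val_injective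
  set φ' : Fr F →ₙₐ[F] G ⊗[F] A' := (incl m hA).comp φ with hφ'
  have h1 : φ' (tp F (s.card + 1) ((s.card + 1) * s.card + 1)) = 0 := by
    rw [tp_eval]
    exact good_kill he (fun i => φ' (X F ((i : ℕ) + 1))) (fun i => hgood _ (φ _).2) _
  exact h1

theorem Env_sat (m : ℕ) (hA : IsSuper F A) {f : Fr F} (hf : f ∈ EnvId F e m A) :
    Sat F (Env e m A hA) f := by
  intro φ
  apply Subtype.val_injective
  exact hf ((incl m hA).comp φ) (fun i => (φ (X F i)).2)

theorem sat_Env (m : ℕ) (hA : IsSuper F A) {f : Fr F} (hf : Sat F (Env e m A hA) f) :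
    f ∈ EnvId F e m A := by
  intro φ hφ
  set ψ : Fr F →ₙₐ[F] Env e m A hA :=
    FreeNonUnitalNonAssocAlgebra.lift F (fun i => ⟨φ (X F i), hφ i⟩) with hψ
  have h1 : (incl m hA).comp ψ = φ := by
    apply FreeNonUnitalNonAssocAlgebra.hom_ext
    intro i
    show (ψ (X F i)).1 = φ (X F i)
    have : ψ (X F i) = ⟨φ (X F i), hφ i⟩ := by simp [hψ, X]
    rw [this]
  rw [← h1]
  show (ψ f).1 = 0
  rw [hf ψ]
  rfl

theorem not_superrank [CharZero F] (he : IsGrassmann F e) (m : ℕ) :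
    ¬ FinSuperrank F e m (V0 F) := by
  rintro ⟨A', _, _, _, _, A, hA, ⟨s, hs⟩, hV⟩
  have h1 : InVar F (V0 F) (Env e m A hA) := (hV _).mpr (fun f hf => Env_sat m hA hf)
  exact Md_tp _ _ ((hV (Md F)).mp Md_var _ (sat_Env m hA (Env_tp he m hA h1 hs)))

end Pool.Agent.H163R3
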