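import Pool.Agent.H163R3.Clo
import Pool.Agent.H163R3.Defs

set_option autoImplicit false

namespace Pool.Agent.H163R3

universe u

variable {F : Type u} [Field F]

/-! ### trees -/

/-- monomials -/
noncomputable def tr (F : Type u) [Field F] (m : FreeMagma ℕ) : Fr F :=
  MonoidAlgebra.single m (1 : F)

theorem tr_of (i : ℕ) : tr F (FreeMagma.of i) = X F i := rfl

theorem tr_mul (a b : FreeMagma ℕ) : tr F (a * b) = tr F a * tr F b := by
  unfold tr
  rw [MonoidAlgebra.single_mul_single, one_mul]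

theorem Fr_induction {P : Fr F → Prop} (ht : ∀ m, P (tr F m))
    (ha : ∀ u v, P u → P v → P (u + v)) (hs : ∀ (c : F) u, P u → P (c • u)) : ∀ u, P u := by
  intro u
  induction u using MonoidAlgebra.induction_linear with
  | zero => simpa using hs 0 _ (ht (FreeMagma.of 0))
  | add u v h1 h2 => exact ha _ _ h1 h2
  | single m r =>
    have : MonoidAlgebra.single m r = r • tr F m := by
      unfold tr
      rw [MonoidAlgebra.smul_single, smul_eq_mul, mul_one]
    rw [this]
    exact hs _ _ (ht m)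

/-! ### evaluation of operators -/

/-- operators of right multiplication -/
noncomputable def ev (F : Type u) [Field F] {B : Type u} [NonUnitalNonAssocRing B] [Module F B]
    [IsScalarTower F B B] [SMulCommClass F B B] (v : ℕ → B) :
    FreeAlgebra F ℕ →ₐ[F] (Module.End F B)ᵐᵒᵖ :=
  FreeAlgebra.lift F fun i => MulOpposite.op (LinearMap.mulRight F (v i))

theorem ev_hom {B : Type u} [NonUnitalNonAssocRing B] [Module F B]
    [IsScalarTower F B B] [SMulCommClass F B B] (φ : Fr F →ₙₐ[F] B) (v : ℕ → Fr F)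
    (w : FreeAlgebra F ℕ) : ∀ s : Fr F,
    φ ((ev F v w).unop s) = (ev F (fun i => φ (v i)) w).unop (φ s) := by
  induction w using FreeAlgebra.induction with
  | grade0 r =>
    intro s
    rw [AlgHom.commutes, AlgHom.commutes]
    simp [MulOpposite.algebraMap_apply]
  | grade1 i => intro s; simp [ev]
  | add p q hp hq =>
    intro s
    simp only [map_add, MulOpposite.unop_add, LinearMap.add_apply, hp, hq]
  | mul p q hp hq =>
    intro s
    simp only [map_mul, MulOpposite.unop_mul, Module.End.mul_apply, hp, hq]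

/-! ### good T-ideals -/

/-- T-ideals containing our identities -/
structure GT (I : Submodule F (Fr F)) : Prop where
  t : IsT I
  i1 : ∀ u v w : Fr F, u * (v * w) ∈ I
  i2 : ∀ u a b c : Fr F, ((u * a) * b) * c + ((u * b) * a) * c
    - ((u * c) * a) * b - ((u * c) * b) * a ∈ I

theorem GT_of {I : Submodule F (Fr F)} (hI : IsT I) (h : ∀ f ∈ V0 F, f ∈ I) : GT I := by
  refine ⟨hI, ?_, ?_⟩
  · intro u v w
    have h1 := hI.endo (FreeNonUnitalNonAssocAlgebra.lift F
      (fun i => if i = 0 then u else if i = 1 then v else w)) _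
      (h _ (by unfold V0; exact Set.mem_insert _ _))
    simpa [X] using h1
  · intro u a b c
    have h1 := hI.endo (FreeNonUnitalNonAssocAlgebra.lift F
      (fun i => if i = 0 then u else if i = 1 then a else if i = 2 then b else c)) _
      (h _ (by unfold V0; exact Set.mem_insert_of_mem _ (Set.mem_singleton _)))
    simpa [X] using h1

/-- right multiplication on the quotient -/
noncomputable def Rq {I : Submodule F (Fr F)} (hI : IsT I) (w : Fr F) :
    Module.End F (Fr F ⧸ I) :=
  I.mapQ I (LinearMap.mulRight F w) (fun u hu => hI.mul_right u w hu)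

theorem Rq_mk {I : Submodule F (Fr F)} (hI : IsT I) (w s : Fr F) :
    Rq hI w (I.mkQ s) = I.mkQ (s * w) := rfl

theorem act_ok {I : Submodule F (Fr F)} (hI : GT I) (v : ℕ → Fr F) (a b c : ℕ) :
    (MulOpposite.op (Rq hI.t (v a)) * MulOpposite.op (Rq hI.t (v b))
      + MulOpposite.op (Rq hI.t (v b)) * MulOpposite.op (Rq hI.t (v a)))
      * MulOpposite.op (Rq hI.t (v c))
    = MulOpposite.op (Rq hI.t (v c)) * (MulOpposite.op (Rq hI.t (v a))
      * MulOpposite.op (Rq hI.t (v b))
      + MulOpposite.op (Rq hI.t (v b)) * MulOpposite.op (Rq hI.t (v a))) := by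
  apply MulOpposite.unop_injective
  apply LinearMap.ext
  intro s
  obtain ⟨u, rfl⟩ := I.mkQ_surjective s
  simp only [MulOpposite.unop_mul, MulOpposite.unop_add, MulOpposite.unop_op,
    Module.End.mul_apply, LinearMap.add_apply, Rq_mk, map_add]
  rw [← sub_eq_zero]
  have h := (Submodule.Quotient.mk_eq_zero I).2 (hI.i2 u (v a) (v b) (v c))
  have h2 : I.mkQ (((u * v a) * v b) * v c + ((u * v b) * v a) * v c
    - ((u * v c) * v a) * v b - ((u * v c) * v b) * v a) = 0 := h
  rw [← h2]
  simp only [map_add, map_sub]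
  abel

/-- the action of the operator algebra -/
noncomputable def act {I : Submodule F (Fr F)} (hI : GT I) (v : ℕ → Fr F) :
    Op F →ₐ[F] (Module.End F (Fr F ⧸ I))ᵐᵒᵖ :=
  opLift (fun i => MulOpposite.op (Rq hI.t (v i))) (act_ok hI v)

/-- the same as a function -/
noncomputable def ac {I : Submodule F (Fr F)} (hI : GT I) (v : ℕ → Fr F) (g : Op F)
    (s : Fr F ⧸ I) : Fr F ⧸ I := (act hI v g).unop s

section

variable {I : Submodule F (Fr F)} (hI : GT I) (v : ℕ → Fr F)

theorem ac_one (s : Fr F ⧸ I) : ac hI v 1 s = s := by unfold ac; simp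
theorem ac_x (i : ℕ) (s : Fr F ⧸ I) : ac hI v (x F i) s = Rq hI.t (v i) s := by
  unfold ac act; rw [opLift_x]; rfl
theorem ac_mul (g h : Op F) (s : Fr F ⧸ I) : ac hI v (g * h) s = ac hI v h (ac hI v g s) := by
  unfold ac; simp
theorem ac_add (g h : Op F) (s : Fr F ⧸ I) : ac hI v (g + h) s = ac hI v g s + ac hI v h s := by
  unfold ac; simp
theorem ac_smul (c : F) (h : Op F) (s : Fr F ⧸ I) : ac hI v (c • h) s = c • ac hI v h s := by
  unfold ac; simp
theorem ac_zero (s : Fr F ⧸ I) : ac hI v 0 s = 0 := by unfold ac; simp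
theorem ac_add' (g : Op F) (s t : Fr F ⧸ I) : ac hI v g (s + t) = ac hI v g s + ac hI v g t := by
  unfold ac; simp
theorem ac_smul' (c : F) (g : Op F) (s : Fr F ⧸ I) : ac hI v g (c • s) = c • ac hI v g s := by
  unfold ac; simp
theorem ac_zero' (g : Op F) : ac hI v g 0 = 0 := by unfold ac; simp

theorem ac_mk (w : FreeAlgebra F ℕ) : ∀ s : Fr F,
    ac hI v (mk F w) (I.mkQ s) = I.mkQ ((ev F v w).unop s) := by
  induction w using FreeAlgebra.induction with
  | grade0 r =>
    intro s
    rw [AlgHom.commutes, AlgHom.commutes, Algebra.algebraMap_eq_smul_one, ac_smul, ac_one]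
    simp [MulOpposite.algebraMap_apply]
  | grade1 i =>
    intro s
    have h : mk F (FreeAlgebra.ι F i) = x F i := rfl
    rw [h, ac_x, Rq_mk]
    simp [ev]
  | add p q hp hq =>
    intro s
    simp only [map_add, ac_add, hp, hq, MulOpposite.unop_add, LinearMap.add_apply]
  | mul p q hp hq =>
    intro s
    simp only [map_mul, ac_mul, hp, hq, MulOpposite.unop_mul, Module.End.mul_apply]

theorem ac_sub (σ : ℕ → ℕ) (g : Op F) : ∀ s, ac hI v (sub F σ g) s
    = ac hI (fun i => v (σ i)) g s := by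
  revert g
  apply left_induction
  · intro s; rw [map_one, ac_one, ac_one]
  · intro i u h s
    rw [map_mul, sub_x, ac_mul, ac_mul, h, ac_x, ac_x]
  · intro p q h1 h2 s; rw [map_add, ac_add, ac_add, h1, h2]
  · intro c p h s; rw [map_smul, ac_smul, ac_smul, h]

theorem Rq_add (w w' : Fr F) (s : Fr F ⧸ I) :
    Rq hI.t (w + w') s = Rq hI.t w s + Rq hI.t w' s := by
  obtain ⟨u, rfl⟩ := I.mkQ_surjective s
  rw [Rq_mk, Rq_mk, Rq_mk, mul_add, map_add]

theorem Rq_smul (c : F) (w : Fr F) (s : Fr F ⧸ I) :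
    Rq hI.t (c • w) s = c • Rq hI.t w s := by
  obtain ⟨u, rfl⟩ := I.mkQ_surjective s
  rw [Rq_mk, Rq_mk, mul_smul_comm, map_smul]

/-- the perturbed assignment -/
noncomputable def vt (v : ℕ → Fr F) (a b : ℕ) (t : F) : ℕ → Fr F :=
  fun i => v i + (if b = i then t • v a else 0)

open Polynomial in
theorem ac_poly (a b : ℕ) (ψ : Module.Dual F (Fr F ⧸ I)) (g : Op F) : ∀ s, ∃ p : F[X],
    (∀ t, p.eval t = ψ (ac hI (vt v a b t) g s)) ∧ p.coeff 0 = ψ (ac hI v g s) ∧
    p.coeff 1 = ψ (ac hI v (E F a b g) s) := by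
  revert g
  apply left_induction
  · intro s
    refine ⟨C (ψ s), ?_, ?_, ?_⟩
    · intro t; rw [ac_one]; simp
    · rw [ac_one]; simp
    · rw [E_one, ac_zero, map_zero, coeff_C]; simp
  · intro i g h s
    obtain ⟨p1, h11, h12, h13⟩ := h (Rq hI.t (v i) s)
    by_cases hb : b = i
    · subst hb
      obtain ⟨p2, h21, h22, h23⟩ := h (Rq hI.t (v a) s)
      refine ⟨p1 + Polynomial.X * p2, ?_, ?_, ?_⟩
      · intro t
        have e : vt v a b t b = v b + t • v a := by simp [vt]
        rw [ac_mul, ac_x, e, Rq_add hI, Rq_smul hI, ac_add', ac_smul', map_add, map_smul, eval_add,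
          eval_mul, eval_X, h11, h21, smul_eq_mul]
      · rw [ac_mul, ac_x, coeff_add, coeff_X_mul_zero, add_zero, h12]
      · rw [E_mul, E_x, ac_add, ac_mul, ac_x]
        have e : dl F b b • x F a = x F a := by simp [dl]
        rw [e, ac_mul, ac_x, map_add, coeff_add, h13, ← h22]
        congr 1
        exact coeff_X_mul p2 0
    · refine ⟨p1, ?_, ?_, ?_⟩
      · intro t
        have e : vt v a b t i = v i := by simp [vt, hb]
        rw [ac_mul, ac_x, e, h11]
      · rw [ac_mul, ac_x, h12]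
      · rw [E_mul, E_x, ac_add, ac_mul, ac_x]
        have e : dl F b i • x F a = 0 := by simp [dl, hb]
        rw [e, zero_mul, ac_zero, add_zero, h13]
  · intro g h hg hh s
    obtain ⟨p1, h11, h12, h13⟩ := hg s
    obtain ⟨p2, h21, h22, h23⟩ := hh s
    refine ⟨p1 + p2, ?_, ?_, ?_⟩
    · intro t; rw [ac_add, eval_add, h11, h21, map_add]
    · rw [ac_add, coeff_add, h12, h22, map_add]
    · rw [map_add, ac_add, coeff_add, h13, h23, map_add]
  · intro c g h s
    obtain ⟨p1, h11, h12, h13⟩ := h s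
    refine ⟨C c * p1, ?_, ?_, ?_⟩
    · intro t; rw [ac_smul, eval_mul, eval_C, h11, map_smul, smul_eq_mul]
    · rw [ac_smul, coeff_C_mul, h12, map_smul, smul_eq_mul]
    · rw [map_smul, ac_smul, coeff_C_mul, h13, map_smul, smul_eq_mul]

/-- operators killing all products -/
noncomputable def KI : Submodule F (Op F) where
  carrier := {g | ∀ (v : ℕ → Fr F) (y z : Fr F), ac hI v g (I.mkQ (y * z)) = 0}
  add_mem' := by
    intro g h hg hh v y z
    rw [ac_add, hg v y z, hh v y z, add_zero]
  zero_mem' := by intro v y z; rw [ac_zero]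
  smul_mem' := by
    intro c g hg v y z
    rw [ac_smul, hg v y z, smul_zero]

theorem mem_KI {g : Op F} : g ∈ KI hI ↔
    ∀ (v : ℕ → Fr F) (y z : Fr F), ac hI v g (I.mkQ (y * z)) = 0 := Iff.rfl

theorem KI_nice [CharZero F] : Nice (KI hI) where
  st := by
    intro a b g hg v y z
    rw [← Module.forall_dual_apply_eq_zero_iff F]
    intro ψ
    obtain ⟨p, h1, _, h3⟩ := ac_poly hI v a b ψ g (I.mkQ (y * z))
    have : p = 0 := by
      apply Polynomial.funext
      intro t
      rw [h1, hg _ y z, map_zero, Polynomial.eval_zero]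
    rw [← h3, this, Polynomial.coeff_zero]
  sb := by
    intro σ _ g hg v y z
    rw [ac_sub]; exact hg _ y z
  lm := by
    intro i g hg v y z
    rw [ac_mul, ac_x, Rq_mk]; exact hg v (y * z) (v i)

end

/-! ### the generators attached to operators -/

/-- a lift of a highest weight vector -/
noncomputable def wc (F : Type u) [Field F] (c : List ℕ) : FreeAlgebra F ℕ :=
  Classical.choose (mk_surj F (fc F 0 c))

theorem mk_wc (c : List ℕ) : mk F (wc F c) = fc F 0 c :=
  Classical.choose_spec (mk_surj F (fc F 0 c))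

/-- the identity attached to it -/
noncomputable def Phi (F : Type u) [Field F] (c : List ℕ) : Fr F :=
  (ev F (fun i => X F (i + 2)) (wc F c)).unop (X F 0 * X F 1)

theorem Phi_mem {I : Submodule F (Fr F)} (hI : GT I) (c : List ℕ) :
    Phi F c ∈ I ↔ fc F 0 c ∈ KI hI := by
  constructor
  · intro h v y z
    have h1 := hI.t.endo (FreeNonUnitalNonAssocAlgebra.lift F
      (fun i => if i = 0 then y else if i = 1 then z else v (i - 2))) _ h
    unfold Phi at h1
    rw [ev_hom] at h1
    have e1 : (fun i => (FreeNonUnitalNonAssocAlgebra.lift F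
      (fun i => if i = 0 then y else if i = 1 then z else v (i - 2))) (X F (i + 2))) = v := by
      funext i
      simp [X]
    have e2 : (FreeNonUnitalNonAssocAlgebra.lift F
      (fun i => if i = 0 then y else if i = 1 then z else v (i - 2))) (X F 0 * X F 1)
        = y * z := by
      simp [X]
    rw [e1, e2] at h1
    rw [← mk_wc, ac_mk]
    exact (Submodule.Quotient.mk_eq_zero I).2 h1
  · intro h
    have h1 := h (fun i => X F (i + 2)) (X F 0) (X F 1)
    rw [← mk_wc, ac_mk] at h1
    exact (Submodule.Quotient.mk_eq_zero I).1 h1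

/-! ### degrees in the operator algebra -/

/-- bounded degree -/
noncomputable def Dg (F : Type u) [Field F] (d : ℕ) : Submodule F (Op F) :=
  Submodule.span F {u | ∃ l : List ℕ, l.length ≤ d ∧ wd F l = u}

theorem Dg_mono {d e : ℕ} (h : d ≤ e) : Dg F d ≤ Dg F e := by
  apply Submodule.span_mono
  rintro _ ⟨l, hl, rfl⟩
  exact ⟨l, hl.trans h, rfl⟩

theorem exists_Dg (u : Op F) : ∃ d, u ∈ Dg F d := by
  revert u
  apply word_induction
  · intro l; exact ⟨l.length, Submodule.subset_span ⟨l, le_rfl, rfl⟩⟩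
  · rintro u v ⟨d, hd⟩ ⟨e, he⟩
    exact ⟨max d e, Submodule.add_mem _ (Dg_mono (le_max_left _ _) hd)
      (Dg_mono (le_max_right _ _) he)⟩
  · rintro c u ⟨d, hd⟩
    exact ⟨d, Submodule.smul_mem _ _ hd⟩

theorem x_Dg (i : ℕ) {d : ℕ} {u : Op F} (hu : u ∈ Dg F d) : x F i * u ∈ Dg F (d + 1) := by
  unfold Dg at hu
  induction hu using Submodule.span_induction with
  | zero => simp
  | add p q _ _ h1 h2 => rw [mul_add]; exact Submodule.add_mem _ h1 h2
  | smul k p _ h => rw [mul_smul_comm]; exact Submodule.smul_mem _ _ h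
  | mem y hy =>
    obtain ⟨l, hl, rfl⟩ := hy
    exact Submodule.subset_span ⟨i :: l, by simp; omega, by simp⟩

theorem E_wd_Dg (a b : ℕ) (l : List ℕ) : E F a b (wd F l) ∈ Dg F l.length := by
  induction l with
  | nil => simp
  | cons c l ih =>
    rw [wd_cons, E_mul, E_x]
    apply Submodule.add_mem
    · exact x_Dg c ih
    · rw [smul_mul_assoc]
      exact Submodule.smul_mem _ _ (Submodule.subset_span ⟨a :: l, by simp, by simp⟩)

theorem Dg_stab (d : ℕ) : Stab (Dg F d) := by
  intro a b u hu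
  unfold Dg at hu
  induction hu using Submodule.span_induction with
  | zero => simp
  | add p q _ _ h1 h2 => rw [map_add]; exact Submodule.add_mem _ h1 h2
  | smul k p _ h => rw [map_smul]; exact Submodule.smul_mem _ _ h
  | mem y hy =>
    obtain ⟨l, hl, rfl⟩ := hy
    exact Dg_mono hl (E_wd_Dg a b l)

theorem Dg_sub (d : ℕ) (σ : ℕ → ℕ) {u : Op F} (hu : u ∈ Dg F d) : sub F σ u ∈ Dg F d := by
  unfold Dg at hu
  induction hu using Submodule.span_induction with
  | zero => simp
  | add p q _ _ h1 h2 => rw [map_add]; exact Submodule.add_mem _ h1 h2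
  | smul k p _ h => rw [map_smul]; exact Submodule.smul_mem _ _ h
  | mem y hy =>
    obtain ⟨l, hl, rfl⟩ := hy
    rw [sub_wd]
    exact Submodule.subset_span ⟨l.map σ, by simpa using hl, rfl⟩

/-- `V * K` -/
noncomputable def VK (K : Submodule F (Op F)) : Submodule F (Op F) :=
  Submodule.span F {u | ∃ i, ∃ k ∈ K, x F i * k = u}

theorem VK_le {K : Submodule F (Op F)} (hK : Nice K) : VK K ≤ K := by
  unfold VK
  rw [Submodule.span_le]
  rintro _ ⟨i, k, hk, rfl⟩
  exact hK.lm i k hk

theorem VK_stab {K : Submodule F (Op F)} (hK : Nice K) : Stab (VK K) := by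
  intro a b u hu
  unfold VK at hu
  induction hu using Submodule.span_induction with
  | zero => simp
  | add p q _ _ h1 h2 => rw [map_add]; exact Submodule.add_mem _ h1 h2
  | smul k p _ h => rw [map_smul]; exact Submodule.smul_mem _ _ h
  | mem y hy =>
    obtain ⟨i, k, hk, rfl⟩ := hy
    rw [E_mul, E_x]
    apply Submodule.add_mem
    · exact Submodule.subset_span ⟨i, _, hK.st a b k hk, rfl⟩
    · rw [smul_mul_assoc]
      exact Submodule.smul_mem _ _ (Submodule.subset_span ⟨a, _, hk, rfl⟩)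

theorem VK_sub {K : Submodule F (Op F)} (hK : Nice K) {σ : ℕ → ℕ} (hσ : Function.Injective σ)
    {u : Op F} (hu : u ∈ VK K) : sub F σ u ∈ VK K := by
  unfold VK at hu
  induction hu using Submodule.span_induction with
  | zero => simp
  | add p q _ _ h1 h2 => rw [map_add]; exact Submodule.add_mem _ h1 h2
  | smul k p _ h => rw [map_smul]; exact Submodule.smul_mem _ _ h
  | mem y hy =>
    obtain ⟨i, k, hk, rfl⟩ := hy
    rw [map_mul, sub_x]
    exact Submodule.subset_span ⟨σ i, _, hK.sb σ hσ k hk, rfl⟩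

theorem low_nice {K : Submodule F (Op F)} (hK : Nice K) (d : ℕ) :
    Nice ((K ⊓ Dg F d) ⊔ VK K) where
  st := by
    intro a b u hu
    rw [Submodule.mem_sup] at hu
    obtain ⟨p, ⟨hp1, hp2⟩, q, hq, rfl⟩ := hu
    rw [map_add]
    exact Submodule.add_mem_sup ⟨hK.st a b p hp1, Dg_stab d a b p hp2⟩ (VK_stab hK a b q hq)
  sb := by
    intro σ hσ u hu
    rw [Submodule.mem_sup] at hu
    obtain ⟨p, ⟨hp1, hp2⟩, q, hq, rfl⟩ := hu
    rw [map_add]
    exact Submodule.add_mem_sup ⟨hK.sb σ hσ p hp1, Dg_sub d σ hp2⟩ (VK_sub hK hσ hq)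
  lm := by
    intro i u hu
    rw [Submodule.mem_sup] at hu
    obtain ⟨p, ⟨hp1, hp2⟩, q, hq, rfl⟩ := hu
    rw [mul_add]
    apply Submodule.mem_sup_right
    exact Submodule.add_mem _ (Submodule.subset_span ⟨i, p, hp1, rfl⟩)
      (Submodule.subset_span ⟨i, q, VK_le hK hq, rfl⟩)

theorem fg_deg [CharZero F] {K : Submodule F (Op F)} (hK : Nice K) :
    ∃ (S : Finset (List ℕ)) (d : ℕ), (∀ c ∈ S, fc F 0 c ∈ K) ∧
    (∀ K2 : Submodule F (Op F), Nice K2 → (∀ c ∈ S, fc F 0 c ∈ K2) → K ≤ K2) ∧
    K ≤ (K ⊓ Dg F d) ⊔ VK K := by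
  obtain ⟨S, h1, h2⟩ := fg hK
  choose f hf using fun c : List ℕ => exists_Dg (fc F 0 c)
  refine ⟨S, S.sup f, h1, h2, h2 _ (low_nice hK _) ?_⟩
  intro c hc
  exact Submodule.mem_sup_left ⟨h1 c hc, Dg_mono (Finset.le_sup hc) (hf c)⟩

/-! ### representing elements -/

/-- the linear map `g ↦ s * g` -/
noncomputable def evl {I : Submodule F (Fr F)} (hI : GT I) (v : ℕ → Fr F) (s : Fr F ⧸ I) :
    Op F →ₗ[F] Fr F ⧸ I where
  toFun g := ac hI v g s
  map_add' g h := ac_add hI v g h s
  map_smul' c g := ac_smul hI v c g s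

/-- `∑ x_i g_i` -/
noncomputable def Psi {I : Submodule F (Fr F)} (hI : GT I) (v : ℕ → Fr F) (s : ℕ → Fr F) :
    (ℕ →₀ Op F) →ₗ[F] Fr F ⧸ I :=
  Finsupp.lsum F fun i => evl hI v (I.mkQ (s i))

theorem Psi_single {I : Submodule F (Fr F)} (hI : GT I) (v s : ℕ → Fr F) (i : ℕ) (g : Op F) :
    Psi hI v s (Finsupp.single i g) = ac hI v g (I.mkQ (s i)) := by
  unfold Psi
  rw [Finsupp.lsum_single]
  rfl

theorem Psi_apply {I : Submodule F (Fr F)} (hI : GT I) (v s : ℕ → Fr F) (g : ℕ →₀ Op F) :
    Psi hI v s g = g.sum fun i h => ac hI v h (I.mkQ (s i)) := by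
  unfold Psi
  rw [Finsupp.lsum_apply]
  rfl

/-- right multiplication by a letter on the representing tuples -/
noncomputable def rmx (F : Type u) [Field F] (j : ℕ) : (ℕ →₀ Op F) →ₗ[F] (ℕ →₀ Op F) :=
  Finsupp.mapRange.linearMap (LinearMap.mulRight F (x F j))

theorem Psi_rmx {I : Submodule F (Fr F)} (hI : GT I) (s : ℕ → Fr F) (j : ℕ) (g : ℕ →₀ Op F) :
    Psi hI (X F) s (rmx F j g) = Rq hI.t (X F j) (Psi hI (X F) s g) := by
  induction g using Finsupp.induction_linear with
  | zero => simp
  | add p q h1 h2 => simp only [map_add, h1, h2]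
  | single i h =>
    have e : rmx F j (Finsupp.single i h) = Finsupp.single i (h * x F j) := by
      simp [rmx]
    rw [e, Psi_single, Psi_single, ac_mul, ac_x]

theorem rep (f : Fr F) : ∃ g : ℕ →₀ Op F, ∀ (I : Submodule F (Fr F)) (hI : GT I),
    I.mkQ f = Psi hI (X F) (X F) g := by
  revert f
  apply Fr_induction
  · intro m
    induction m using FreeMagma.recOnMul with
    | ih1 i =>
      refine ⟨Finsupp.single i 1, fun I hI => ?_⟩
      rw [Psi_single, ac_one, tr_of]
    | ih2 a b ha _ =>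
      induction b using FreeMagma.recOnMul with
      | ih1 j =>
        obtain ⟨g, hg⟩ := ha
        refine ⟨rmx F j g, fun I hI => ?_⟩
        rw [Psi_rmx, ← hg I hI, Rq_mk, tr_mul, tr_of]
      | ih2 b c _ _ =>
        refine ⟨0, fun I hI => ?_⟩
        rw [map_zero, tr_mul, tr_mul]
        exact (Submodule.Quotient.mk_eq_zero I).2 (hI.i1 _ _ _)
  · rintro u v ⟨g, hg⟩ ⟨h, hh⟩
    refine ⟨g + h, fun I hI => ?_⟩
    rw [map_add, map_add, hg I hI, hh I hI]
  · rintro c u ⟨g, hg⟩
    refine ⟨c • g, fun I hI => ?_⟩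
    rw [map_smul, map_smul, hg I hI]

/-- the components of an element of `I` are in `KI` -/
theorem comp_KI {I : Submodule F (Fr F)} (hI : GT I) {g : ℕ →₀ Op F}
    (hg : Psi hI (X F) (X F) g = 0) (i : ℕ) : g i ∈ KI hI := by
  have key : ∀ w : ℕ → Fr F, Psi hI w w g = 0 := by
    intro w
    set φ := FreeNonUnitalNonAssocAlgebra.lift F w with hφ
    have hφX : ∀ j, φ (X F j) = w j := by intro j; simp [hφ, X]
    set φq : (Fr F ⧸ I) →ₗ[F] (Fr F ⧸ I) :=
      I.mapQ I (φ : Fr F →ₗ[F] Fr F) (fun u hu => hI.t.endo φ u hu) with hφq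
    have h1 : ∀ (h : Op F) (s : Fr F ⧸ I), φq (ac hI (X F) h s) = ac hI w h (φq s) := by
      apply left_induction
      · intro s; rw [ac_one, ac_one]
      · intro j u h s
        rw [ac_mul, ac_mul, h, ac_x, ac_x]
        congr 1
        obtain ⟨s, rfl⟩ := I.mkQ_surjective s
        show I.mkQ (φ (s * X F j)) = I.mkQ (φ s * w j)
        rw [map_mul, hφX]
      · intro p q h1 h2 s; rw [ac_add, ac_add, map_add, h1, h2]
      · intro c p h s; rw [ac_smul, ac_smul, map_smul, h]
    have h2 : ∀ g : ℕ →₀ Op F, φq (Psi hI (X F) (X F) g) = Psi hI w w g := by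
      intro g
      induction g using Finsupp.induction_linear with
      | zero => simp
      | add p q h1 h2 => simp only [map_add, h1, h2]
      | single i h =>
        rw [Psi_single, Psi_single, h1]
        congr 1
        show I.mkQ (φ (X F i)) = _
        rw [hφX]
    rw [← h2, hg, map_zero]
  intro v y z
  have h1 := key v
  have h2 := key (fun j => v j + if j = i then y * z else 0)
  have h3 : ∀ (h : Op F) (s : Fr F ⧸ I),
      ac hI (fun j => v j + if j = i then y * z else 0) h s = ac hI v h s := by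
    apply left_induction
    · intro s; rw [ac_one, ac_one]
    · intro j u h s
      rw [ac_mul, ac_mul, h, ac_x, ac_x]
      congr 1
      rw [Rq_add hI]
      split_ifs
      · obtain ⟨s, rfl⟩ := I.mkQ_surjective s
        have : Rq hI.t (y * z) (I.mkQ s) = 0 :=
          (Submodule.Quotient.mk_eq_zero I).2 (hI.i1 s y z)
        rw [this, add_zero]
      · have : Rq hI.t (0 : Fr F) s = 0 := by
          have := Rq_smul hI 0 0 s
          simpa using this
        rw [this, add_zero]
    · intro p q h1 h2 s; rw [ac_add, ac_add, h1, h2]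
    · intro c p h s; rw [ac_smul, ac_smul, h]
  have h4 : Psi hI (fun j => v j + if j = i then y * z else 0)
      (fun j => v j + if j = i then y * z else 0) g
      = Psi hI v v g + ac hI v (g i) (I.mkQ (y * z)) := by
    rw [Psi_apply, Psi_apply]
    have e : ∀ (j : ℕ) (h : Op F), ac hI (fun j => v j + if j = i then y * z else 0) h
        (I.mkQ (v j + if j = i then y * z else 0))
        = ac hI v h (I.mkQ (v j)) + if j = i then ac hI v h (I.mkQ (y * z)) else 0 := by
      intro j h
      rw [h3, map_add, ac_add']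
      split_ifs
      · rfl
      · rw [map_zero, ac_zero']
    simp only [e, Finsupp.sum, Finset.sum_add_distrib]
    congr 1
    rw [Finset.sum_ite_eq' g.support i]
    split_ifs with hi
    · rfl
    · rw [Finsupp.notMem_support_iff.mp hi, ac_zero]
  rw [h4, h1, zero_add] at h2
  exact h2

end Pool.Agent.H163R3
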